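import Pool.Agent.H5.LP.B7

/-! Integrals over simplices: slicing, symmetries. -/

set_option autoImplicit false

open MeasureTheory Set Filter
open scoped ENNReal Topology

namespace Pool.Agent.H5.SM

open Pool.Agent.H5.LP (V Del T T_lintegral spl spl_apply spl_mp del_compact del_vol_ne_zero)

variable {k : ℕ}

/-- barycentric coordinates -/
def bary (x : V k) : Fin (k + 1) → ℝ := Fin.cons (1 - ∑ i, x i) x

lemma bary_zero (x : V k) : bary x 0 = 1 - ∑ i, x i := rfl

lemma bary_succ (x : V k) (i : Fin k) : bary x i.succ = x i := rfl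

lemma bary_sum (x : V k) : ∑ i, bary x i = 1 := by
  rw [Fin.sum_univ_succ, bary_zero]
  simp only [bary_succ]
  ring

lemma bary_cont : Continuous (bary : V k → Fin (k + 1) → ℝ) := by
  apply continuous_pi
  intro i
  refine Fin.cases ?_ (fun j => ?_) i
  · simp only [bary_zero]
    fun_prop
  · simp only [bary_succ]
    fun_prop

lemma bary_mem {x : V k} : bary x ∈ stdSimplex ℝ (Fin (k + 1)) ↔ x ∈ Del k := by
  constructor
  · rintro ⟨h1, h2⟩
    refine ⟨fun i => h1 i.succ, ?_⟩
    have := h1 0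
    rw [bary_zero] at this
    linarith
  · rintro ⟨h1, h2⟩
    refine ⟨fun i => ?_, bary_sum x⟩
    refine Fin.cases ?_ (fun j => ?_) i
    · rw [bary_zero]; linarith
    · exact h1 j

lemma bary_tail {μ : Fin (k + 1) → ℝ} (h : ∑ i, μ i = 1) : bary (fun i => μ i.succ) = μ := by
  ext i
  refine Fin.cases ?_ (fun j => ?_) i
  · rw [bary_zero]
    rw [Fin.sum_univ_succ] at h
    linarith
  · rfl

lemma tail_mem {μ : Fin (k + 1) → ℝ} (h : μ ∈ stdSimplex ℝ (Fin (k + 1))) :
    (fun i : Fin k => μ i.succ) ∈ Del k := by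
  rw [← bary_mem, bary_tail h.2]
  exact h

/-- the slice of the simplex at height `s` -/
def sl (s : ℝ) (ν : Fin (k + 1) → ℝ) : Fin (k + 2) → ℝ := Fin.snoc ((1 - s) • ν) s

lemma sl_last (s : ℝ) (ν : Fin (k + 1) → ℝ) : sl s ν (Fin.last (k + 1)) = s := by
  unfold sl; simp

lemma sl_castSucc (s : ℝ) (ν : Fin (k + 1) → ℝ) (i : Fin (k + 1)) :
    sl s ν i.castSucc = (1 - s) * ν i := by
  unfold sl; simp

lemma sl_cont : Continuous (fun q : ℝ × (Fin (k + 1) → ℝ) => sl q.1 q.2) := by
  apply continuous_pi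
  intro i
  refine Fin.lastCases ?_ (fun j => ?_) i
  · simp only [sl_last]
    fun_prop
  · simp only [sl_castSucc]
    fun_prop

lemma sl_mem {s : ℝ} (h0 : 0 ≤ s) (h1 : s ≤ 1) {ν : Fin (k + 1) → ℝ}
    (hν : ν ∈ stdSimplex ℝ (Fin (k + 1))) : sl s ν ∈ stdSimplex ℝ (Fin (k + 2)) := by
  refine ⟨fun i => ?_, ?_⟩
  · refine Fin.lastCases ?_ (fun j => ?_) i
    · rw [sl_last]; exact h0
    · rw [sl_castSucc]; exact mul_nonneg (by linarith) (hν.1 j)
  · rw [Fin.sum_univ_castSucc, sl_last]
    simp only [sl_castSucc]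
    rw [← Finset.mul_sum, hν.2]
    ring

/-- the same slice in affine coordinates -/
def sn (s : ℝ) (ν : V k) : V (k + 1) := Fin.snoc ((1 - s) • ν) s

lemma bary_sn (s : ℝ) (ν : V k) : bary (sn s ν) = sl s (bary ν) := by
  ext i
  refine Fin.cases ?_ (fun j => ?_) i
  · rw [bary_zero]
    have e : sl s (bary ν) (0 : Fin (k + 2)) = (1 - s) * bary ν 0 := by
      rw [show (0 : Fin (k + 2)) = (0 : Fin (k + 1)).castSucc by rfl, sl_castSucc]
    rw [e, bary_zero]
    unfold sn
    rw [Fin.sum_univ_castSucc]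
    simp only [Fin.snoc_castSucc, Fin.snoc_last, Pi.smul_apply, smul_eq_mul]
    rw [← Finset.mul_sum]
    ring
  · rw [bary_succ]
    unfold sn
    refine Fin.lastCases ?_ (fun l => ?_) j
    · rw [Fin.snoc_last, Fin.succ_last, sl_last]
    · rw [Fin.snoc_castSucc, Fin.succ_castSucc, sl_castSucc, bary_succ]
      rfl

/-- slicing for lower integrals -/
lemma lintegral_slice {f : V (k + 1) → ℝ≥0∞} (hf : Measurable f) :
    ∫⁻ x in Del (k + 1), f x = ∫⁻ s in Icc (0 : ℝ) 1, ENNReal.ofReal ((1 - s) ^ k) *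
      ∫⁻ ν in Del k, f (sn s ν) := by
  have hsplm : Measurable (spl k).symm := (spl k).symm.measurable
  have hsym : ∀ q : (Fin k → ℝ) × ℝ, (spl k).symm q = Fin.snoc q.1 q.2 := by
    intro q
    apply (spl k).injective
    rw [MeasurableEquiv.apply_symm_apply, spl_apply]
    ext i
    · simp
    · simp
  -- product form
  have h1 : ∫⁻ x in Del (k + 1), f x =
      ∫⁻ q : (Fin k → ℝ) × ℝ, (Del (k + 1)).indicator f (Fin.snoc q.1 q.2) := by
    rw [← lintegral_indicator del_compact.measurableSet]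
    have h := (spl_mp (m := k)).symm.lintegral_comp_emb (spl k).symm.measurableEmbedding
      ((Del (k + 1)).indicator f)
    rw [← h]
    refine lintegral_congr fun q => ?_
    rw [hsym]
  have hm : Measurable fun q : (Fin k → ℝ) × ℝ =>
      (Del (k + 1)).indicator f (Fin.snoc q.1 q.2) := by
    have : (fun q : (Fin k → ℝ) × ℝ => (Del (k + 1)).indicator f (Fin.snoc q.1 q.2)) =
        (Del (k + 1)).indicator f ∘ (spl k).symm := by
      ext q
      rw [Function.comp_apply, hsym]
    rw [this]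
    exact (hf.indicator del_compact.measurableSet).comp hsplm
  rw [h1, Measure.volume_eq_prod, lintegral_prod_symm _ hm.aemeasurable]
  rw [← lintegral_indicator measurableSet_Icc]
  apply lintegral_congr_ae
  have h01 : ∀ᵐ s : ℝ, s ≠ 1 := by
    rw [ae_iff]
    simp
  filter_upwards [h01] with s hs1
  by_cases hs : s ∈ Icc (0 : ℝ) 1
  · rw [indicator_of_mem hs]
    have hs' : 0 < 1 - s := by
      have := lt_of_le_of_ne hs.2 hs1
      linarith
    have hdet : ((1 - s) • (1 : Matrix (Fin k) (Fin k) ℝ)).det = (1 - s) ^ k := by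
      rw [Matrix.det_smul, Matrix.det_one, mul_one, Fintype.card_fin]
    have hD : ((1 - s) • (1 : Matrix (Fin k) (Fin k) ℝ)).det ≠ 0 := by
      rw [hdet]; positivity
    have hT : ∀ x : V k, T ((1 - s) • (1 : Matrix (Fin k) (Fin k) ℝ)) 0 x = (1 - s) • x := by
      intro x
      unfold T
      rw [Matrix.smul_mulVec, Matrix.one_mulVec, add_zero]
    have h2 := T_lintegral hD 0 (del_compact (n := k)).measurableSet
      (fun x => f (Fin.snoc x s))
    rw [hdet, abs_of_pos (by positivity), lintegral_const_mul' _ _ ENNReal.ofReal_ne_top] at h2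
    simp only [hT] at h2
    show ∫⁻ x : V k, (Del (k + 1)).indicator f (Fin.snoc x s) = _
    unfold sn
    rw [← h2]
    have hset : (T ((1 - s) • (1 : Matrix (Fin k) (Fin k) ℝ)) 0) '' Del k =
        {x : V k | (Fin.snoc x s : V (k + 1)) ∈ Del (k + 1)} := by
      ext x
      constructor
      · rintro ⟨ν, hν, rfl⟩
        rw [hT]
        refine ⟨fun i => ?_, ?_⟩
        · refine Fin.lastCases ?_ (fun j => ?_) i
          · rw [Fin.snoc_last]; exact hs.1
          · rw [Fin.snoc_castSucc]
            exact mul_nonneg hs'.le (hν.1 j)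
        · rw [Fin.sum_univ_castSucc]
          simp only [Fin.snoc_castSucc, Fin.snoc_last, Pi.smul_apply, smul_eq_mul]
          rw [← Finset.mul_sum]
          nlinarith [hν.2]
      · rintro ⟨h3, h4⟩
        rw [Fin.sum_univ_castSucc] at h4
        simp only [Fin.snoc_castSucc, Fin.snoc_last] at h4
        refine ⟨(1 - s)⁻¹ • x, ⟨fun i => ?_, ?_⟩, ?_⟩
        · have := h3 i.castSucc
          rw [Fin.snoc_castSucc] at this
          exact mul_nonneg (inv_nonneg.2 hs'.le) this
        · simp only [Pi.smul_apply, smul_eq_mul]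
          rw [← Finset.mul_sum, inv_mul_le_iff₀ hs']
          linarith
        · rw [hT, smul_smul, mul_inv_cancel₀ hs'.ne', one_smul]
    have hTi : (T ((1 - s) • (1 : Matrix (Fin k) (Fin k) ℝ)) 0) '' Del k =
        (fun x => (1 - s) • x) '' Del k := image_congr fun x _ => hT x
    rw [hTi] at hset
    have hmset : MeasurableSet {x : V k | (Fin.snoc x s : V (k + 1)) ∈ Del (k + 1)} := by
      rw [← hset]
      exact (del_compact.image (by fun_prop)).measurableSet
    rw [hset, ← lintegral_indicator hmset]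
    rfl
  · rw [indicator_of_notMem hs]
    rw [lintegral_eq_zero_of_ae_eq_zero]
    refine Eventually.of_forall fun x => ?_
    show (Del (k + 1)).indicator f (Fin.snoc x s) = 0
    rw [indicator_of_notMem]
    rintro ⟨h3, h4⟩
    apply hs
    have h5 := h3 (Fin.last k)
    rw [Fin.snoc_last] at h5
    refine ⟨h5, ?_⟩
    rw [Fin.sum_univ_castSucc] at h4
    simp only [Fin.snoc_castSucc, Fin.snoc_last] at h4
    have h6 : 0 ≤ ∑ i, x i := Finset.sum_nonneg fun i _ => by
      have := h3 i.castSucc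
      rwa [Fin.snoc_castSucc] at this
    linarith

end Pool.Agent.H5.SM
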