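import Pool.Agent.H5.SM.D1

/-! Slicing and symmetries for real integrals. -/

set_option autoImplicit false

open MeasureTheory Set Filter
open scoped ENNReal Topology

namespace Pool.Agent.H5.SM

open Pool.Agent.H5.LP (V Del T T_lintegral T_inj T_surj spl spl_apply spl_mp del_compact del_vol_ne_zero
  del_vol_ne_top)

variable {k : ℕ}

/-- the simplex measure -/
noncomputable def sm (k : ℕ) : Measure (V k) := volume.restrict (Del k)

instance : IsFiniteMeasure (sm k) := by
  unfold sm
  exact ⟨by rw [Measure.restrict_apply_univ]; exact lt_top_iff_ne_top.2 del_vol_ne_top⟩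

/-- integral over the simplex in barycentric coordinates -/
noncomputable def Br (k : ℕ) (F : (Fin (k + 1) → ℝ) → ℝ) : ℝ := ∫ x, F (bary x) ∂(sm k)

/-- the standard simplex -/
abbrev St (k : ℕ) : Set (Fin (k + 1) → ℝ) := stdSimplex ℝ (Fin (k + 1))

lemma sn_cont : Continuous (fun q : ℝ × V k => sn q.1 q.2) := by
  unfold sn
  apply continuous_pi
  intro i
  refine Fin.lastCases ?_ (fun j => ?_) i
  · simp only [Fin.snoc_last]
    fun_prop
  · simp only [Fin.snoc_castSucc]
    fun_prop

/-- the measure on the parameter space of the slicing -/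
noncomputable def pm (k : ℕ) : Measure (ℝ × V k) :=
  ((volume.restrict (Icc (0 : ℝ) 1)).prod (sm k)).withDensity
    fun q => ENNReal.ofReal ((1 - q.1) ^ k)

lemma sm_eq_map : sm (k + 1) = (pm k).map (fun q => sn q.1 q.2) := by
  ext E hE
  rw [Measure.map_apply sn_cont.measurable hE]
  have h1 : sm (k + 1) E = ∫⁻ x in Del (k + 1), E.indicator 1 x := by
    rw [lintegral_indicator_one hE]
    rfl
  rw [h1, lintegral_slice (measurable_one.indicator hE)]
  have hE' : MeasurableSet ((fun q : ℝ × V k => sn q.1 q.2) ⁻¹' E) := sn_cont.measurable hE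
  unfold pm
  rw [withDensity_apply _ hE', ← lintegral_indicator hE', lintegral_prod _ (by
    apply Measurable.aemeasurable
    apply Measurable.indicator _ hE'
    fun_prop)]
  refine lintegral_congr fun s => ?_
  rw [← lintegral_const_mul' _ _ ENNReal.ofReal_ne_top]
  refine lintegral_congr fun ν => ?_
  by_cases h : sn s ν ∈ E
  · rw [indicator_of_mem h, indicator_of_mem (show (s, ν) ∈ _ from h)]
    simp
  · rw [indicator_of_notMem h, indicator_of_notMem (show (s, ν) ∉ _ from h)]
    simp

lemma bary_contOn {F : (Fin (k + 1) → ℝ) → ℝ} (hF : ContinuousOn F (St k)) :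
    ContinuousOn (fun x => F (bary x)) (Del k) :=
  hF.comp bary_cont.continuousOn fun _ hx => bary_mem.2 hx

lemma bary_integrable {F : (Fin (k + 1) → ℝ) → ℝ} (hF : ContinuousOn F (St k)) :
    Integrable (fun x => F (bary x)) (sm k) :=
  (bary_contOn hF).integrableOn_compact del_compact

lemma ae_mem : ∀ᵐ x ∂(sm k), x ∈ Del k := ae_restrict_mem del_compact.measurableSet

lemma slice_contOn {F : (Fin (k + 2) → ℝ) → ℝ} (hF : ContinuousOn F (St (k + 1))) :
    ContinuousOn (fun q : ℝ × V k => F (bary (sn q.1 q.2))) (Icc 0 1 ×ˢ Del k) := by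
  apply hF.comp (bary_cont.comp sn_cont).continuousOn
  rintro ⟨s, ν⟩ ⟨hs, hν⟩
  show bary (sn s ν) ∈ _
  rw [bary_sn]
  exact sl_mem hs.1 hs.2 (bary_mem.2 hν)

lemma slice_fun_contOn {F : (Fin (k + 2) → ℝ) → ℝ} (hF : ContinuousOn F (St (k + 1))) {s : ℝ}
    (h0 : 0 ≤ s) (h1 : s ≤ 1) : ContinuousOn (fun ν => F (sl s ν)) (St k) := by
  apply hF.comp
  · exact (sl_cont.comp (continuous_const.prodMk continuous_id)).continuousOn
  · intro ν hν
    exact sl_mem h0 h1 hν

/-- **slicing for real integrals** -/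
theorem Br_slice {F : (Fin (k + 2) → ℝ) → ℝ} (hF : ContinuousOn F (St (k + 1))) :
    Br (k + 1) F = ∫ s in Icc (0 : ℝ) 1, (1 - s) ^ k * Br k (fun ν => F (sl s ν)) := by
  have hcont := slice_contOn hF
  have hc : IsCompact (Icc (0 : ℝ) 1 ×ˢ Del k) := isCompact_Icc.prod del_compact
  have hprod : (volume.restrict (Icc (0 : ℝ) 1)).prod (sm k) =
      (volume : Measure (ℝ × V k)).restrict (Icc (0 : ℝ) 1 ×ˢ Del k) := by
    unfold sm
    rw [Measure.prod_restrict, ← Measure.volume_eq_prod]
  unfold Br
  rw [sm_eq_map, integral_map sn_cont.measurable.aemeasurable]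
  · unfold pm
    rw [integral_withDensity_eq_integral_toReal_smul (by fun_prop) (Eventually.of_forall fun q =>
      ENNReal.ofReal_lt_top)]
    have hint : Integrable (fun q : ℝ × V k => (ENNReal.ofReal ((1 - q.1) ^ k)).toReal •
        F (bary (sn q.1 q.2))) ((volume.restrict (Icc (0 : ℝ) 1)).prod (sm k)) := by
      rw [hprod]
      have hco : ContinuousOn (fun q : ℝ × V k => (ENNReal.ofReal ((1 - q.1) ^ k)).toReal •
          F (bary (sn q.1 q.2))) (Icc 0 1 ×ˢ Del k) := by
        have h1 : Continuous (fun q : ℝ × V k => (ENNReal.ofReal ((1 - q.1) ^ k)).toReal) :=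
          ENNReal.continuousOn_toReal.comp_continuous
            (ENNReal.continuous_ofReal.comp (by fun_prop)) (fun q => by simp)
        exact h1.continuousOn.smul hcont
      exact hco.integrableOn_compact hc
    rw [integral_prod _ hint]
    apply integral_congr_ae
    filter_upwards [ae_restrict_mem measurableSet_Icc] with s hs
    rw [← integral_const_mul]
    refine integral_congr_ae (Eventually.of_forall fun ν => ?_)
    show (ENNReal.ofReal ((1 - s) ^ k)).toReal • F (bary (sn s ν)) = _
    rw [ENNReal.toReal_ofReal (pow_nonneg (by linarith [hs.2]) k), smul_eq_mul, bary_sn]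
  · rw [← sm_eq_map]
    exact (bary_integrable hF).aestronglyMeasurable

lemma exists_bound {F : (Fin (k + 1) → ℝ) → ℝ} (hF : ContinuousOn F (St k)) :
    ∃ M : ℝ, 0 ≤ M ∧ ∀ μ ∈ St k, |F μ| ≤ M := by
  obtain ⟨M, hM⟩ := ((isCompact_stdSimplex ℝ (Fin (k + 1))).image_of_continuousOn hF).isBounded.exists_norm_le
  exact ⟨max M 0, le_max_right _ _, fun μ hμ => (hM _ ⟨μ, hμ, rfl⟩).trans (le_max_left _ _)⟩

/-- the slice integrals depend continuously on the height -/
lemma slice_cont {F : (Fin (k + 2) → ℝ) → ℝ} (hF : ContinuousOn F (St (k + 1))) :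
    ContinuousOn (fun s => Br k (fun ν => F (sl s ν))) (Icc 0 1) := by
  obtain ⟨M, hM0, hM⟩ := exists_bound hF
  unfold Br
  apply continuousOn_of_dominated (bound := fun _ => M)
  · intro s hs
    exact (bary_integrable (slice_fun_contOn hF hs.1 hs.2)).aestronglyMeasurable
  · intro s hs
    filter_upwards [ae_mem] with ν hν
    exact hM _ (sl_mem hs.1 hs.2 (bary_mem.2 hν))
  · exact integrable_const _
  · filter_upwards [ae_mem] with ν hν
    apply hF.comp
    · exact (sl_cont.comp (continuous_id.prodMk continuous_const)).continuousOn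
    · intro s hs
      exact sl_mem hs.1 hs.2 (bary_mem.2 hν)

/-! ### transpositions -/

/-- the affine map exchanging two vertices -/
def pt (i j : Fin (k + 1)) (x : V k) : V k := fun l => bary x (Equiv.swap i j l.succ)

lemma bary_pt (i j : Fin (k + 1)) (x : V k) :
    bary (pt i j x) = fun l => bary x (Equiv.swap i j l) := by
  have h : ∑ l, (fun l => bary x (Equiv.swap i j l)) l = 1 := by
    rw [← bary_sum x]
    exact Equiv.sum_comp (Equiv.swap i j) (bary x)
  exact bary_tail h

lemma pt_pt (i j : Fin (k + 1)) (x : V k) : pt i j (pt i j x) = x := by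
  ext l
  show bary (pt i j x) (Equiv.swap i j l.succ) = x l
  rw [bary_pt]
  show bary x (Equiv.swap i j (Equiv.swap i j l.succ)) = x l
  rw [Equiv.swap_apply_self]
  rfl

lemma pt_mem (i j : Fin (k + 1)) {x : V k} (hx : x ∈ Del k) : pt i j x ∈ Del k := by
  rw [← bary_mem, bary_pt]
  have := bary_mem.2 hx
  refine ⟨fun l => this.1 _, ?_⟩
  rw [← bary_sum x]
  exact Equiv.sum_comp (Equiv.swap i j) (bary x)

lemma pt_image (i j : Fin (k + 1)) : pt i j '' Del k = Del k := by
  apply Subset.antisymm
  · rintro _ ⟨x, hx, rfl⟩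
    exact pt_mem i j hx
  · intro x hx
    exact ⟨pt i j x, pt_mem i j hx, pt_pt i j x⟩

/-- linear part of the barycentric coordinates -/
def bl (k : ℕ) : V k →ₗ[ℝ] (Fin (k + 1) → ℝ) where
  toFun x := Fin.cons (-∑ i, x i) x
  map_add' x y := by
    ext i
    refine Fin.cases ?_ (fun j => ?_) i
    · simp only [Fin.cons_zero, Pi.add_apply, Finset.sum_add_distrib]
      ring
    · simp
  map_smul' c x := by
    ext i
    refine Fin.cases ?_ (fun j => ?_) i
    · simp only [Fin.cons_zero, Pi.smul_apply, smul_eq_mul, ← Finset.mul_sum, RingHom.id_apply]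
      ring
    · simp

lemma bary_eq_bl (x : V k) : bary x = bary 0 + bl k x := by
  ext i
  refine Fin.cases ?_ (fun j => ?_) i
  · show 1 - ∑ i, x i = (1 - ∑ i, (0 : V k) i) + -∑ i, x i
    simp
    ring
  · show x j = 0 + x j
    simp

/-- linear part of the exchange of two vertices -/
def ptl (i j : Fin (k + 1)) : V k →ₗ[ℝ] V k where
  toFun x := fun l => bl k x (Equiv.swap i j l.succ)
  map_add' x y := by
    ext l
    simp
  map_smul' c x := by
    ext l
    simp

lemma pt_eq (i j : Fin (k + 1)) (x : V k) : pt i j x = ptl i j x + pt i j 0 := by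
  ext l
  show bary x (Equiv.swap i j l.succ) = bl k x (Equiv.swap i j l.succ) +
    bary 0 (Equiv.swap i j l.succ)
  rw [bary_eq_bl]
  simp only [Pi.add_apply]
  rw [add_comm]

lemma ptl_ptl (i j : Fin (k + 1)) (x : V k) : ptl i j (ptl i j x) = x := by
  have h0 : ptl i j (pt i j 0) + pt i j 0 = 0 := by
    rw [← pt_eq, pt_pt]
  have h1 := pt_pt i j x
  rw [pt_eq i j (pt i j x), pt_eq i j x, map_add, add_assoc, h0, add_zero] at h1
  exact h1

lemma ptl_det (i j : Fin (k + 1)) : |(LinearMap.toMatrix' (ptl i j)).det| = 1 := by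
  have h : (LinearMap.toMatrix' (ptl i j)) * (LinearMap.toMatrix' (ptl i j)) = 1 := by
    rw [← LinearMap.toMatrix'_comp, ← LinearMap.toMatrix'_id]
    congr 1
    exact LinearMap.ext fun x => ptl_ptl i j x
  have h2 := congrArg Matrix.det h
  rw [Matrix.det_mul, Matrix.det_one] at h2
  rcases mul_self_eq_one_iff.1 h2 with h3 | h3
  · rw [h3, abs_one]
  · rw [h3, abs_neg, abs_one]

lemma pt_T (i j : Fin (k + 1)) : pt i j = T (LinearMap.toMatrix' (ptl i j)) (pt i j 0) := by
  ext1 x
  unfold T
  rw [← Matrix.toLin'_apply, Matrix.toLin'_toMatrix', ← pt_eq]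

lemma pt_cont (i j : Fin (k + 1)) : Continuous (pt i j) := by
  unfold pt
  apply continuous_pi
  intro l
  exact (continuous_apply _).comp bary_cont

lemma pt_lintegral (i j : Fin (k + 1)) {E : Set (V k)} (hE : MeasurableSet E)
    (f : V k → ℝ≥0∞) : ∫⁻ x in pt i j '' E, f x = ∫⁻ x in E, f (pt i j x) := by
  have hD : (LinearMap.toMatrix' (ptl i j)).det ≠ 0 := by
    intro h
    have := ptl_det i j
    rw [h, abs_zero] at this
    exact zero_ne_one this
  have h := T_lintegral hD (pt i j 0) hE f
  rw [← pt_T, ptl_det] at h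
  simpa using h

lemma pt_mp (i j : Fin (k + 1)) : MeasurePreserving (pt i j) (sm k) (sm k) := by
  refine ⟨(pt_cont i j).measurable, ?_⟩
  ext E hE
  rw [Measure.map_apply (pt_cont i j).measurable hE]
  have h1 : sm k E = ∫⁻ x in Del k, E.indicator 1 x := by
    rw [lintegral_indicator_one hE]
    rfl
  have h2 : sm k (pt i j ⁻¹' E) = ∫⁻ x in Del k, (pt i j ⁻¹' E).indicator 1 x := by
    rw [lintegral_indicator_one ((pt_cont i j).measurable hE)]
    rfl
  rw [h1, h2]
  have h3 := pt_lintegral i j (del_compact (n := k)).measurableSet (E.indicator 1)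
  rw [pt_image] at h3
  rw [h3]
  rfl

/-- the homeomorphism exchanging two vertices -/
def ptH (i j : Fin (k + 1)) : V k ≃ₜ V k where
  toFun := pt i j
  invFun := pt i j
  left_inv := pt_pt i j
  right_inv := pt_pt i j
  continuous_toFun := pt_cont i j
  continuous_invFun := pt_cont i j

/-- symmetry of simplex integrals -/
lemma Br_swap (i j : Fin (k + 1)) (F : (Fin (k + 1) → ℝ) → ℝ) :
    Br k (fun μ => F (fun l => μ (Equiv.swap i j l))) = Br k F := by
  unfold Br
  have h := (pt_mp i j).integral_comp (ptH i j).measurableEmbedding (fun x => F (bary x))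
  rw [← h]
  refine integral_congr_ae (Eventually.of_forall fun x => ?_)
  show F (fun l => bary x (Equiv.swap i j l)) = F (bary (pt i j x))
  rw [bary_pt]

end Pool.Agent.H5.SM
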