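import Pool.Agent.H5.SM.D2

/-! A correlation inequality for convex functions on the simplex. -/

set_option autoImplicit false

open MeasureTheory Set Filter
open scoped ENNReal Topology

namespace Pool.Agent.H5.SM

open Pool.Agent.H5.LP (V Del del_compact del_vol_ne_zero del_vol_ne_top)

/-! ### the one-dimensional lemma -/

lemma cmul {α : Type} [TopologicalSpace α] {f g : α → ℝ} {s : Set α} (hf : ContinuousOn f s)
    (hg : ContinuousOn g s) : ContinuousOn (fun x => f x * g x) s := hf.mul hg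

lemma cadd {α : Type} [TopologicalSpace α] {f g : α → ℝ} {s : Set α} (hf : ContinuousOn f s)
    (hg : ContinuousOn g s) : ContinuousOn (fun x => f x + g x) s := hf.add hg

lemma csub {α : Type} [TopologicalSpace α] {f g : α → ℝ} {s : Set α} (hf : ContinuousOn f s)
    (hg : ContinuousOn g s) : ContinuousOn (fun x => f x - g x) s := hf.sub hg

lemma ccst {α : Type} [TopologicalSpace α] {g : α → ℝ} {s : Set α} (c : ℝ)
    (hg : ContinuousOn g s) : ContinuousOn (fun x => c * g x) s := continuousOn_const.mul hg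

lemma iadd {α : Type} [MeasurableSpace α] {μ : Measure α} {f g : α → ℝ} (hf : Integrable f μ)
    (hg : Integrable g μ) : Integrable (fun x => f x + g x) μ := hf.add hg

lemma isub {α : Type} [MeasurableSpace α] {μ : Measure α} {f g : α → ℝ} (hf : Integrable f μ)
    (hg : Integrable g μ) : Integrable (fun x => f x - g x) μ := hf.sub hg

lemma icst {α : Type} [MeasurableSpace α] {μ : Measure α} {g : α → ℝ} (c : ℝ)
    (hg : Integrable g μ) : Integrable (fun x => c * g x) μ := hg.const_mul c

lemma intOn {f : ℝ → ℝ} (hf : ContinuousOn f (Icc 0 1)) : IntegrableOn f (Icc (0 : ℝ) 1) :=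
  hf.integrableOn_compact isCompact_Icc

/-- a convex function with a negative value can be compared with any convex function -/
lemma exists_affine {t h : ℝ → ℝ} (ht : ConvexOn ℝ (Icc 0 1) t) (htc : ContinuousOn t (Icc 0 1))
    (hh : ConvexOn ℝ (Icc 0 1) h) (hhc : ContinuousOn h (Icc 0 1)) :
    ∃ α β : ℝ, ∀ s ∈ Icc (0 : ℝ) 1, 0 ≤ (t s - (α + β * s)) * h s := by
  by_cases hpos : ∀ s ∈ Icc (0 : ℝ) 1, 0 ≤ h s
  · obtain ⟨s₀, hs₀, hmin⟩ := isCompact_Icc.exists_isMinOn (nonempty_Icc.2 zero_le_one) htc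
    refine ⟨t s₀, 0, fun s hs => ?_⟩
    apply mul_nonneg _ (hpos s hs)
    have : t s₀ ≤ t s := hmin hs
    linarith
  · push Not at hpos
    obtain ⟨s₀, hs₀, hneg⟩ := hpos
    -- the sublevel set
    set N : Set ℝ := {s ∈ Icc (0 : ℝ) 1 | h s ≤ 0} with hN
    have hNc : IsCompact N := by
      have : N = Icc 0 1 ∩ h ⁻¹' Iic 0 := by
        ext s; simp [hN]
      rw [this]
      exact isCompact_Icc.of_isClosed_subset
        (hhc.preimage_isClosed_of_isClosed isClosed_Icc isClosed_Iic) inter_subset_left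
    have hNn : N.Nonempty := ⟨s₀, hs₀, hneg.le⟩
    obtain ⟨a, ha, hamin⟩ := hNc.exists_isLeast hNn
    obtain ⟨b, hb, hbmax⟩ := hNc.exists_isGreatest hNn
    have hab : a < b := by
      rcases lt_or_eq_of_le (hamin hb) with h1 | h1
      · exact h1
      · exfalso
        have hs0a : s₀ = a := le_antisymm (h1 ▸ hbmax ⟨hs₀, hneg.le⟩) (hamin ⟨hs₀, hneg.le⟩)
        -- `N = {a}`, so `h > 0` near `a`, contradiction with `h a < 0`
        have hside : ∃ c ∈ Icc (0 : ℝ) 1, c ≠ s₀ := by
          by_cases h0 : s₀ = 0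
          · exact ⟨1, ⟨zero_le_one, le_refl _⟩, by rw [h0]; norm_num⟩
          · exact ⟨0, ⟨le_refl _, zero_le_one⟩, fun h => h0 h.symm⟩
        obtain ⟨c, hc, hcs⟩ := hside
        have hcont : Tendsto (fun δ : ℝ => (1 - δ) * h s₀ + δ * h c) (𝓝[>] 0) (𝓝 (h s₀)) := by
          have h2 : Continuous fun δ : ℝ => (1 - δ) * h s₀ + δ * h c := by fun_prop
          have h3 := h2.tendsto 0
          simp only [sub_zero, one_mul, zero_mul, add_zero] at h3
          exact h3.mono_left nhdsWithin_le_nhds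
        have hev : ∀ᶠ δ in 𝓝[>] (0 : ℝ), (1 - δ) * h s₀ + δ * h c < 0 :=
          hcont.eventually (gt_mem_nhds hneg)
        have hev2 : ∀ᶠ δ in 𝓝[>] (0 : ℝ), δ < 1 :=
          nhdsWithin_le_nhds (gt_mem_nhds one_pos)
        obtain ⟨δ, ⟨hδ1, hδ2⟩, hδ0⟩ := ((hev.and hev2).and self_mem_nhdsWithin).exists
        have hδ0' : (0 : ℝ) < δ := hδ0
        have hcv := hh.2 hs₀ hc (by linarith : (0 : ℝ) ≤ 1 - δ) hδ0'.le (by ring)
        simp only [smul_eq_mul] at hcv
        have hmem : (1 - δ) * s₀ + δ * c ∈ Icc (0 : ℝ) 1 := by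
          have := (convex_Icc (0 : ℝ) 1) hs₀ hc (by linarith : (0 : ℝ) ≤ 1 - δ) hδ0'.le (by ring)
          simpa only [smul_eq_mul] using this
        have hN1 : (1 - δ) * s₀ + δ * c ∈ N := ⟨hmem, by linarith⟩
        have h4 := hamin hN1
        have h5 := hbmax hN1
        have h6 : (1 - δ) * s₀ + δ * c = s₀ := by
          apply le_antisymm
          · linarith
          · linarith
        apply hcs
        have h7 : δ * (c - s₀) = 0 := by linarith
        rcases mul_eq_zero.1 h7 with h8 | h8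
        · exact absurd h8 hδ0'.ne'
        · linarith
    -- the chord
    set β := (t b - t a) / (b - a) with hβ
    have hba : 0 < b - a := by linarith
    have hβ' : β * (b - a) = t b - t a := by rw [hβ]; field_simp
    refine ⟨t a - β * a, β, fun s hs => ?_⟩
    rcases lt_or_ge s a with h1 | h1
    · -- left of `a`
      have hpos : 0 ≤ h s := by
        by_contra hcon
        have := hamin ⟨hs, (not_le.1 hcon).le⟩
        linarith
      apply mul_nonneg _ hpos
      -- convexity at `a` between `s` and `b`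
      have hbs : 0 < b - s := by linarith
      have hw : (b - a) / (b - s) + (a - s) / (b - s) = 1 := by field_simp; ring
      have hcv := ht.2 hs hb.1 (div_nonneg hba.le hbs.le)
        (div_nonneg (by linarith : (0 : ℝ) ≤ a - s) hbs.le) hw
      simp only [smul_eq_mul] at hcv
      have e : (b - a) / (b - s) * s + (a - s) / (b - s) * b = a := by field_simp; ring
      rw [e] at hcv
      have h2 : t a * (b - s) ≤ (b - a) * t s + (a - s) * t b := by
        have h3 := mul_le_mul_of_nonneg_right hcv hbs.le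
        have e2 : ((b - a) / (b - s) * t s + (a - s) / (b - s) * t b) * (b - s) =
            (b - a) * t s + (a - s) * t b := by field_simp
        linarith
      have h4 : 0 ≤ (t s - (t a - β * a + β * s)) * (b - a) := by
        have e3 : (t s - (t a - β * a + β * s)) * (b - a) =
            t s * (b - a) - t a * (b - a) + (β * (b - a)) * (a - s) := by ring
        rw [e3, hβ']
        linarith
      exact nonneg_of_mul_nonneg_left h4 hba
    · rcases lt_or_ge b s with h2 | h2
      · have hpos : 0 ≤ h s := by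
          by_contra hcon
          have := hbmax ⟨hs, (not_le.1 hcon).le⟩
          linarith
        apply mul_nonneg _ hpos
        have hsa : 0 < s - a := by linarith
        have hw : (s - b) / (s - a) + (b - a) / (s - a) = 1 := by field_simp; ring
        have hcv := ht.2 ha.1 hs (div_nonneg (by linarith : (0 : ℝ) ≤ s - b) hsa.le)
          (div_nonneg hba.le hsa.le) hw
        simp only [smul_eq_mul] at hcv
        have e : (s - b) / (s - a) * a + (b - a) / (s - a) * s = b := by field_simp; ring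
        rw [e] at hcv
        have h3 : t b * (s - a) ≤ (s - b) * t a + (b - a) * t s := by
          have h4 := mul_le_mul_of_nonneg_right hcv hsa.le
          have e2 : ((s - b) / (s - a) * t a + (b - a) / (s - a) * t s) * (s - a) =
              (s - b) * t a + (b - a) * t s := by field_simp
          linarith
        have h4 : 0 ≤ (t s - (t a - β * a + β * s)) * (b - a) := by
          have e3 : (t s - (t a - β * a + β * s)) * (b - a) =
              t s * (b - a) - t a * (b - a) - (β * (b - a)) * (s - a) := by ring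
          rw [e3, hβ']
          linarith
        exact nonneg_of_mul_nonneg_left h4 hba
      · -- inside
        have hneg' : h s ≤ 0 := by
          have hw : (b - s) / (b - a) + (s - a) / (b - a) = 1 := by field_simp; ring
          have hcv := hh.2 ha.1 hb.1 (div_nonneg (by linarith : (0 : ℝ) ≤ b - s) hba.le)
            (div_nonneg (by linarith : (0 : ℝ) ≤ s - a) hba.le) hw
          simp only [smul_eq_mul] at hcv
          have e : (b - s) / (b - a) * a + (s - a) / (b - a) * b = s := by field_simp; ring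
          rw [e] at hcv
          refine hcv.trans ?_
          have h5 := mul_nonneg (div_nonneg (by linarith : (0 : ℝ) ≤ b - s) hba.le)
            (neg_nonneg.2 ha.2)
          have h6 := mul_nonneg (div_nonneg (by linarith : (0 : ℝ) ≤ s - a) hba.le)
            (neg_nonneg.2 hb.2)
          linarith
        apply mul_nonneg_of_nonpos_of_nonpos _ hneg'
        have hw : (b - s) / (b - a) + (s - a) / (b - a) = 1 := by field_simp; ring
        have hcv := ht.2 ha.1 hb.1 (div_nonneg (by linarith : (0 : ℝ) ≤ b - s) hba.le)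
          (div_nonneg (by linarith : (0 : ℝ) ≤ s - a) hba.le) hw
        simp only [smul_eq_mul] at hcv
        have e : (b - s) / (b - a) * a + (s - a) / (b - a) * b = s := by field_simp; ring
        rw [e] at hcv
        have e2 : (b - s) / (b - a) * t a + (s - a) / (b - a) * t b = t a - β * a + β * s := by
          have : t b = t a + β * (b - a) := by linarith
          rw [this]
          field_simp
          ring
        linarith

/-- **the one-dimensional correlation lemma** -/
lemma corr_one {W t γ : ℝ → ℝ} {σ : ℝ} (hW : ContinuousOn W (Icc 0 1))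
    (hW0 : ∀ s ∈ Icc (0 : ℝ) 1, 0 ≤ W s) (hWpos : 0 < ∫ s in Icc (0 : ℝ) 1, W s)
    (ht : ConvexOn ℝ (Icc 0 1) t) (htc : ContinuousOn t (Icc 0 1))
    (hγ : ConvexOn ℝ (Icc 0 1) γ) (hγc : ContinuousOn γ (Icc 0 1))
    (h1 : ∫ s in Icc (0 : ℝ) 1, W s * s = σ * ∫ s in Icc (0 : ℝ) 1, W s)
    (h2 : ∫ s in Icc (0 : ℝ) 1, W s * γ s * s = σ * ∫ s in Icc (0 : ℝ) 1, W s * γ s) :
    (∫ s in Icc (0 : ℝ) 1, W s * t s) * (∫ s in Icc (0 : ℝ) 1, W s * γ s) ≤
      (∫ s in Icc (0 : ℝ) 1, W s) * ∫ s in Icc (0 : ℝ) 1, W s * (t s * γ s) := by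
  set w := ∫ s in Icc (0 : ℝ) 1, W s with hw
  set g := ∫ s in Icc (0 : ℝ) 1, W s * γ s with hg
  set c := g / w with hc
  have hcw : c * w = g := by rw [hc]; field_simp
  have hh : ConvexOn ℝ (Icc 0 1) (fun s => γ s - c) := by
    refine ⟨hγ.1, fun x hx y hy a b ha hb hab => ?_⟩
    have := hγ.2 hx hy ha hb hab
    simp only [smul_eq_mul] at this ⊢
    have e : c = a * c + b * c := by rw [← add_mul, hab, one_mul]
    nlinarith [this, e]
  have hhc : ContinuousOn (fun s => γ s - c) (Icc 0 1) := hγc.sub continuousOn_const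
  obtain ⟨α, β, hαβ⟩ := exists_affine ht htc hh hhc
  have hid : ContinuousOn (fun s : ℝ => s) (Icc 0 1) := continuousOn_id
  have hnn : 0 ≤ ∫ s in Icc (0 : ℝ) 1, W s * ((t s - (α + β * s)) * (γ s - c)) := by
    apply setIntegral_nonneg measurableSet_Icc
    intro s hs
    exact mul_nonneg (hW0 s hs) (hαβ s hs)
  have hexp : ∀ s, W s * ((t s - (α + β * s)) * (γ s - c)) =
      (W s * (t s * γ s) - c * (W s * t s)) - (α * (W s * γ s) - (α * c) * W s +
        (β * (W s * γ s * s) - (β * c) * (W s * s))) := by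
    intro s; ring
  have i1 : Integrable (fun s => W s * (t s * γ s)) (volume.restrict (Icc (0 : ℝ) 1)) :=
    intOn (hW.mul (htc.mul hγc))
  have i2 : Integrable (fun s => W s * t s) (volume.restrict (Icc (0 : ℝ) 1)) :=
    intOn (hW.mul htc)
  have i3 : Integrable (fun s => W s * γ s) (volume.restrict (Icc (0 : ℝ) 1)) :=
    intOn (hW.mul hγc)
  have i4 : Integrable (fun s => W s) (volume.restrict (Icc (0 : ℝ) 1)) := intOn hW
  have i5 : Integrable (fun s => W s * γ s * s) (volume.restrict (Icc (0 : ℝ) 1)) :=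
    intOn ((hW.mul hγc).mul hid)
  have i6 : Integrable (fun s => W s * s) (volume.restrict (Icc (0 : ℝ) 1)) :=
    intOn (hW.mul hid)
  have heq : ∫ s in Icc (0 : ℝ) 1, W s * ((t s - (α + β * s)) * (γ s - c)) =
      ((∫ s in Icc (0 : ℝ) 1, W s * (t s * γ s)) - c * ∫ s in Icc (0 : ℝ) 1, W s * t s) -
      (α * g - (α * c) * w + (β * (σ * g) - (β * c) * (σ * w))) := by
    simp_rw [hexp]
    rw [integral_sub (isub i1 (icst c i2)) (iadd (isub (icst α i3) (icst (α * c) i4))
      (isub (icst β i5) (icst (β * c) i6))),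
      integral_sub i1 (icst c i2), integral_add (isub (icst α i3) (icst (α * c) i4))
      (isub (icst β i5) (icst (β * c) i6)), integral_sub (icst α i3)
      (icst (α * c) i4), integral_sub (icst β i5) (icst (β * c) i6),
      integral_const_mul, integral_const_mul, integral_const_mul, integral_const_mul,
      integral_const_mul, h1, h2]
  rw [heq] at hnn
  have e1 : α * g - (α * c) * w + (β * (σ * g) - (β * c) * (σ * w)) = 0 := by
    have : g = c * w := hcw.symm
    rw [this]; ring
  rw [e1, sub_zero] at hnn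
  have h3 : 0 ≤ w * ((∫ s in Icc (0 : ℝ) 1, W s * (t s * γ s)) -
      c * ∫ s in Icc (0 : ℝ) 1, W s * t s) := mul_nonneg hWpos.le hnn
  have e2 : w * ((∫ s in Icc (0 : ℝ) 1, W s * (t s * γ s)) -
      c * ∫ s in Icc (0 : ℝ) 1, W s * t s) = w * (∫ s in Icc (0 : ℝ) 1, W s * (t s * γ s)) -
      (c * w) * ∫ s in Icc (0 : ℝ) 1, W s * t s := by ring
  rw [e2, hcw] at h3
  linarith

/-! ### slices -/

variable {k : ℕ}

lemma sl_affine_s {s s' a b : ℝ} (hab : a + b = 1) (ν : Fin (k + 1) → ℝ) :
    sl (a * s + b * s') ν = a • sl s ν + b • sl s' ν := by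
  ext i
  refine Fin.lastCases ?_ (fun j => ?_) i
  · simp [sl_last]
  · simp only [sl_castSucc, Pi.add_apply, Pi.smul_apply, smul_eq_mul]
    have : b = 1 - a := by linarith
    rw [this]; ring

lemma sl_affine_ν {s a b : ℝ} (hab : a + b = 1) (ν ν' : Fin (k + 1) → ℝ) :
    sl s (a • ν + b • ν') = a • sl s ν + b • sl s ν' := by
  ext i
  refine Fin.lastCases ?_ (fun j => ?_) i
  · simp only [sl_last, Pi.add_apply, Pi.smul_apply, smul_eq_mul]
    rw [← add_mul, hab, one_mul]
  · simp only [sl_castSucc, Pi.add_apply, Pi.smul_apply, smul_eq_mul]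
    ring

lemma convexOn_slice {F : (Fin (k + 2) → ℝ) → ℝ} (hF : ConvexOn ℝ (St (k + 1)) F) {s : ℝ}
    (h0 : 0 ≤ s) (h1 : s ≤ 1) : ConvexOn ℝ (St k) (fun ν => F (sl s ν)) := by
  refine ⟨convex_stdSimplex ℝ _, fun ν hν ν' hν' a b ha hb hab => ?_⟩
  show F (sl s (a • ν + b • ν')) ≤ _
  rw [sl_affine_ν hab]
  exact hF.2 (sl_mem h0 h1 hν) (sl_mem h0 h1 hν') ha hb hab

lemma Br_mono {F H : (Fin (k + 1) → ℝ) → ℝ} (hF : ContinuousOn F (St k))
    (hH : ContinuousOn H (St k)) (h : ∀ μ ∈ St k, F μ ≤ H μ) : Br k F ≤ Br k H := by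
  unfold Br
  apply integral_mono_ae (bary_integrable hF) (bary_integrable hH)
  filter_upwards [ae_mem] with x hx
  exact h _ (bary_mem.2 hx)

lemma Br_congr {F H : (Fin (k + 1) → ℝ) → ℝ} (h : ∀ μ ∈ St k, F μ = H μ) : Br k F = Br k H := by
  unfold Br
  apply integral_congr_ae
  filter_upwards [ae_mem] with x hx
  exact h _ (bary_mem.2 hx)

lemma Br_add {F H : (Fin (k + 1) → ℝ) → ℝ} (hF : ContinuousOn F (St k))
    (hH : ContinuousOn H (St k)) : Br k (fun μ => F μ + H μ) = Br k F + Br k H :=
  integral_add (bary_integrable hF) (bary_integrable hH)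

lemma Br_sub {F H : (Fin (k + 1) → ℝ) → ℝ} (hF : ContinuousOn F (St k))
    (hH : ContinuousOn H (St k)) : Br k (fun μ => F μ - H μ) = Br k F - Br k H :=
  integral_sub (bary_integrable hF) (bary_integrable hH)

lemma Br_mul (c : ℝ) (F : (Fin (k + 1) → ℝ) → ℝ) : Br k (fun μ => c * F μ) = c * Br k F :=
  integral_const_mul _ _

lemma Br_sum {ι : Type} (s : Finset ι) {F : ι → (Fin (k + 1) → ℝ) → ℝ}
    (hF : ∀ i ∈ s, ContinuousOn (F i) (St k)) :
    Br k (fun μ => ∑ i ∈ s, F i μ) = ∑ i ∈ s, Br k (F i) :=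
  integral_finsetSum _ fun i hi => bary_integrable (hF i hi)

/-- total mass -/
lemma Br_one : Br k (fun _ => 1) = (volume (Del k)).toReal := by
  unfold Br sm
  simp [Measure.real]

lemma Br_one_pos : 0 < Br k (fun _ => 1) := by
  rw [Br_one]
  exact ENNReal.toReal_pos del_vol_ne_zero del_vol_ne_top

lemma Br_const (c : ℝ) : Br k (fun _ => c) = c * Br k (fun _ => 1) := by
  rw [← Br_mul]
  simp

lemma convexOn_Br_slice {F : (Fin (k + 2) → ℝ) → ℝ} (hF : ConvexOn ℝ (St (k + 1)) F)
    (hFc : ContinuousOn F (St (k + 1))) :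
    ConvexOn ℝ (Icc 0 1) (fun s => Br k (fun ν => F (sl s ν))) := by
  refine ⟨convex_Icc 0 1, fun s hs s' hs' a b ha hb hab => ?_⟩
  have hm := (convex_Icc (0 : ℝ) 1) hs hs' ha hb hab
  simp only [smul_eq_mul] at hm ⊢
  have c1 := slice_fun_contOn hFc hs.1 hs.2
  have c2 := slice_fun_contOn hFc hs'.1 hs'.2
  have c3 := slice_fun_contOn hFc hm.1 hm.2
  calc Br k (fun ν => F (sl (a * s + b * s') ν))
      ≤ Br k (fun ν => a * F (sl s ν) + b * F (sl s' ν)) := by
        apply Br_mono c3 (cadd (ccst a c1) (ccst b c2))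
        intro ν hν
        rw [sl_affine_s hab]
        exact hF.2 (sl_mem hs.1 hs.2 hν) (sl_mem hs'.1 hs'.2 hν) ha hb hab
    _ = a * Br k (fun ν => F (sl s ν)) + b * Br k (fun ν => F (sl s' ν)) := by
        rw [Br_add (ccst a c1) (ccst b c2), Br_mul, Br_mul]

lemma sl_swap (s : ℝ) (ν : Fin (k + 1) → ℝ) (i j : Fin (k + 1)) :
    sl s (fun l => ν (Equiv.swap i j l)) =
      fun l => sl s ν (Equiv.swap i.castSucc j.castSucc l) := by
  have hinj : Function.Injective (Fin.castSucc : Fin (k + 1) → Fin (k + 2)) :=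
    Fin.castSucc_injective _
  ext l
  refine Fin.lastCases ?_ (fun m => ?_) l
  · rw [sl_last, Equiv.swap_apply_of_ne_of_ne (Fin.castSucc_lt_last i).ne'
      (Fin.castSucc_lt_last j).ne', sl_last]
  · rw [sl_castSucc, Equiv.swap_apply_def, Equiv.swap_apply_def]
    simp only [Fin.castSucc_inj]
    split_ifs
    · rw [sl_castSucc]
    · rw [sl_castSucc]
    · rw [sl_castSucc]

/-- symmetry under all transpositions -/
def Sym (k : ℕ) (G : (Fin (k + 1) → ℝ) → ℝ) : Prop :=
  ∀ i j, ∀ μ ∈ St k, G (fun l => μ (Equiv.swap i j l)) = G μ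

lemma Sym.slice {G : (Fin (k + 2) → ℝ) → ℝ} (hG : Sym (k + 1) G) {s : ℝ} (h0 : 0 ≤ s)
    (h1 : s ≤ 1) : Sym k (fun ν => G (sl s ν)) := by
  intro i j ν hν
  show G (sl s (fun l => ν (Equiv.swap i j l))) = G (sl s ν)
  rw [sl_swap]
  exact hG _ _ _ (sl_mem h0 h1 hν)

lemma coord_cont (i : Fin (k + 1)) : ContinuousOn (fun μ : Fin (k + 1) → ℝ => μ i) (St k) :=
  (continuous_apply i).continuousOn

/-- first moments of symmetric functions -/
lemma Sym.moment {G : (Fin (k + 1) → ℝ) → ℝ} (hG : Sym k G) (hGc : ContinuousOn G (St k))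
    (i : Fin (k + 1)) : Br k (fun μ => G μ * μ i) = 1 / ((k : ℝ) + 1) * Br k G := by
  have h1 : ∀ j, Br k (fun μ => G μ * μ j) = Br k (fun μ => G μ * μ i) := by
    intro j
    rw [← Br_swap i j]
    apply Br_congr
    intro μ hμ
    show G (fun l => μ (Equiv.swap i j l)) * μ (Equiv.swap i j j) = _
    rw [hG i j μ hμ, Equiv.swap_apply_right]
  have h2 : Br k G = ∑ j, Br k (fun μ => G μ * μ j) := by
    rw [← Br_sum Finset.univ fun j _ => cmul hGc (coord_cont j)]
    apply Br_congr
    intro μ hμ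
    rw [← Finset.mul_sum, hμ.2, mul_one]
  simp only [h1, Finset.sum_const, Finset.card_univ, Fintype.card_fin, nsmul_eq_mul] at h2
  rw [h2]
  push_cast
  field_simp

/-- **correlation inequality on the simplex** -/
theorem cov (k : ℕ) : ∀ {T G : (Fin (k + 1) → ℝ) → ℝ}, ConvexOn ℝ (St k) T →
    ContinuousOn T (St k) → ConvexOn ℝ (St k) G → ContinuousOn G (St k) → Sym k G →
    Br k T * Br k G ≤ Br k (fun _ => 1) * Br k (fun μ => T μ * G μ) := by
  induction k with
  | zero =>
    intro T G _ _ _ _ _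
    have h : ∀ F : (Fin 1 → ℝ) → ℝ, Br 0 F = F (bary 0) * Br 0 (fun _ => 1) := by
      intro F
      rw [← Br_const]
      unfold Br
      refine integral_congr_ae (Eventually.of_forall fun x => ?_)
      show F (bary x) = F (bary 0)
      rw [Subsingleton.elim x 0]
    rw [h T, h G, h (fun μ => T μ * G μ)]
    apply le_of_eq
    ring
  | succ k ih =>
    intro T G hT hTc hG hGc hs
    set b := Br k (fun _ => 1) with hb
    have hbpos : 0 < b := Br_one_pos
    set W : ℝ → ℝ := fun s => (1 - s) ^ k with hW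
    have hWc : ContinuousOn W (Icc 0 1) := by
      rw [hW]
      fun_prop
    have hW0 : ∀ s ∈ Icc (0 : ℝ) 1, 0 ≤ W s := fun s hs => pow_nonneg (by linarith [hs.2]) k
    set t : ℝ → ℝ := fun s => Br k (fun ν => T (sl s ν)) with ht
    set γ : ℝ → ℝ := fun s => Br k (fun ν => G (sl s ν)) with hγ
    have e1 : Br (k + 1) T = ∫ s in Icc (0 : ℝ) 1, W s * t s := Br_slice hTc
    have e2 : Br (k + 1) G = ∫ s in Icc (0 : ℝ) 1, W s * γ s := Br_slice hGc
    have e3 : Br (k + 1) (fun _ => 1) = b * ∫ s in Icc (0 : ℝ) 1, W s := by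
      rw [Br_slice continuousOn_const, ← integral_const_mul]
      refine integral_congr_ae (Eventually.of_forall fun s => ?_)
      show (1 - s) ^ k * b = b * W s
      rw [hW]; ring
    have hWpos : 0 < ∫ s in Icc (0 : ℝ) 1, W s := by
      have : 0 < Br (k + 1) (fun _ => 1) := Br_one_pos
      rw [e3] at this
      exact (pos_iff_pos_of_mul_pos this).1 hbpos
    have e4 : Br (k + 1) (fun μ => T μ * G μ) = ∫ s in Icc (0 : ℝ) 1, W s *
        Br k (fun ν => T (sl s ν) * G (sl s ν)) := Br_slice (cmul hTc hGc)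
    -- moments
    have m1 : ∫ s in Icc (0 : ℝ) 1, W s * γ s * s = 1 / ((k : ℝ) + 2) *
        ∫ s in Icc (0 : ℝ) 1, W s * γ s := by
      have h := hs.moment hGc (Fin.last (k + 1))
      rw [Br_slice (cmul hGc (coord_cont _)), e2] at h
      have h3 : ((k + 1 : ℕ) : ℝ) + 1 = (k : ℝ) + 2 := by push_cast; ring
      rw [h3] at h
      rw [← h]
      refine integral_congr_ae (Eventually.of_forall fun s => ?_)
      show W s * γ s * s = (1 - s) ^ k * Br k (fun ν => G (sl s ν) * sl s ν (Fin.last (k + 1)))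
      simp only [sl_last]
      have : Br k (fun ν => G (sl s ν) * s) = s * γ s := by
        rw [hγ, ← Br_mul]
        refine Br_congr fun μ _ => ?_
        ring
      rw [this, hW]
      ring
    have m2 : ∫ s in Icc (0 : ℝ) 1, W s * s = 1 / ((k : ℝ) + 2) *
        ∫ s in Icc (0 : ℝ) 1, W s := by
      have hs1 : Sym (k + 1) (fun _ => (1 : ℝ)) := fun _ _ _ _ => rfl
      have h := hs1.moment continuousOn_const (Fin.last (k + 1))
      rw [Br_slice (ccst 1 (coord_cont _)), e3] at h
      have h3 : ((k + 1 : ℕ) : ℝ) + 1 = (k : ℝ) + 2 := by push_cast; ring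
      rw [h3] at h
      have h4 : ∫ s in Icc (0 : ℝ) 1, (1 - s) ^ k *
          Br k (fun ν => 1 * sl s ν (Fin.last (k + 1))) = b * ∫ s in Icc (0 : ℝ) 1, W s * s := by
        rw [← integral_const_mul]
        refine integral_congr_ae (Eventually.of_forall fun s => ?_)
        show (1 - s) ^ k * Br k (fun ν => 1 * sl s ν (Fin.last (k + 1))) = b * (W s * s)
        simp only [sl_last, one_mul]
        rw [Br_const, hW]
        ring
      rw [h4] at h
      have h5 : b * (∫ s in Icc (0 : ℝ) 1, W s * s) = b * (1 / ((k : ℝ) + 2) *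
          ∫ s in Icc (0 : ℝ) 1, W s) := by rw [h]; ring
      exact mul_left_cancel₀ hbpos.ne' h5
    have key := corr_one hWc hW0 hWpos (convexOn_Br_slice hT hTc) (slice_cont hTc)
      (convexOn_Br_slice hG hGc) (slice_cont hGc) m2 m1
    have htc := slice_cont hTc
    have hγc := slice_cont hGc
    have htgc := slice_cont (cmul hTc hGc)
    have h6 : ∫ s in Icc (0 : ℝ) 1, W s * (t s * γ s) ≤ b * ∫ s in Icc (0 : ℝ) 1, W s *
        Br k (fun ν => T (sl s ν) * G (sl s ν)) := by
      rw [← integral_const_mul]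
      apply setIntegral_mono_on (intOn (cmul hWc (cmul htc hγc)))
        (intOn (ccst b (cmul hWc htgc))) measurableSet_Icc
      intro s hs'
      have h7 := ih (convexOn_slice hT hs'.1 hs'.2) (slice_fun_contOn hTc hs'.1 hs'.2)
        (convexOn_slice hG hs'.1 hs'.2) (slice_fun_contOn hGc hs'.1 hs'.2)
        (hs.slice hs'.1 hs'.2)
      calc W s * (t s * γ s) ≤ W s * (b * Br k (fun ν => T (sl s ν) * G (sl s ν))) :=
            mul_le_mul_of_nonneg_left h7 (hW0 s hs')
        _ = b * (W s * Br k (fun ν => T (sl s ν) * G (sl s ν))) := by ring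
    rw [e1, e2, e3, e4]
    calc (∫ s in Icc (0 : ℝ) 1, W s * t s) * (∫ s in Icc (0 : ℝ) 1, W s * γ s)
        ≤ (∫ s in Icc (0 : ℝ) 1, W s) * ∫ s in Icc (0 : ℝ) 1, W s * (t s * γ s) := key
      _ ≤ (∫ s in Icc (0 : ℝ) 1, W s) * (b * ∫ s in Icc (0 : ℝ) 1, W s *
        Br k (fun ν => T (sl s ν) * G (sl s ν))) := mul_le_mul_of_nonneg_left h6 hWpos.le
      _ = b * (∫ s in Icc (0 : ℝ) 1, W s) * ∫ s in Icc (0 : ℝ) 1, W s *
        Br k (fun ν => T (sl s ν) * G (sl s ν)) := by ring

end Pool.Agent.H5.SM
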