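import Pool.Agent.H5.SM.D3

/-! Decomposition of the simplex into cones over its facets with apex at the centroid. -/

set_option autoImplicit false

open MeasureTheory Set Filter
open scoped ENNReal Topology

namespace Pool.Agent.H5.SM

open Pool.Agent.H5.LP (V Del T T_lintegral T_volume T_inj T_surj del_compact del_vol_ne_zero
  del_vol_ne_top)

variable {k : ℕ}

/-- the matrix of the map onto the cone over the last facet -/
noncomputable def cA (k : ℕ) : Matrix (Fin (k + 1)) (Fin (k + 1)) ℝ := fun i j =>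
  if i = j then (if i = Fin.last k then 1 / ((k : ℝ) + 2) else 1)
  else if j = Fin.last k then 1 / ((k : ℝ) + 2) else 0

lemma cA_det : (cA k).det = 1 / ((k : ℝ) + 2) := by
  rw [Matrix.det_of_isUpperTriangular]
  · rw [Fin.prod_univ_castSucc]
    have h1 : ∀ i : Fin k, cA k i.castSucc i.castSucc = 1 := by
      intro i
      unfold cA
      rw [if_pos rfl, if_neg (Fin.castSucc_lt_last i).ne]
    simp only [h1, Finset.prod_const_one, one_mul]
    unfold cA
    rw [if_pos rfl, if_pos rfl]
  · intro i j hij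
    have hij' : j < i := hij
    unfold cA
    rw [if_neg hij'.ne', if_neg]
    intro h
    rw [h] at hij'
    exact absurd hij' (not_lt.2 (Fin.le_last i))

lemma cA_last (x : V (k + 1)) : (cA k).mulVec x (Fin.last k) = x (Fin.last k) / ((k : ℝ) + 2) := by
  unfold Matrix.mulVec dotProduct
  rw [Fin.sum_univ_castSucc]
  have h1 : ∀ i : Fin k, cA k (Fin.last k) i.castSucc * x i.castSucc = 0 := by
    intro i
    unfold cA
    rw [if_neg (Fin.castSucc_lt_last i).ne', if_neg (Fin.castSucc_lt_last i).ne, zero_mul]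
  simp only [h1, Finset.sum_const_zero, zero_add]
  unfold cA
  rw [if_pos rfl, if_pos rfl]
  ring

lemma cA_castSucc (x : V (k + 1)) (l : Fin k) : (cA k).mulVec x l.castSucc =
    x l.castSucc + x (Fin.last k) / ((k : ℝ) + 2) := by
  unfold Matrix.mulVec dotProduct
  rw [Fin.sum_univ_castSucc]
  have h1 : ∀ i : Fin k, cA k l.castSucc i.castSucc * x i.castSucc =
      if l = i then x i.castSucc else 0 := by
    intro i
    unfold cA
    by_cases h : l = i
    · subst h
      rw [if_pos rfl, if_neg (Fin.castSucc_lt_last l).ne, if_pos rfl, one_mul]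
    · rw [if_neg (fun hc => h (Fin.castSucc_injective _ hc)),
        if_neg (Fin.castSucc_lt_last i).ne, if_neg h, zero_mul]
  simp only [h1]
  rw [Finset.sum_ite_eq Finset.univ l, if_pos (Finset.mem_univ l)]
  unfold cA
  rw [if_neg (Fin.castSucc_lt_last l).ne, if_pos rfl]
  ring

/-- the part of the simplex where the `i`-th barycentric coordinate is smallest -/
def Cone (k : ℕ) (i : Fin (k + 1)) : Set (V k) := {x ∈ Del k | ∀ j, bary x i ≤ bary x j}

lemma bary_apply_cont (i : Fin (k + 1)) : Continuous fun x : V k => bary x i :=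
  (continuous_apply i).comp bary_cont

lemma cone_closed (i : Fin (k + 1)) : IsClosed (Cone k i) := by
  have : Cone k i = Del k ∩ ⋂ j, {x | bary x i ≤ bary x j} := by
    ext x
    simp [Cone]
  rw [this]
  exact del_compact.isClosed.inter (isClosed_iInter fun j =>
    isClosed_le (bary_apply_cont i) (bary_apply_cont j))

lemma cone_meas (i : Fin (k + 1)) : MeasurableSet (Cone k i) := (cone_closed i).measurableSet

lemma bary_cA (x : V (k + 1)) (j : Fin (k + 1)) : bary (T (cA k) 0 x) j.castSucc =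
    bary x j.castSucc + bary x (Fin.last (k + 1)) / ((k : ℝ) + 2) := by
  have hlast : bary x (Fin.last (k + 1)) = x (Fin.last k) := rfl
  rw [hlast]
  refine Fin.cases ?_ (fun l => ?_) j
  · have e0 : ((0 : Fin (k + 1)).castSucc : Fin (k + 2)) = 0 := rfl
    rw [e0, bary_zero, bary_zero]
    unfold T
    simp only [add_zero]
    rw [Fin.sum_univ_castSucc, Fin.sum_univ_castSucc]
    simp only [cA_castSucc, cA_last]
    rw [Finset.sum_add_distrib, Finset.sum_const, Finset.card_univ, Fintype.card_fin,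
      nsmul_eq_mul]
    field_simp
    ring
  · have e0 : (l.succ.castSucc : Fin (k + 2)) = l.castSucc.succ := rfl
    rw [e0, bary_succ, bary_succ]
    unfold T
    rw [add_zero, cA_castSucc]

lemma bary_cA_last (x : V (k + 1)) : bary (T (cA k) 0 x) (Fin.last (k + 1)) =
    bary x (Fin.last (k + 1)) / ((k : ℝ) + 2) := by
  show (T (cA k) 0 x) (Fin.last k) = x (Fin.last k) / ((k : ℝ) + 2)
  unfold T
  rw [add_zero, cA_last]

lemma cone_last_image : T (cA k) 0 '' Del (k + 1) = Cone (k + 1) (Fin.last (k + 1)) := by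
  have hk : (0 : ℝ) < (k : ℝ) + 2 := by positivity
  have hD : (cA k).det ≠ 0 := by rw [cA_det]; positivity
  apply Subset.antisymm
  · rintro _ ⟨x, hx, rfl⟩
    have hx' := bary_mem.2 hx
    have hle : ∀ j, bary (T (cA k) 0 x) (Fin.last (k + 1)) ≤ bary (T (cA k) 0 x) j := by
      intro j
      rw [bary_cA_last]
      refine Fin.lastCases ?_ (fun l => ?_) j
      · rw [bary_cA_last]
      · rw [bary_cA]
        linarith [hx'.1 l.castSucc]
    refine ⟨?_, hle⟩
    rw [← bary_mem]
    refine ⟨fun j => ?_, bary_sum _⟩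
    refine le_trans ?_ (hle j)
    rw [bary_cA_last]
    exact div_nonneg (hx'.1 _) hk.le
  · intro z hz
    obtain ⟨x, rfl⟩ := T_surj hD 0 z
    refine ⟨x, ?_, rfl⟩
    rw [← bary_mem]
    refine ⟨fun j => ?_, bary_sum _⟩
    refine Fin.lastCases ?_ (fun l => ?_) j
    · have h1 := (bary_mem.2 hz.1).1 (Fin.last (k + 1))
      rw [bary_cA_last] at h1
      by_contra hcon
      have := div_neg_of_neg_of_pos (not_le.1 hcon) hk
      linarith
    · have h1 := hz.2 l.castSucc
      rw [bary_cA_last, bary_cA] at h1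
      linarith

/-- inclusion of the last facet -/
def ins (μ : Fin (k + 1) → ℝ) : Fin (k + 2) → ℝ := Fin.snoc μ 0

lemma ins_last (μ : Fin (k + 1) → ℝ) : ins μ (Fin.last (k + 1)) = 0 := by
  unfold ins; simp

lemma ins_castSucc (μ : Fin (k + 1) → ℝ) (i : Fin (k + 1)) : ins μ i.castSucc = μ i := by
  unfold ins; simp

lemma ins_cont : Continuous (ins : (Fin (k + 1) → ℝ) → _) := by
  apply continuous_pi
  intro i
  refine Fin.lastCases ?_ (fun j => ?_) i
  · simp only [ins_last]
    fun_prop
  · simp only [ins_castSucc]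
    fun_prop

lemma ins_mem {μ : Fin (k + 1) → ℝ} (h : μ ∈ St k) : ins μ ∈ St (k + 1) := by
  refine ⟨fun i => ?_, ?_⟩
  · refine Fin.lastCases ?_ (fun j => ?_) i
    · rw [ins_last]
    · rw [ins_castSucc]; exact h.1 j
  · rw [Fin.sum_univ_castSucc, ins_last]
    simp only [ins_castSucc]
    rw [h.2, add_zero]

/-- the centroid in barycentric coordinates -/
noncomputable def cen (k : ℕ) : Fin (k + 1) → ℝ := fun _ => 1 / ((k : ℝ) + 1)

lemma cen_mem : cen k ∈ St k := by
  refine ⟨fun i => by unfold cen; positivity, ?_⟩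
  unfold cen
  rw [Finset.sum_const, Finset.card_univ, Fintype.card_fin, nsmul_eq_mul]
  push_cast
  field_simp

/-- the point at distance `r` from the centroid over the point `μ` of the facet `i`, in
barycentric coordinates -/
noncomputable def cb (i : Fin (k + 2)) (r : ℝ) (μ : Fin (k + 1) → ℝ) : Fin (k + 2) → ℝ :=
  fun l => (1 - r) * cen (k + 1) l + r * ins μ (Equiv.swap i (Fin.last (k + 1)) l)

lemma cb_mem (i : Fin (k + 2)) {r : ℝ} (h0 : 0 ≤ r) (h1 : r ≤ 1) {μ : Fin (k + 1) → ℝ}
    (h : μ ∈ St k) : cb i r μ ∈ St (k + 1) := by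
  have h2 := ins_mem h
  refine ⟨fun l => ?_, ?_⟩
  · unfold cb
    have := (cen_mem (k := k + 1)).1 l
    have := h2.1 (Equiv.swap i (Fin.last (k + 1)) l)
    have : 0 ≤ 1 - r := by linarith
    positivity
  · unfold cb
    rw [Finset.sum_add_distrib, ← Finset.mul_sum, ← Finset.mul_sum,
      Equiv.sum_comp (Equiv.swap i (Fin.last (k + 1))) (ins μ), h2.2, (cen_mem (k := k + 1)).2]
    ring

lemma cb_cont (i : Fin (k + 2)) :
    Continuous (fun q : ℝ × (Fin (k + 1) → ℝ) => cb i q.1 q.2) := by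
  apply continuous_pi
  intro l
  unfold cb
  have h1 : Continuous (fun q : ℝ × (Fin (k + 1) → ℝ) =>
      ins q.2 (Equiv.swap i (Fin.last (k + 1)) l)) :=
    (continuous_apply _).comp (ins_cont.comp continuous_snd)
  fun_prop

/-- the same point in affine coordinates -/
noncomputable def cn (i : Fin (k + 2)) (r : ℝ) (ν : V k) : V (k + 1) :=
  fun l => cb i r (bary ν) l.succ

lemma bary_cn_aux (i : Fin (k + 2)) (r : ℝ) (ν : V k) : ∑ l, cb i r (bary ν) l = 1 := by
  unfold cb
  rw [Finset.sum_add_distrib, ← Finset.mul_sum, ← Finset.mul_sum,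
    Equiv.sum_comp (Equiv.swap i (Fin.last (k + 1))) (ins (bary ν)), (cen_mem (k := k + 1)).2,
    Fin.sum_univ_castSucc, ins_last]
  simp only [ins_castSucc]
  rw [bary_sum]
  ring

lemma bary_cn (i : Fin (k + 2)) (r : ℝ) (ν : V k) : bary (cn i r ν) = cb i r (bary ν) :=
  bary_tail (bary_cn_aux i r ν)

lemma bary_inj {x y : V k} (h : bary x = bary y) : x = y := by
  ext l
  exact congrFun h l.succ

lemma cn_mem (i : Fin (k + 2)) {r : ℝ} (h0 : 0 ≤ r) (h1 : r ≤ 1) {ν : V k}
    (h : ν ∈ Del k) : cn i r ν ∈ Del (k + 1) := by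
  rw [← bary_mem, bary_cn]
  exact cb_mem i h0 h1 (bary_mem.2 h)

lemma cn_cont (i : Fin (k + 2)) : Continuous (fun q : ℝ × V k => cn i q.1 q.2) := by
  apply continuous_pi
  intro l
  exact (continuous_apply _).comp ((cb_cont i).comp
    (continuous_fst.prodMk (bary_cont.comp continuous_snd)))

lemma T_sn (r : ℝ) (ν : V k) : T (cA k) 0 (sn (1 - r) ν) = cn (Fin.last (k + 1)) r ν := by
  apply bary_inj
  rw [bary_cn]
  ext l
  unfold cb
  rw [Equiv.swap_self, Equiv.refl_apply]
  have hk : (0 : ℝ) < (k : ℝ) + 2 := by positivity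
  have hc : cen (k + 1) l = 1 / ((k : ℝ) + 2) := by
    unfold cen
    push_cast
    ring
  rw [hc]
  refine Fin.lastCases ?_ (fun j => ?_) l
  · rw [bary_cA_last, bary_sn, sl_last, ins_last]
    ring
  · rw [bary_cA, bary_sn, sl_last, sl_castSucc, ins_castSucc]
    ring

/-- integration over the cone over the last facet -/
lemma lintegral_cone_last {f : V (k + 1) → ℝ≥0∞} (hf : Measurable f) :
    ∫⁻ x in Cone (k + 1) (Fin.last (k + 1)), f x = ENNReal.ofReal (1 / ((k : ℝ) + 2)) *
      ∫⁻ r in Icc (0 : ℝ) 1, ENNReal.ofReal (r ^ k) *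
        ∫⁻ ν in Del k, f (cn (Fin.last (k + 1)) r ν) := by
  have hD : (cA k).det ≠ 0 := by rw [cA_det]; positivity
  have hTm : Measurable (T (cA k) (0 : V (k + 1))) := by
    unfold T
    apply Measurable.add_const
    have : (cA k).mulVec = ⇑(Matrix.toLin' (cA k)) := by
      ext1 x
      rw [Matrix.toLin'_apply]
    rw [this]
    exact (LinearMap.continuous_of_finiteDimensional _).measurable
  rw [← cone_last_image, T_lintegral hD 0 del_compact.measurableSet, cA_det,
    lintegral_const_mul' _ _ ENNReal.ofReal_ne_top, abs_of_pos (by positivity)]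
  have hsl := lintegral_slice (hf.comp hTm)
  simp only [Function.comp_apply] at hsl
  rw [hsl]
  congr 1
  -- substitution `s = 1 - r`
  have hmp : MeasurePreserving (fun s : ℝ => 1 - s) volume volume :=
    Measure.measurePreserving_sub_left volume (1 : ℝ)
  have hemb : MeasurableEmbedding (fun s : ℝ => 1 - s) :=
    (Homeomorph.subLeft (1 : ℝ)).measurableEmbedding
  have hpre : (fun s : ℝ => 1 - s) ⁻¹' Icc 0 1 = Icc 0 1 := by
    ext s
    simp only [mem_preimage, mem_Icc]
    constructor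
    · rintro ⟨h1, h2⟩; constructor <;> linarith
    · rintro ⟨h1, h2⟩; constructor <;> linarith
  have h := hmp.setLIntegral_comp_preimage_emb hemb (fun s => ENNReal.ofReal ((1 - s) ^ k) *
    ∫⁻ ν in Del k, f (T (cA k) 0 (sn s ν))) (Icc 0 1)
  rw [hpre] at h
  rw [← h]
  refine lintegral_congr fun r => ?_
  simp only [sub_sub_cancel]
  congr 1
  refine lintegral_congr fun ν => ?_
  rw [T_sn]

lemma cone_image (i j : Fin (k + 1)) : pt i j '' Cone k j = Cone k i := by
  have h1 : ∀ i j : Fin (k + 1), pt i j '' Cone k j ⊆ Cone k i := by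
    rintro i j _ ⟨x, hx, rfl⟩
    refine ⟨pt_mem i j hx.1, fun l => ?_⟩
    rw [bary_pt]
    show bary x (Equiv.swap i j i) ≤ bary x (Equiv.swap i j l)
    rw [Equiv.swap_apply_left]
    exact hx.2 _
  apply Subset.antisymm (h1 i j)
  intro x hx
  refine ⟨pt i j x, ?_, pt_pt i j x⟩
  have h2 := h1 j i ⟨x, hx, rfl⟩
  have h3 : pt j i x = pt i j x := by
    unfold pt
    rw [Equiv.swap_comm]
  rwa [h3] at h2

lemma pt_cn (i : Fin (k + 2)) (r : ℝ) (ν : V k) :
    pt i (Fin.last (k + 1)) (cn (Fin.last (k + 1)) r ν) = cn i r ν := by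
  apply bary_inj
  rw [bary_pt, bary_cn, bary_cn]
  ext l
  show cb (Fin.last (k + 1)) r (bary ν) (Equiv.swap i (Fin.last (k + 1)) l) = cb i r (bary ν) l
  unfold cb
  rw [Equiv.swap_self, Equiv.refl_apply]
  rfl

lemma lintegral_cone (i : Fin (k + 2)) {f : V (k + 1) → ℝ≥0∞} (hf : Measurable f) :
    ∫⁻ x in Cone (k + 1) i, f x = ENNReal.ofReal (1 / ((k : ℝ) + 2)) *
      ∫⁻ r in Icc (0 : ℝ) 1, ENNReal.ofReal (r ^ k) * ∫⁻ ν in Del k, f (cn i r ν) := by
  have h := lintegral_cone_last (hf.comp (pt_cont i (Fin.last (k + 1))).measurable)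
  simp only [Function.comp_apply, pt_cn] at h
  rw [← cone_image i (Fin.last (k + 1)), pt_lintegral i _ (cone_meas _), h]

lemma cone_volume (i : Fin (k + 2)) : volume (Cone (k + 1) i) =
    ENNReal.ofReal (1 / ((k : ℝ) + 2)) * volume (Del (k + 1)) := by
  have hD : (cA k).det ≠ 0 := by rw [cA_det]; positivity
  have h1 : volume (Cone (k + 1) i) = volume (Cone (k + 1) (Fin.last (k + 1))) := by
    have h := pt_lintegral i (Fin.last (k + 1)) (cone_meas (Fin.last (k + 1))) (fun _ => 1)
    rw [cone_image] at h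
    simpa using h
  rw [h1, ← cone_last_image, T_volume hD _ del_compact.measurableSet, cA_det,
    abs_of_pos (by positivity)]

lemma cone_cover {x : V k} (hx : x ∈ Del k) : ∃ i, x ∈ Cone k i := by
  obtain ⟨i, _, hi⟩ := Finset.exists_min_image Finset.univ (bary x) ⟨0, Finset.mem_univ _⟩
  exact ⟨i, hx, fun j => hi j (Finset.mem_univ j)⟩

lemma cone_partition : ∀ᵐ x ∂(sm (k + 1)),
    ∑ i : Fin (k + 2), (Cone (k + 1) i).indicator (1 : V (k + 1) → ℝ≥0∞) x = 1 := by
  have hk : (0 : ℝ) < (k : ℝ) + 2 := by positivity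
  have hle : (fun _ : V (k + 1) => (1 : ℝ≥0∞)) ≤ᵐ[sm (k + 1)] fun x =>
      ∑ i : Fin (k + 2), (Cone (k + 1) i).indicator (1 : V (k + 1) → ℝ≥0∞) x := by
    filter_upwards [ae_mem] with x hx
    obtain ⟨i, hi⟩ := cone_cover hx
    calc (1 : ℝ≥0∞) = (Cone (k + 1) i).indicator (1 : V (k + 1) → ℝ≥0∞) x := by
          rw [indicator_of_mem hi]; rfl
      _ ≤ _ := Finset.single_le_sum (f := fun i =>
          (Cone (k + 1) i).indicator (1 : V (k + 1) → ℝ≥0∞) x) (fun _ _ => zero_le)
          (Finset.mem_univ i)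
  have hm : Measurable fun x : V (k + 1) =>
      ∑ i : Fin (k + 2), (Cone (k + 1) i).indicator (1 : V (k + 1) → ℝ≥0∞) x :=
    Finset.measurable_fun_sum _ fun i _ => measurable_one.indicator (cone_meas i)
  have hint : ∫⁻ x, ∑ i : Fin (k + 2), (Cone (k + 1) i).indicator (1 : V (k + 1) → ℝ≥0∞) x
      ∂(sm (k + 1)) ≤ ∫⁻ _, (1 : ℝ≥0∞) ∂(sm (k + 1)) := by
    rw [lintegral_finsetSum _ fun i _ => measurable_one.indicator (cone_meas i)]
    have h1 : ∀ i : Fin (k + 2), ∫⁻ x, (Cone (k + 1) i).indicator (1 : V (k + 1) → ℝ≥0∞) x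
        ∂(sm (k + 1)) = ENNReal.ofReal (1 / ((k : ℝ) + 2)) * volume (Del (k + 1)) := by
      intro i
      rw [lintegral_indicator_one (cone_meas i), ← cone_volume i]
      unfold sm
      rw [Measure.restrict_apply (cone_meas i), inter_eq_left.2 (fun x hx => hx.1)]
    simp only [h1]
    rw [Finset.sum_const, Finset.card_univ, Fintype.card_fin, nsmul_eq_mul, ← mul_assoc]
    have h2 : ((k + 2 : ℕ) : ℝ≥0∞) * ENNReal.ofReal (1 / ((k : ℝ) + 2)) = 1 := by
      rw [← ENNReal.ofReal_natCast, ← ENNReal.ofReal_mul (by positivity)]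
      push_cast
      rw [mul_one_div_cancel hk.ne', ENNReal.ofReal_one]
    rw [h2, one_mul]
    simp [sm]
  have hfin : ∫⁻ _, (1 : ℝ≥0∞) ∂(sm (k + 1)) ≠ ∞ := by
    simp
  have := ae_eq_of_ae_le_of_lintegral_le hle hfin hm.aemeasurable hint
  filter_upwards [this] with x hx
  exact hx.symm

/-- **centroid decomposition**, lower integrals -/
theorem lintegral_cones {f : V (k + 1) → ℝ≥0∞} (hf : Measurable f) :
    ∫⁻ x in Del (k + 1), f x = ∑ i : Fin (k + 2), ENNReal.ofReal (1 / ((k : ℝ) + 2)) *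
      ∫⁻ r in Icc (0 : ℝ) 1, ENNReal.ofReal (r ^ k) * ∫⁻ ν in Del k, f (cn i r ν) := by
  have h1 : ∫⁻ x in Del (k + 1), f x = ∫⁻ x in Del (k + 1),
      ∑ i : Fin (k + 2), (Cone (k + 1) i).indicator f x := by
    apply lintegral_congr_ae
    filter_upwards [cone_partition] with x hx
    have : ∀ i : Fin (k + 2), (Cone (k + 1) i).indicator f x = f x *
        (Cone (k + 1) i).indicator (1 : V (k + 1) → ℝ≥0∞) x := by
      intro i
      by_cases h : x ∈ Cone (k + 1) i
      · rw [indicator_of_mem h, indicator_of_mem h]; simp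
      · rw [indicator_of_notMem h, indicator_of_notMem h]; simp
    simp only [this]
    rw [← Finset.mul_sum, hx, mul_one]
  rw [h1, lintegral_finsetSum _ fun i _ => hf.indicator (cone_meas i)]
  refine Finset.sum_congr rfl fun i _ => ?_
  rw [lintegral_indicator (cone_meas i), Measure.restrict_restrict (cone_meas i),
    inter_eq_left.2 (fun x hx => hx.1), lintegral_cone i hf]

/-- the measure on the parameter space of the cones -/
noncomputable def qm (k : ℕ) : Measure (ℝ × V k) :=
  ((volume.restrict (Icc (0 : ℝ) 1)).prod (sm k)).withDensity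
    fun q => ENNReal.ofReal (q.1 ^ k)

lemma sm_eq_sum : sm (k + 1) = ∑ i : Fin (k + 2), ENNReal.ofReal (1 / ((k : ℝ) + 2)) •
    (qm k).map (fun q => cn i q.1 q.2) := by
  ext E hE
  have h1 : sm (k + 1) E = ∫⁻ x in Del (k + 1), E.indicator 1 x := by
    rw [lintegral_indicator_one hE]
    rfl
  rw [h1, lintegral_cones (measurable_one.indicator hE), Measure.finsetSum_apply]
  refine Finset.sum_congr rfl fun i _ => ?_
  rw [Measure.smul_apply, Measure.map_apply (cn_cont i).measurable hE, smul_eq_mul]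
  congr 1
  have hE' : MeasurableSet ((fun q : ℝ × V k => cn i q.1 q.2) ⁻¹' E) := (cn_cont i).measurable hE
  unfold qm
  rw [withDensity_apply _ hE', ← lintegral_indicator hE', lintegral_prod _ (by
    apply Measurable.aemeasurable
    apply Measurable.indicator _ hE'
    fun_prop)]
  refine lintegral_congr fun s => ?_
  rw [← lintegral_const_mul' _ _ ENNReal.ofReal_ne_top]
  refine lintegral_congr fun ν => ?_
  by_cases h : cn i s ν ∈ E
  · rw [indicator_of_mem h, indicator_of_mem (show (s, ν) ∈ _ from h)]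
    simp
  · rw [indicator_of_notMem h, indicator_of_notMem (show (s, ν) ∉ _ from h)]
    simp

lemma qm_integral {H : ℝ × V k → ℝ} (hH : ContinuousOn H (Icc 0 1 ×ˢ Del k)) :
    ∫ q, H q ∂(qm k) = ∫ r in Icc (0 : ℝ) 1, r ^ k * ∫ ν, H (r, ν) ∂(sm k) := by
  have hc : IsCompact (Icc (0 : ℝ) 1 ×ˢ Del k) := isCompact_Icc.prod del_compact
  have hprod : (volume.restrict (Icc (0 : ℝ) 1)).prod (sm k) =
      (volume : Measure (ℝ × V k)).restrict (Icc (0 : ℝ) 1 ×ˢ Del k) := by
    unfold sm
    rw [Measure.prod_restrict, ← Measure.volume_eq_prod]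
  unfold qm
  rw [integral_withDensity_eq_integral_toReal_smul (by fun_prop) (Eventually.of_forall fun q =>
    ENNReal.ofReal_lt_top)]
  have hint : Integrable (fun q : ℝ × V k => (ENNReal.ofReal (q.1 ^ k)).toReal •
      H q) ((volume.restrict (Icc (0 : ℝ) 1)).prod (sm k)) := by
    rw [hprod]
    have h1 : Continuous (fun q : ℝ × V k => (ENNReal.ofReal (q.1 ^ k)).toReal) :=
      ENNReal.continuousOn_toReal.comp_continuous
        (ENNReal.continuous_ofReal.comp (by fun_prop)) (fun q => by simp)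
    have hco := h1.continuousOn.smul hH
    exact hco.integrableOn_compact hc
  rw [integral_prod _ hint]
  apply integral_congr_ae
  filter_upwards [ae_restrict_mem measurableSet_Icc] with r hr
  rw [← integral_const_mul]
  refine integral_congr_ae (Eventually.of_forall fun ν => ?_)
  show (ENNReal.ofReal (r ^ k)).toReal • H (r, ν) = _
  rw [ENNReal.toReal_ofReal (pow_nonneg hr.1 k), smul_eq_mul]

lemma cb_contOn {F : (Fin (k + 2) → ℝ) → ℝ} (hF : ContinuousOn F (St (k + 1))) (i : Fin (k + 2))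
    {r : ℝ} (h0 : 0 ≤ r) (h1 : r ≤ 1) : ContinuousOn (fun μ => F (cb i r μ)) (St k) := by
  apply hF.comp
  · exact ((cb_cont i).comp (continuous_const.prodMk continuous_id)).continuousOn
  · intro μ hμ
    exact cb_mem i h0 h1 hμ

/-- **centroid decomposition**, real integrals -/
theorem Br_cones {F : (Fin (k + 2) → ℝ) → ℝ} (hF : ContinuousOn F (St (k + 1))) :
    Br (k + 1) F = 1 / ((k : ℝ) + 2) * ∑ i : Fin (k + 2), ∫ r in Icc (0 : ℝ) 1, r ^ k *
      Br k (fun μ => F (cb i r μ)) := by
  have hcn : ∀ i : Fin (k + 2), Integrable (fun x => F (bary x))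
      (ENNReal.ofReal (1 / ((k : ℝ) + 2)) • (qm k).map (fun q => cn i q.1 q.2)) := by
    intro i
    have h := bary_integrable hF
    rw [sm_eq_sum] at h
    exact (integrable_finsetSum_measure.1 h) i (Finset.mem_univ i)
  unfold Br
  rw [sm_eq_sum, integral_finsetSum_measure fun i _ => hcn i, Finset.mul_sum]
  refine Finset.sum_congr rfl fun i _ => ?_
  rw [integral_smul_measure, ENNReal.toReal_ofReal (by positivity), smul_eq_mul]
  congr 1
  have hae : AEStronglyMeasurable (fun x => F (bary x)) ((qm k).map (fun q => cn i q.1 q.2)) := by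
    have h := (hcn i).aestronglyMeasurable
    have hne : ENNReal.ofReal (1 / ((k : ℝ) + 2)) ≠ 0 :=
      (ENNReal.ofReal_pos.2 (by positivity)).ne'
    have h2 := h.smul_measure (ENNReal.ofReal (1 / ((k : ℝ) + 2)))⁻¹
    rw [smul_smul, ENNReal.inv_mul_cancel hne ENNReal.ofReal_ne_top, one_smul] at h2
    exact h2
  rw [integral_map (cn_cont i).measurable.aemeasurable hae]
  have hcont : ContinuousOn (fun q : ℝ × V k => F (bary (cn i q.1 q.2))) (Icc 0 1 ×ˢ Del k) := by
    apply hF.comp (bary_cont.comp (cn_cont i)).continuousOn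
    rintro ⟨s, ν⟩ ⟨hs, hν⟩
    show bary (cn i s ν) ∈ _
    rw [bary_cn]
    exact cb_mem i hs.1 hs.2 (bary_mem.2 hν)
  rw [qm_integral hcont]
  simp only [bary_cn]

end Pool.Agent.H5.SM
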