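import Pool.Agent.H5.SM.D4

/-! The strict correlation inequality for functions vanishing at the centroid. -/

set_option autoImplicit false

open MeasureTheory Set Filter
open scoped ENNReal Topology

namespace Pool.Agent.H5.SM

open Pool.Agent.H5.LP (V Del del_compact del_vol_ne_zero del_vol_ne_top)

variable {k : ℕ}

lemma swap_mem {μ : Fin (k + 1) → ℝ} (h : μ ∈ St k) (i j : Fin (k + 1)) :
    (fun l => μ (Equiv.swap i j l)) ∈ St k :=
  ⟨fun l => h.1 _, by rw [Equiv.sum_comp (Equiv.swap i j) μ]; exact h.2⟩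

/-- a strictly convex symmetric function has its minimum at the centroid -/
lemma min_cen {G : (Fin (k + 1) → ℝ) → ℝ} (hG : StrictConvexOn ℝ (St k) G)
    (hGc : ContinuousOn G (St k)) (hs : Sym k G) :
    (∀ μ ∈ St k, G (cen k) ≤ G μ) ∧ ∀ μ ∈ St k, μ ≠ cen k → G (cen k) < G μ := by
  obtain ⟨μ₀, hμ₀, hmin⟩ := (isCompact_stdSimplex ℝ (Fin (k + 1))).exists_isMinOn
    ⟨_, cen_mem⟩ hGc
  have hinv : ∀ i j, (fun l => μ₀ (Equiv.swap i j l)) = μ₀ := by
    intro i j
    by_contra hne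
    have hm := swap_mem hμ₀ i j
    have h1 := hG.2 hm hμ₀ hne (by norm_num : (0 : ℝ) < 1 / 2) (by norm_num : (0 : ℝ) < 1 / 2)
      (by norm_num)
    have h2 : G μ₀ ≤ G ((1 / 2 : ℝ) • (fun l => μ₀ (Equiv.swap i j l)) + (1 / 2 : ℝ) • μ₀) :=
      hmin ((convex_stdSimplex ℝ _) hm hμ₀ (by norm_num) (by norm_num) (by norm_num))
    rw [hs i j μ₀ hμ₀, smul_eq_mul] at h1
    linarith
  have hconst : ∀ j, μ₀ j = μ₀ 0 := by
    intro j
    have := congrFun (hinv 0 j) 0
    simp only [Equiv.swap_apply_left] at this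
    exact this
  have hcen : μ₀ = cen k := by
    ext j
    rw [hconst j]
    have := hμ₀.2
    simp only [hconst, Finset.sum_const, Finset.card_univ, Fintype.card_fin, nsmul_eq_mul] at this
    unfold cen
    push_cast at this
    rw [eq_div_iff (by positivity)]
    linarith
  rw [hcen] at hmin
  refine ⟨fun μ hμ => hmin hμ, fun μ hμ hne => ?_⟩
  have h1 := hG.2 hμ cen_mem hne (by norm_num : (0 : ℝ) < 1 / 2) (by norm_num : (0 : ℝ) < 1 / 2)
    (by norm_num)
  have h2 : G (cen k) ≤ G ((1 / 2 : ℝ) • μ + (1 / 2 : ℝ) • cen k) :=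
    hmin ((convex_stdSimplex ℝ _) hμ cen_mem (by norm_num) (by norm_num) (by norm_num))
  simp only [smul_eq_mul] at h1
  linarith

lemma int_pow (n : ℕ) : ∫ r in Icc (0 : ℝ) 1, r ^ n = 1 / ((n : ℝ) + 1) := by
  rw [integral_Icc_eq_integral_Ioc, ← intervalIntegral.integral_of_le zero_le_one, integral_pow]
  simp

lemma cpow (n : ℕ) : ContinuousOn (fun r : ℝ => r ^ n) (Icc 0 1) := by fun_prop

/-- one-dimensional Chebyshev inequality -/
lemma cheb {τ Γ : ℝ → ℝ} (hτ : ConvexOn ℝ (Icc 0 1) τ) (hτc : ContinuousOn τ (Icc 0 1))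
    (hτ0 : τ 0 = 0) (hτn : ∀ r ∈ Icc (0 : ℝ) 1, 0 ≤ τ r) (hΓc : ContinuousOn Γ (Icc 0 1))
    (hΓ : MonotoneOn Γ (Icc 0 1)) :
    (((k : ℝ) + 2) * ∫ r in Icc (0 : ℝ) 1, r ^ (k + 1) * Γ r) *
      (∫ r in Icc (0 : ℝ) 1, r ^ k * τ r) ≤ ∫ r in Icc (0 : ℝ) 1, r ^ k * (τ r * Γ r) := by
  have hk : (0 : ℝ) < (k : ℝ) + 2 := by positivity
  have z0 : (0 : ℝ) ∈ Icc (0 : ℝ) 1 := ⟨le_refl _, zero_le_one⟩
  have z1 : (1 : ℝ) ∈ Icc (0 : ℝ) 1 := ⟨zero_le_one, le_refl _⟩
  set c := ((k : ℝ) + 2) * ∫ r in Icc (0 : ℝ) 1, r ^ (k + 1) * Γ r with hc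
  have hpw : ((k : ℝ) + 2) * ∫ r in Icc (0 : ℝ) 1, r ^ (k + 1) = 1 := by
    rw [int_pow]
    push_cast
    field_simp
    ring
  have ip1 : IntegrableOn (fun r : ℝ => r ^ (k + 1)) (Icc (0 : ℝ) 1) := intOn (cpow _)
  have ipΓ : IntegrableOn (fun r : ℝ => r ^ (k + 1) * Γ r) (Icc (0 : ℝ) 1) :=
    intOn (cmul (cpow _) hΓc)
  have hc0 : Γ 0 ≤ c := by
    have h1 : ∫ r in Icc (0 : ℝ) 1, Γ 0 * r ^ (k + 1) ≤
        ∫ r in Icc (0 : ℝ) 1, r ^ (k + 1) * Γ r := by
      apply setIntegral_mono_on (icst (Γ 0) ip1) ipΓ measurableSet_Icc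
      intro r hr
      rw [mul_comm]
      exact mul_le_mul_of_nonneg_left (hΓ z0 hr hr.1) (pow_nonneg hr.1 _)
    rw [integral_const_mul] at h1
    have h2 := mul_le_mul_of_nonneg_left h1 hk.le
    have e : ((k : ℝ) + 2) * (Γ 0 * ∫ r in Icc (0 : ℝ) 1, r ^ (k + 1)) = Γ 0 *
      (((k : ℝ) + 2) * ∫ r in Icc (0 : ℝ) 1, r ^ (k + 1)) := by ring
    rw [e, hpw, mul_one] at h2
    exact h2
  have hc1 : c ≤ Γ 1 := by
    have h1 : ∫ r in Icc (0 : ℝ) 1, r ^ (k + 1) * Γ r ≤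
        ∫ r in Icc (0 : ℝ) 1, Γ 1 * r ^ (k + 1) := by
      apply setIntegral_mono_on ipΓ (icst (Γ 1) ip1) measurableSet_Icc
      intro r hr
      rw [mul_comm (Γ 1)]
      exact mul_le_mul_of_nonneg_left (hΓ hr z1 hr.2) (pow_nonneg hr.1 _)
    rw [integral_const_mul] at h1
    have h2 := mul_le_mul_of_nonneg_left h1 hk.le
    have e : ((k : ℝ) + 2) * (Γ 1 * ∫ r in Icc (0 : ℝ) 1, r ^ (k + 1)) = Γ 1 *
      (((k : ℝ) + 2) * ∫ r in Icc (0 : ℝ) 1, r ^ (k + 1)) := by ring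
    rw [e, hpw, mul_one] at h2
    exact h2
  obtain ⟨r₀, hr₀, hΓr₀⟩ := intermediate_value_Icc zero_le_one hΓc ⟨hc0, hc1⟩
  -- comparison slope
  have hslope : ∃ a : ℝ, ∀ r ∈ Icc (0 : ℝ) 1, 0 ≤ (τ r - a * r) * (Γ r - c) := by
    rcases eq_or_lt_of_le hr₀.1 with h0 | h0
    · refine ⟨0, fun r hr => ?_⟩
      rw [← h0] at hΓr₀
      apply mul_nonneg
      · have := hτn r hr
        linarith
      · have := hΓ z0 hr hr.1
        linarith
    · have hcvx : ∀ r r' : ℝ, 0 ≤ r → r ≤ r' → r' ≤ 1 → 0 < r' → τ r ≤ r / r' * τ r' := by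
        intro r r' h1 h2 h3 h4
        have hw : (1 - r / r') + r / r' = 1 := by ring
        have h5 : r / r' ≤ 1 := (div_le_one h4).2 h2
        have h6 := hτ.2 z0 ⟨h4.le, h3⟩ (by linarith : (0 : ℝ) ≤ 1 - r / r')
          (div_nonneg h1 h4.le) hw
        simp only [smul_eq_mul, mul_zero, zero_add, hτ0] at h6
        rwa [div_mul_cancel₀ _ h4.ne'] at h6
      refine ⟨τ r₀ / r₀, fun r hr => ?_⟩
      rcases le_total r r₀ with h1 | h1
      · apply mul_nonneg_of_nonpos_of_nonpos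
        · have := hcvx r r₀ hr.1 h1 hr₀.2 h0
          have e : r / r₀ * τ r₀ = τ r₀ / r₀ * r := by ring
          linarith
        · have := hΓ hr hr₀ h1
          linarith
      · apply mul_nonneg
        · have h2 : 0 < r := lt_of_lt_of_le h0 h1
          have := hcvx r₀ r h0.le h1 hr.2 h2
          have h3 : τ r₀ / r₀ * r ≤ (r₀ / r * τ r) / r₀ * r := by gcongr
          have e : (r₀ / r * τ r) / r₀ * r = τ r := by field_simp
          linarith
        · have := hΓ hr₀ hr h1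
          linarith
  obtain ⟨a, ha⟩ := hslope
  have hnn : 0 ≤ ∫ r in Icc (0 : ℝ) 1, r ^ k * ((τ r - a * r) * (Γ r - c)) := by
    apply setIntegral_nonneg measurableSet_Icc
    intro r hr
    exact mul_nonneg (pow_nonneg hr.1 _) (ha r hr)
  have i1 : Integrable (fun r => r ^ k * (τ r * Γ r)) (volume.restrict (Icc (0 : ℝ) 1)) :=
    intOn (cmul (cpow _) (cmul hτc hΓc))
  have i2 : Integrable (fun r => r ^ k * τ r) (volume.restrict (Icc (0 : ℝ) 1)) :=
    intOn (cmul (cpow _) hτc)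
  have hexp : ∀ r : ℝ, r ^ k * ((τ r - a * r) * (Γ r - c)) =
      (r ^ k * (τ r * Γ r) - c * (r ^ k * τ r)) - (a * (r ^ (k + 1) * Γ r) -
        (a * c) * r ^ (k + 1)) := by
    intro r; ring
  simp_rw [hexp] at hnn
  rw [integral_sub (isub i1 (icst c i2)) (isub (icst a ipΓ) (icst (a * c) ip1)),
    integral_sub i1 (icst c i2), integral_sub (icst a ipΓ) (icst (a * c) ip1),
    integral_const_mul, integral_const_mul, integral_const_mul] at hnn
  have e1 : a * (∫ r in Icc (0 : ℝ) 1, r ^ (k + 1) * Γ r) -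
      (a * c) * ∫ r in Icc (0 : ℝ) 1, r ^ (k + 1) = 0 := by
    have h1 : ((k : ℝ) + 2) * (a * (∫ r in Icc (0 : ℝ) 1, r ^ (k + 1) * Γ r) -
      (a * c) * ∫ r in Icc (0 : ℝ) 1, r ^ (k + 1)) = a * c - (a * c) * (((k : ℝ) + 2) *
        ∫ r in Icc (0 : ℝ) 1, r ^ (k + 1)) := by
      rw [hc]; ring
    rw [hpw, mul_one, sub_self] at h1
    exact (mul_eq_zero.1 h1).resolve_left hk.ne'
  linarith

/-! ### the radial slices -/

lemma ins_affine {a b : ℝ} (μ μ' : Fin (k + 1) → ℝ) :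
    ins (a • μ + b • μ') = a • ins μ + b • ins μ' := by
  ext l
  refine Fin.lastCases ?_ (fun j => ?_) l
  · simp [ins_last]
  · simp [ins_castSucc]

lemma cb_affine_μ (i : Fin (k + 2)) (r : ℝ) {a b : ℝ} (hab : a + b = 1)
    (μ μ' : Fin (k + 1) → ℝ) : cb i r (a • μ + b • μ') = a • cb i r μ + b • cb i r μ' := by
  ext l
  unfold cb
  rw [ins_affine]
  simp only [Pi.add_apply, Pi.smul_apply, smul_eq_mul]
  have : b = 1 - a := by linarith
  rw [this]; ring

lemma cb_affine_r (i : Fin (k + 2)) (r r' : ℝ) {a b : ℝ} (hab : a + b = 1)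
    (μ : Fin (k + 1) → ℝ) : cb i (a * r + b * r') μ = a • cb i r μ + b • cb i r' μ := by
  ext l
  unfold cb
  simp only [Pi.add_apply, Pi.smul_apply, smul_eq_mul]
  have : b = 1 - a := by linarith
  rw [this]; ring

lemma cb_swap (i : Fin (k + 2)) (r : ℝ) (μ : Fin (k + 1) → ℝ) :
    cb i r μ = fun l => cb (Fin.last (k + 1)) r μ (Equiv.swap i (Fin.last (k + 1)) l) := by
  ext l
  unfold cb
  rw [Equiv.swap_self, Equiv.refl_apply]
  rfl

lemma ins_swap (μ : Fin (k + 1) → ℝ) (i j : Fin (k + 1)) :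
    ins (fun l => μ (Equiv.swap i j l)) =
      fun l => ins μ (Equiv.swap i.castSucc j.castSucc l) := by
  ext l
  refine Fin.lastCases ?_ (fun m => ?_) l
  · rw [ins_last, Equiv.swap_apply_of_ne_of_ne (Fin.castSucc_lt_last i).ne'
      (Fin.castSucc_lt_last j).ne', ins_last]
  · rw [ins_castSucc, Equiv.swap_apply_def, Equiv.swap_apply_def]
    simp only [Fin.castSucc_inj]
    split_ifs
    · rw [ins_castSucc]
    · rw [ins_castSucc]
    · rw [ins_castSucc]

lemma cb_last_swap (r : ℝ) (μ : Fin (k + 1) → ℝ) (i j : Fin (k + 1)) :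
    cb (Fin.last (k + 1)) r (fun l => μ (Equiv.swap i j l)) =
      fun l => cb (Fin.last (k + 1)) r μ (Equiv.swap i.castSucc j.castSucc l) := by
  ext l
  unfold cb
  rw [Equiv.swap_self, Equiv.refl_apply, Equiv.refl_apply, ins_swap]
  rfl

lemma Sym.radial {G : (Fin (k + 2) → ℝ) → ℝ} (hG : Sym (k + 1) G) {r : ℝ} (h0 : 0 ≤ r)
    (h1 : r ≤ 1) : Sym k (fun μ => G (cb (Fin.last (k + 1)) r μ)) := by
  intro i j μ hμ
  show G (cb _ r (fun l => μ (Equiv.swap i j l))) = G (cb _ r μ)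
  rw [cb_last_swap]
  exact hG _ _ _ (cb_mem _ h0 h1 hμ)

lemma convexOn_radial {F : (Fin (k + 2) → ℝ) → ℝ} (hF : ConvexOn ℝ (St (k + 1)) F)
    (i : Fin (k + 2)) {r : ℝ} (h0 : 0 ≤ r) (h1 : r ≤ 1) :
    ConvexOn ℝ (St k) (fun μ => F (cb i r μ)) := by
  refine ⟨convex_stdSimplex ℝ _, fun ν hν ν' hν' a b ha hb hab => ?_⟩
  show F (cb i r (a • ν + b • ν')) ≤ _
  rw [cb_affine_μ i r hab]
  exact hF.2 (cb_mem i h0 h1 hν) (cb_mem i h0 h1 hν') ha hb hab

lemma convexOn_Br_radial {F : (Fin (k + 2) → ℝ) → ℝ} (hF : ConvexOn ℝ (St (k + 1)) F)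
    (hFc : ContinuousOn F (St (k + 1))) (i : Fin (k + 2)) :
    ConvexOn ℝ (Icc 0 1) (fun r => Br k (fun μ => F (cb i r μ))) := by
  refine ⟨convex_Icc 0 1, fun s hs s' hs' a b ha hb hab => ?_⟩
  have hm := (convex_Icc (0 : ℝ) 1) hs hs' ha hb hab
  simp only [smul_eq_mul] at hm ⊢
  have c1 := cb_contOn hFc i hs.1 hs.2
  have c2 := cb_contOn hFc i hs'.1 hs'.2
  have c3 := cb_contOn hFc i hm.1 hm.2
  calc Br k (fun μ => F (cb i (a * s + b * s') μ))
      ≤ Br k (fun μ => a * F (cb i s μ) + b * F (cb i s' μ)) := by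
        apply Br_mono c3 (cadd (ccst a c1) (ccst b c2))
        intro μ hμ
        rw [cb_affine_r i s s' hab]
        exact hF.2 (cb_mem i hs.1 hs.2 hμ) (cb_mem i hs'.1 hs'.2 hμ) ha hb hab
    _ = a * Br k (fun μ => F (cb i s μ)) + b * Br k (fun μ => F (cb i s' μ)) := by
        rw [Br_add (ccst a c1) (ccst b c2), Br_mul, Br_mul]

lemma radial_cont {F : (Fin (k + 2) → ℝ) → ℝ} (hF : ContinuousOn F (St (k + 1)))
    (i : Fin (k + 2)) : ContinuousOn (fun r => Br k (fun μ => F (cb i r μ))) (Icc 0 1) := by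
  obtain ⟨M, hM0, hM⟩ := exists_bound hF
  unfold Br
  apply continuousOn_of_dominated (bound := fun _ => M)
  · intro s hs
    exact (bary_integrable (cb_contOn hF i hs.1 hs.2)).aestronglyMeasurable
  · intro s hs
    filter_upwards [ae_mem] with ν hν
    exact hM _ (cb_mem i hs.1 hs.2 (bary_mem.2 hν))
  · exact integrable_const _
  · filter_upwards [ae_mem] with ν hν
    apply hF.comp
    · exact ((cb_cont i).comp (continuous_id.prodMk continuous_const)).continuousOn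
    · intro s hs
      exact cb_mem i hs.1 hs.2 (bary_mem.2 hν)

lemma cb_zero (i : Fin (k + 2)) (μ : Fin (k + 1) → ℝ) : cb i 0 μ = cen (k + 1) := by
  ext l
  unfold cb
  ring

lemma cb_last_one (μ : Fin (k + 1) → ℝ) : cb (Fin.last (k + 1)) 1 μ = ins μ := by
  ext l
  unfold cb
  rw [Equiv.swap_self, Equiv.refl_apply]
  ring

/-- **the strict correlation inequality** -/
theorem strict_cov {G : (Fin (k + 2) → ℝ) → ℝ} (hG : StrictConvexOn ℝ (St (k + 1)) G)
    (hGc : ContinuousOn G (St (k + 1))) (hs : Sym (k + 1) G) :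
    ∃ H : ℝ, Br (k + 1) G < H * Br (k + 1) (fun _ => 1) ∧
      ∀ T : (Fin (k + 2) → ℝ) → ℝ, ConvexOn ℝ (St (k + 1)) T → ContinuousOn T (St (k + 1)) →
        (∀ μ ∈ St (k + 1), 0 ≤ T μ) → T (cen (k + 1)) = 0 →
        H * Br (k + 1) T ≤ Br (k + 1) (fun μ => T μ * G μ) := by
  set L := Fin.last (k + 1) with hL
  set b := Br k (fun _ => 1) with hb
  have hbpos : 0 < b := Br_one_pos
  set Γ : ℝ → ℝ := fun r => Br k (fun μ => G (cb L r μ)) with hΓ
  have hk2 : (0 : ℝ) < (k : ℝ) + 2 := by positivity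
  have hk1 : (0 : ℝ) < (k : ℝ) + 1 := by positivity
  have z0 : (0 : ℝ) ∈ Icc (0 : ℝ) 1 := ⟨le_refl _, zero_le_one⟩
  have z1 : (1 : ℝ) ∈ Icc (0 : ℝ) 1 := ⟨zero_le_one, le_refl _⟩
  have hΓi : ∀ i : Fin (k + 2), ∀ r ∈ Icc (0 : ℝ) 1, ∀ μ ∈ St k,
      G (cb i r μ) = G (cb L r μ) := by
    intro i r hr μ hμ
    rw [cb_swap]
    exact hs _ _ _ (cb_mem _ hr.1 hr.2 hμ)
  have hΓc : ContinuousOn Γ (Icc 0 1) := radial_cont hGc L
  have hΓcv : ConvexOn ℝ (Icc 0 1) Γ := convexOn_Br_radial hG.convexOn hGc L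
  obtain ⟨hmin, hmin'⟩ := min_cen hG hGc hs
  have hΓ0 : Γ 0 = G (cen (k + 1)) * b := by
    rw [hΓ]
    simp only [cb_zero]
    exact Br_const _
  have hΓge : ∀ r ∈ Icc (0 : ℝ) 1, Γ 0 ≤ Γ r := by
    intro r hr
    apply Br_mono (cb_contOn hGc L z0.1 z0.2) (cb_contOn hGc L hr.1 hr.2)
    intro μ hμ
    rw [cb_zero]
    exact hmin _ (cb_mem L hr.1 hr.2 hμ)
  have hΓm : MonotoneOn Γ (Icc 0 1) := by
    intro r hr r' hr' hrr
    rcases eq_or_lt_of_le hr'.1 with h0 | h0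
    · have : r = 0 := le_antisymm (h0 ▸ hrr) hr.1
      rw [this, ← h0]
    · have hw : (1 - r / r') + r / r' = 1 := by ring
      have h5 : r / r' ≤ 1 := (div_le_one h0).2 hrr
      have h6 := hΓcv.2 z0 hr' (by linarith : (0 : ℝ) ≤ 1 - r / r') (div_nonneg hr.1 h0.le) hw
      simp only [smul_eq_mul, mul_zero, zero_add] at h6
      rw [div_mul_cancel₀ _ h0.ne'] at h6
      have h7 := mul_le_mul_of_nonneg_left (hΓge r' hr') (by linarith : (0 : ℝ) ≤ 1 - r / r')
      linarith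
  have hΓ01 : Γ 0 < Γ 1 := by
    have hc1 : ContinuousOn (fun μ => G (cb L 1 μ)) (St k) := cb_contOn hGc L z1.1 z1.2
    obtain ⟨μ₁, hμ₁, h1⟩ := (isCompact_stdSimplex ℝ (Fin (k + 1))).exists_isMinOn
      ⟨_, cen_mem⟩ hc1
    have h2 : G (cen (k + 1)) < G (cb L 1 μ₁) := by
      apply hmin' _ (cb_mem L z1.1 z1.2 hμ₁)
      intro hcon
      have h3 := congrFun hcon L
      rw [cb_last_one, ins_last] at h3
      unfold cen at h3
      have : (0 : ℝ) < 1 / (((k + 1 : ℕ) : ℝ) + 1) := by positivity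
      linarith
    calc Γ 0 = G (cen (k + 1)) * b := hΓ0
      _ < G (cb L 1 μ₁) * b := mul_lt_mul_of_pos_right h2 hbpos
      _ = Br k (fun _ => G (cb L 1 μ₁)) := (Br_const _).symm
      _ ≤ Γ 1 := Br_mono continuousOn_const hc1 fun μ hμ => h1 hμ
  set c := ((k : ℝ) + 2) * ∫ r in Icc (0 : ℝ) 1, r ^ (k + 1) * Γ r with hc
  refine ⟨c / b, ?_, ?_⟩
  · -- strictness
    have e1 : Br (k + 1) G = ∫ r in Icc (0 : ℝ) 1, r ^ k * Γ r := by
      rw [Br_cones hGc]
      have h1 : ∀ i : Fin (k + 2), ∫ r in Icc (0 : ℝ) 1, r ^ k * Br k (fun μ => G (cb i r μ)) =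
          ∫ r in Icc (0 : ℝ) 1, r ^ k * Γ r := by
        intro i
        apply setIntegral_congr_fun measurableSet_Icc
        intro r hr
        show r ^ k * _ = r ^ k * _
        congr 1
        exact Br_congr fun μ hμ => hΓi i r hr μ hμ
      simp only [h1]
      rw [Finset.sum_const, Finset.card_univ, Fintype.card_fin, nsmul_eq_mul]
      push_cast
      field_simp
    have e2 : Br (k + 1) (fun _ => 1) = b / ((k : ℝ) + 1) := by
      rw [Br_cones continuousOn_const]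
      have h1 : ∫ r in Icc (0 : ℝ) 1, r ^ k * b = b / ((k : ℝ) + 1) := by
        rw [integral_mul_const, int_pow]
        ring
      rw [h1, Finset.sum_const, Finset.card_univ, Fintype.card_fin, nsmul_eq_mul]
      push_cast
      field_simp
    rw [e1, e2]
    have e3 : c / b * (b / ((k : ℝ) + 1)) = c / ((k : ℝ) + 1) := by field_simp
    rw [e3, lt_div_iff₀ hk1]
    set r₀ : ℝ := ((k : ℝ) + 1) / ((k : ℝ) + 2) with hr₀
    have hr₀m : r₀ ∈ Icc (0 : ℝ) 1 := ⟨by positivity, by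
      rw [hr₀, div_le_one hk2]; linarith⟩
    have hr₀1 : r₀ < 1 := by rw [hr₀, div_lt_one hk2]; linarith
    have hΓr : Γ r₀ < Γ 1 := by
      have h6 := hΓcv.2 z0 z1 (by linarith : (0 : ℝ) ≤ 1 - r₀) hr₀m.1 (by ring)
      simp only [smul_eq_mul, mul_zero, zero_add, mul_one] at h6
      have h7 := mul_lt_mul_of_pos_left hΓ01 (by linarith : (0 : ℝ) < 1 - r₀)
      linarith
    have hpos : 0 < ∫ r in Icc (0 : ℝ) 1,
        r ^ k * ((((k : ℝ) + 2) * r - ((k : ℝ) + 1)) * (Γ r - Γ r₀)) := by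
      rw [integral_Icc_eq_integral_Ioc, ← intervalIntegral.integral_of_le zero_le_one]
      apply intervalIntegral.integral_pos zero_lt_one
      · exact cmul (cpow _) (cmul (by fun_prop) (csub hΓc continuousOn_const))
      · intro r hr
        have hr' : r ∈ Icc (0 : ℝ) 1 := ⟨hr.1.le, hr.2⟩
        apply mul_nonneg (pow_nonneg hr.1.le _)
        rcases le_total r r₀ with h | h
        · apply mul_nonneg_of_nonpos_of_nonpos
          · rw [hr₀, le_div_iff₀ hk2] at h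
            linarith
          · linarith [hΓm hr' hr₀m h]
        · apply mul_nonneg
          · rw [hr₀, div_le_iff₀ hk2] at h
            linarith
          · linarith [hΓm hr₀m hr' h]
      · refine ⟨1, z1, ?_⟩
        rw [one_pow, one_mul]
        apply mul_pos
        · linarith
        · linarith
    have i1 : Integrable (fun r => r ^ (k + 1) * Γ r) (volume.restrict (Icc (0 : ℝ) 1)) :=
      intOn (cmul (cpow _) hΓc)
    have i2 : Integrable (fun r => r ^ k * Γ r) (volume.restrict (Icc (0 : ℝ) 1)) :=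
      intOn (cmul (cpow _) hΓc)
    have i3 : Integrable (fun r => r ^ (k + 1)) (volume.restrict (Icc (0 : ℝ) 1)) :=
      intOn (cpow _)
    have i4 : Integrable (fun r => r ^ k) (volume.restrict (Icc (0 : ℝ) 1)) :=
      intOn (cpow _)
    have hexp : ∀ r : ℝ, r ^ k * ((((k : ℝ) + 2) * r - ((k : ℝ) + 1)) * (Γ r - Γ r₀)) =
        (((k : ℝ) + 2) * (r ^ (k + 1) * Γ r) - ((k : ℝ) + 1) * (r ^ k * Γ r)) -
        ((Γ r₀ * ((k : ℝ) + 2)) * r ^ (k + 1) - (Γ r₀ * ((k : ℝ) + 1)) * r ^ k) := by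
      intro r; ring
    simp_rw [hexp] at hpos
    rw [integral_sub (isub (icst _ i1) (icst _ i2)) (isub (icst _ i3) (icst _ i4)),
      integral_sub (icst _ i1) (icst _ i2), integral_sub (icst _ i3) (icst _ i4),
      integral_const_mul, integral_const_mul, integral_const_mul, integral_const_mul,
      int_pow, int_pow] at hpos
    have e4 : Γ r₀ * ((k : ℝ) + 2) * (1 / (((k + 1 : ℕ) : ℝ) + 1)) -
        Γ r₀ * ((k : ℝ) + 1) * (1 / ((k : ℝ) + 1)) = 0 := by
      push_cast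
      field_simp
      ring
    rw [e4, ← hc] at hpos
    linarith
  · -- the inequality
    intro T hT hTc hTn hT0
    have key : ∀ i : Fin (k + 2), c / b * ∫ r in Icc (0 : ℝ) 1, r ^ k *
        Br k (fun μ => T (cb i r μ)) ≤ ∫ r in Icc (0 : ℝ) 1, r ^ k *
          Br k (fun μ => T (cb i r μ) * G (cb i r μ)) := by
      intro i
      set τ : ℝ → ℝ := fun r => Br k (fun μ => T (cb i r μ)) with hτ
      have hτc : ContinuousOn τ (Icc 0 1) := radial_cont hTc i
      have hτcv : ConvexOn ℝ (Icc 0 1) τ := convexOn_Br_radial hT hTc i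
      have hτ0 : τ 0 = 0 := by
        rw [hτ]
        simp only [cb_zero, hT0]
        rw [Br_const, zero_mul]
      have hτn : ∀ r ∈ Icc (0 : ℝ) 1, 0 ≤ τ r := by
        intro r hr
        have h := Br_mono (F := fun _ => (0 : ℝ)) continuousOn_const
          (cb_contOn hTc i hr.1 hr.2) fun μ hμ => hTn _ (cb_mem i hr.1 hr.2 hμ)
        rw [Br_const, zero_mul] at h
        exact h
      have hch := cheb (k := k) hτcv hτc hτ0 hτn hΓc hΓm
      rw [← hc] at hch
      have hTGc := radial_cont (cmul hTc hGc) i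
      have h2 : ∫ r in Icc (0 : ℝ) 1, r ^ k * (τ r * Γ r) ≤ b * ∫ r in Icc (0 : ℝ) 1, r ^ k *
          Br k (fun μ => T (cb i r μ) * G (cb i r μ)) := by
        rw [← integral_const_mul]
        apply setIntegral_mono_on (intOn (cmul (cpow _) (cmul hτc hΓc)))
          (intOn (ccst b (cmul (cpow _) hTGc))) measurableSet_Icc
        intro r hr
        have h3 := cov k (convexOn_radial hT i hr.1 hr.2) (cb_contOn hTc i hr.1 hr.2)
          (convexOn_radial hG.convexOn L hr.1 hr.2) (cb_contOn hGc L hr.1 hr.2)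
          (hs.radial hr.1 hr.2)
        have h4 : Br k (fun μ => T (cb i r μ) * G (cb L r μ)) =
            Br k (fun μ => T (cb i r μ) * G (cb i r μ)) :=
          Br_congr fun μ hμ => by rw [hΓi i r hr μ hμ]
        rw [h4] at h3
        calc r ^ k * (τ r * Γ r) ≤ r ^ k * (b * Br k (fun μ => T (cb i r μ) * G (cb i r μ))) :=
              mul_le_mul_of_nonneg_left h3 (pow_nonneg hr.1 _)
          _ = b * (r ^ k * Br k (fun μ => T (cb i r μ) * G (cb i r μ))) := by ring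
      rw [div_mul_eq_mul_div, div_le_iff₀ hbpos]
      linarith
    rw [Br_cones hTc, Br_cones (cmul hTc hGc)]
    calc c / b * (1 / ((k : ℝ) + 2) * ∑ i : Fin (k + 2), ∫ r in Icc (0 : ℝ) 1, r ^ k *
          Br k (fun μ => T (cb i r μ)))
        = 1 / ((k : ℝ) + 2) * ∑ i : Fin (k + 2), (c / b * ∫ r in Icc (0 : ℝ) 1, r ^ k *
          Br k (fun μ => T (cb i r μ))) := by
          rw [← Finset.mul_sum]; ring
      _ ≤ 1 / ((k : ℝ) + 2) * ∑ i : Fin (k + 2), ∫ r in Icc (0 : ℝ) 1, r ^ k *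
          Br k (fun μ => T (cb i r μ) * G (cb i r μ)) := by
          apply mul_le_mul_of_nonneg_left _ (by positivity)
          exact Finset.sum_le_sum fun i _ => key i

end Pool.Agent.H5.SM
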