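import Pool.Agent.H5.SM.D5

/-! Laplace transform of the simplex: bounds. -/

set_option autoImplicit false

open MeasureTheory Set Filter
open scoped ENNReal Topology

namespace Pool.Agent.H5.SM

open Pool.Agent.H5.LP (V Del T T_lintegral T_volume T_inj T_surj T_pair J J_pos J_fin J_T del_compact
  del_vol_ne_zero del_vol_ne_top)

variable {n : ℕ}

/-- values of a linear functional at the vertices of the simplex -/
def vt (y : V n) : Fin (n + 1) → ℝ := Fin.cons 0 y

lemma vt_zero (y : V n) : vt y 0 = 0 := rfl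

lemma vt_succ (y : V n) (i : Fin n) : vt y i.succ = y i := rfl

lemma pair_bary (x y : V n) : ∑ i, x i * y i = ∑ l, bary x l * vt y l := by
  rw [Fin.sum_univ_succ, vt_zero, mul_zero, zero_add]
  rfl

/-- the vertices -/
def vert (a : Fin (n + 1)) : V n := fun l => if a = l.succ then 1 else 0

lemma bary_vert (a : Fin (n + 1)) (l : Fin (n + 1)) : bary (vert a) l = if a = l then 1 else 0 := by
  refine Fin.cases ?_ (fun j => ?_) l
  · rw [bary_zero]
    unfold vert
    refine Fin.cases ?_ (fun m => ?_) a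
    · rw [if_pos rfl]
      rw [Finset.sum_eq_zero]
      · ring
      · intro i _
        rw [if_neg (Fin.succ_ne_zero i).symm]
    · rw [if_neg (Fin.succ_ne_zero m)]
      simp only [Fin.succ_inj]
      rw [Finset.sum_ite_eq Finset.univ m, if_pos (Finset.mem_univ m)]
      ring
  · rw [bary_succ]
    rfl

lemma vert_pair (a : Fin (n + 1)) (y : V n) : ∑ i, vert a i * y i = vt y a := by
  rw [pair_bary]
  simp only [bary_vert, ite_mul, one_mul, zero_mul]
  rw [Finset.sum_ite_eq Finset.univ a, if_pos (Finset.mem_univ a)]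

lemma vert_mem (a : Fin (n + 1)) : vert a ∈ Del n := by
  rw [← bary_mem]
  refine ⟨fun l => ?_, bary_sum _⟩
  rw [bary_vert]
  split_ifs <;> norm_num

/-- the Laplace transform of the simplex, as a real number -/
noncomputable def jr (p : ℝ) (y : V n) : ℝ := (J p (Del n) y).toReal

lemma jr_ofReal (p : ℝ) (y : V n) : ENNReal.ofReal (jr p y) = J p (Del n) y :=
  ENNReal.ofReal_toReal (J_fin del_compact y)

lemma jr_pos (p : ℝ) (y : V n) : 0 < jr p y :=
  ENNReal.toReal_pos (J_pos del_vol_ne_zero y) (J_fin del_compact y)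

/-- the volume of the simplex, as a real number -/
noncomputable def vol (n : ℕ) : ℝ := (volume (Del n)).toReal

lemma vol_pos : 0 < vol n := ENNReal.toReal_pos del_vol_ne_zero del_vol_ne_top

lemma vol_ofReal : ENNReal.ofReal (vol n) = volume (Del n) := ENNReal.ofReal_toReal del_vol_ne_top

lemma J_meas (p : ℝ) (K : Set (V n)) : Measurable (J p K) := by
  unfold J
  apply Measurable.lintegral_prod_right'
    (f := fun q : V n × V n => ENNReal.ofReal (Real.exp (p * ∑ i, q.2 i * q.1 i)))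
  apply Measurable.ennreal_ofReal
  apply Continuous.measurable
  fun_prop

lemma jr_meas (p : ℝ) : Measurable (jr p : V n → ℝ) := (J_meas p _).ennreal_toReal

lemma sT (c : ℝ) (b x : V n) : T (c • (1 : Matrix (Fin n) (Fin n) ℝ)) b x = c • x + b := by
  unfold T
  rw [Matrix.smul_mulVec, Matrix.one_mulVec]

lemma sT_det (c : ℝ) : (c • (1 : Matrix (Fin n) (Fin n) ℝ)).det = c ^ n := by
  rw [Matrix.det_smul, Matrix.det_one, mul_one, Fintype.card_fin]

lemma del_convex : Convex ℝ (Del n) := by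
  intro x hx y hy a b ha hb hab
  refine ⟨fun i => ?_, ?_⟩
  · have h1 := hx.1 i
    have h2 := hy.1 i
    simp only [Pi.add_apply, Pi.smul_apply, smul_eq_mul]
    positivity
  · simp only [Pi.add_apply, Pi.smul_apply, smul_eq_mul, Finset.sum_add_distrib, ← Finset.mul_sum]
    nlinarith [hx.2, hy.2]

/-- lower bound for the Laplace transform -/
lemma jr_ge {p ε : ℝ} (hp : 0 < p) (h0 : 0 < ε) (h1 : ε ≤ 1) (y : V n) (a : Fin (n + 1)) {m : ℝ}
    (hm : ∀ l, m ≤ vt y l) :
    ε ^ n * vol n * Real.exp (p * ((1 - ε) * vt y a + ε * m)) ≤ jr p y := by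
  have hD : (ε • (1 : Matrix (Fin n) (Fin n) ℝ)).det ≠ 0 := by
    rw [sT_det]; positivity
  set b : V n := (1 - ε) • vert a with hb
  have hsub : T (ε • (1 : Matrix (Fin n) (Fin n) ℝ)) b '' Del n ⊆ Del n := by
    rintro _ ⟨x, hx, rfl⟩
    rw [sT, hb]
    exact del_convex hx (vert_mem a) h0.le (by linarith) (by ring)
  have h2 : ENNReal.ofReal (ε ^ n * vol n * Real.exp (p * ((1 - ε) * vt y a + ε * m))) ≤
      J p (Del n) y := by
    calc ENNReal.ofReal (ε ^ n * vol n * Real.exp (p * ((1 - ε) * vt y a + ε * m)))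
        = ∫⁻ _ in Del n, ENNReal.ofReal (ε ^ n) *
          ENNReal.ofReal (Real.exp (p * ((1 - ε) * vt y a + ε * m))) := by
          rw [lintegral_const, Measure.restrict_apply_univ, ← vol_ofReal,
            ENNReal.ofReal_mul (mul_nonneg (pow_nonneg h0.le _) vol_pos.le),
            ENNReal.ofReal_mul (pow_nonneg h0.le _)]
          ring
      _ ≤ ∫⁻ x in Del n, ENNReal.ofReal |(ε • (1 : Matrix (Fin n) (Fin n) ℝ)).det| *
          ENNReal.ofReal (Real.exp (p * ∑ i, (T (ε • (1 : Matrix (Fin n) (Fin n) ℝ)) b x) i *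
            y i)) := by
          apply setLIntegral_mono' del_compact.measurableSet
          intro x hx
          rw [sT_det, abs_of_pos (by positivity)]
          apply mul_le_mul' le_rfl
          apply ENNReal.ofReal_le_ofReal
          apply Real.exp_le_exp.2
          apply mul_le_mul_of_nonneg_left _ hp.le
          rw [sT, hb]
          simp only [Pi.add_apply, Pi.smul_apply, smul_eq_mul, add_mul, Finset.sum_add_distrib,
            mul_assoc, ← Finset.mul_sum]
          rw [vert_pair]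
          have h3 : m ≤ ∑ i, x i * y i := by
            rw [pair_bary]
            calc m = ∑ l, bary x l * m := by rw [← Finset.sum_mul, bary_sum, one_mul]
              _ ≤ _ := Finset.sum_le_sum fun l _ =>
                mul_le_mul_of_nonneg_left (hm l) ((bary_mem.2 hx).1 l)
          nlinarith
      _ = ∫⁻ x in T (ε • (1 : Matrix (Fin n) (Fin n) ℝ)) b '' Del n,
          ENNReal.ofReal (Real.exp (p * ∑ i, x i * y i)) :=
          (T_lintegral hD b del_compact.measurableSet
            (fun x => ENNReal.ofReal (Real.exp (p * ∑ i, x i * y i)))).symm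
      _ ≤ J p (Del n) y := lintegral_mono_set hsub
  rw [← jr_ofReal] at h2
  exact (ENNReal.ofReal_le_ofReal_iff (jr_pos p y).le).1 h2

/-- the basic bound -/
lemma base_bound {p δ : ℝ} (hp : 0 < p) (h0 : 0 < δ) (h1 : δ ≤ 1) (ξ y : V n)
    (hξ : ∀ l, δ ≤ bary ξ l) :
    Real.exp (p * ∑ i, ξ i * y i) * (jr p y)⁻¹ ≤
      ((δ / 2) ^ n * vol n)⁻¹ * Real.exp (-(p * (δ / 2) * ‖y‖)) := by
  have hv := vol_pos (n := n)
  obtain ⟨a, _, ha⟩ := Finset.exists_max_image Finset.univ (vt y) ⟨0, Finset.mem_univ _⟩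
  obtain ⟨c, _, hc⟩ := Finset.exists_min_image Finset.univ (vt y) ⟨0, Finset.mem_univ _⟩
  have ha' : ∀ l, vt y l ≤ vt y a := fun l => ha l (Finset.mem_univ l)
  have hc' : ∀ l, vt y c ≤ vt y l := fun l => hc l (Finset.mem_univ l)
  set h := vt y a with hh
  set m := vt y c with hmm
  have hj := jr_ge hp (by positivity : (0 : ℝ) < δ / 2) (by linarith) y a hc'
  have hpair : ∑ i, ξ i * y i ≤ h - δ * (h - m) := by
    rw [pair_bary]
    have e1 : ∑ l, bary ξ l * vt y l = h - ∑ l, bary ξ l * (h - vt y l) := by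
      have : ∑ l, bary ξ l * (h - vt y l) = (∑ l, bary ξ l) * h - ∑ l, bary ξ l * vt y l := by
        rw [Finset.sum_mul, ← Finset.sum_sub_distrib]
        refine Finset.sum_congr rfl fun l _ => ?_
        ring
      rw [this, bary_sum]
      ring
    rw [e1]
    have e2 : δ * (h - m) ≤ ∑ l, bary ξ l * (h - vt y l) := by
      calc δ * (h - m) ≤ bary ξ c * (h - vt y c) :=
            mul_le_mul_of_nonneg_right (hξ c) (by linarith [ha' c])
        _ ≤ _ := Finset.single_le_sum (f := fun l => bary ξ l * (h - vt y l)) (fun l _ =>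
            mul_nonneg (h0.le.trans (hξ l)) (by linarith [ha' l])) (Finset.mem_univ c)
    linarith
  have hnorm : ‖y‖ ≤ h - m := by
    have h0' := ha' 0
    have h0'' := hc' 0
    rw [vt_zero] at h0' h0''
    rw [pi_norm_le_iff_of_nonneg (by linarith)]
    intro i
    have h2 := ha' i.succ
    have h3 := hc' i.succ
    rw [vt_succ] at h2 h3
    rw [Real.norm_eq_abs, abs_le]
    constructor <;> linarith
  have hexp : Real.exp (p * ∑ i, ξ i * y i) ≤
      Real.exp (p * ((1 - δ / 2) * h + δ / 2 * m)) * Real.exp (-(p * (δ / 2) * ‖y‖)) := by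
    rw [← Real.exp_add]
    apply Real.exp_le_exp.2
    have h2 : p * ∑ i, ξ i * y i ≤ p * (h - δ * (h - m)) := mul_le_mul_of_nonneg_left hpair hp.le
    have h3 : p * (δ / 2) * ‖y‖ ≤ p * (δ / 2) * (h - m) :=
      mul_le_mul_of_nonneg_left hnorm (by positivity)
    nlinarith
  have hA : 0 < (δ / 2) ^ n * vol n := by positivity
  rw [← div_eq_mul_inv, div_le_iff₀ (jr_pos p y)]
  calc Real.exp (p * ∑ i, ξ i * y i) ≤
        Real.exp (p * ((1 - δ / 2) * h + δ / 2 * m)) * Real.exp (-(p * (δ / 2) * ‖y‖)) := hexp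
    _ = (((δ / 2) ^ n * vol n)⁻¹ * Real.exp (-(p * (δ / 2) * ‖y‖))) *
        ((δ / 2) ^ n * vol n * Real.exp (p * ((1 - δ / 2) * h + δ / 2 * m))) := by
        field_simp
    _ ≤ _ := mul_le_mul_of_nonneg_left hj (by positivity)

/-- exponential decay is integrable -/
lemma exp_int {c : ℝ} (hc : 0 < c) : Integrable (fun y : V n => Real.exp (-(c * ‖y‖))) := by
  have hN : (0 : ℝ) < (n : ℝ) + 1 := by positivity
  have h1 : Integrable (fun y : V n => (1 + ‖y‖) ^ (-((n : ℝ) + 1))) := by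
    apply integrable_one_add_norm
    rw [Module.finrank_fin_fun]
    linarith
  have h2 := h1.const_mul (Real.exp c * ((c / ((n : ℝ) + 1)) ^ ((n : ℝ) + 1))⁻¹)
  refine h2.mono' (by
    apply Continuous.aestronglyMeasurable
    fun_prop) (Eventually.of_forall fun y => ?_)
  rw [Real.norm_eq_abs, abs_of_pos (Real.exp_pos _)]
  set t := ‖y‖ with ht
  have ht0 : 0 ≤ t := norm_nonneg y
  have h3 : c * (1 + t) / ((n : ℝ) + 1) ≤ Real.exp (c * (1 + t) / ((n : ℝ) + 1)) := by
    have := Real.add_one_le_exp (c * (1 + t) / ((n : ℝ) + 1))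
    linarith
  have h4 : (c * (1 + t) / ((n : ℝ) + 1)) ^ ((n : ℝ) + 1) ≤ Real.exp (c * (1 + t)) := by
    calc (c * (1 + t) / ((n : ℝ) + 1)) ^ ((n : ℝ) + 1)
        ≤ (Real.exp (c * (1 + t) / ((n : ℝ) + 1))) ^ ((n : ℝ) + 1) :=
          Real.rpow_le_rpow (by positivity) h3 hN.le
      _ = Real.exp (c * (1 + t)) := by
          rw [← Real.exp_mul]
          congr 1
          field_simp
  have h5 : (c * (1 + t) / ((n : ℝ) + 1)) ^ ((n : ℝ) + 1) =
      (c / ((n : ℝ) + 1)) ^ ((n : ℝ) + 1) * (1 + t) ^ ((n : ℝ) + 1) := by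
    rw [← Real.mul_rpow (by positivity) (by positivity)]
    congr 1
    ring
  rw [h5] at h4
  have hP : 0 < (c / ((n : ℝ) + 1)) ^ ((n : ℝ) + 1) := Real.rpow_pos_of_pos (by positivity) _
  have hQ : 0 < (1 + t) ^ ((n : ℝ) + 1) := Real.rpow_pos_of_pos (by positivity) _
  rw [Real.rpow_neg (by positivity)]
  have h6 : Real.exp (-(c * t)) = Real.exp c * (Real.exp (c * (1 + t)))⁻¹ := by
    rw [← Real.exp_neg, ← Real.exp_add]
    congr 1
    ring
  rw [h6, mul_assoc]
  apply mul_le_mul_of_nonneg_left _ (Real.exp_pos _).le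
  rw [← mul_inv]
  exact inv_anti₀ (by positivity) h4

lemma norm_exp_le {c t : ℝ} (hc : 0 < c) : t * Real.exp (-(c * t)) ≤
    2 / c * Real.exp (-(c / 2 * t)) := by
  have h1 : c / 2 * t ≤ Real.exp (c / 2 * t) := by
    have := Real.add_one_le_exp (c / 2 * t)
    linarith
  have h2 : Real.exp (-(c * t)) = Real.exp (-(c / 2 * t)) * Real.exp (-(c / 2 * t)) := by
    rw [← Real.exp_add]
    congr 1
    ring
  have h3 : Real.exp (-(c / 2 * t)) * Real.exp (c / 2 * t) = 1 := by
    rw [← Real.exp_add]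
    simp
  have h4 : t ≤ 2 / c * Real.exp (c / 2 * t) := by
    have : t = 2 / c * (c / 2 * t) := by field_simp
    calc t = 2 / c * (c / 2 * t) := this
      _ ≤ _ := mul_le_mul_of_nonneg_left h1 (by positivity)
  rw [h2]
  calc t * (Real.exp (-(c / 2 * t)) * Real.exp (-(c / 2 * t)))
      ≤ (2 / c * Real.exp (c / 2 * t)) * (Real.exp (-(c / 2 * t)) * Real.exp (-(c / 2 * t))) :=
        mul_le_mul_of_nonneg_right h4 (by positivity)
    _ = 2 / c * Real.exp (-(c / 2 * t)) * (Real.exp (-(c / 2 * t)) * Real.exp (c / 2 * t)) := by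
        ring
    _ = _ := by rw [h3, mul_one]

/-- the centroid of the simplex -/
noncomputable def gc (n : ℕ) : V n := fun _ => 1 / ((n : ℝ) + 1)

lemma bary_gc : bary (gc n) = cen n := by
  have h : ∑ i, cen n i = 1 := (cen_mem (k := n)).2
  exact bary_tail h

/-- the weight in the functional of the simplex -/
noncomputable def w1 (p : ℝ) (y : V n) : ℝ :=
  Real.exp (∑ i, gc n i * y i) * (jr p y) ^ (-(1 / p))

/-- the kernel -/
noncomputable def w2 (p : ℝ) (x y : V n) : ℝ :=
  Real.exp (∑ i, (p * x i + gc n i) * y i) * (jr p y) ^ (-(1 + 1 / p))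

lemma w1_pos (p : ℝ) (y : V n) : 0 < w1 p y :=
  mul_pos (Real.exp_pos _) (Real.rpow_pos_of_pos (jr_pos p y) _)

lemma w2_pos (p : ℝ) (x y : V n) : 0 < w2 p x y :=
  mul_pos (Real.exp_pos _) (Real.rpow_pos_of_pos (jr_pos p y) _)

lemma w1_meas (p : ℝ) : Measurable (w1 p : V n → ℝ) := by
  unfold w1
  apply Measurable.mul
  · apply Continuous.measurable
    fun_prop
  · exact (jr_meas p).pow_const _

lemma w2_meas (p : ℝ) : Measurable (fun q : V n × V n => w2 p q.1 q.2) := by
  unfold w2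
  apply Measurable.mul
  · apply Continuous.measurable
    fun_prop
  · exact ((jr_meas p).comp measurable_snd).pow_const _

lemma w2_meas' (p : ℝ) (x : V n) : Measurable (w2 p x) :=
  (w2_meas p).comp (measurable_const.prodMk measurable_id)

/-- bound for the weight -/
lemma w1_bound {p : ℝ} (hp : 0 < p) : ∃ C c : ℝ, 0 < C ∧ 0 < c ∧
    ∀ y : V n, w1 p y ≤ C * Real.exp (-(c * ‖y‖)) := by
  have hv := vol_pos (n := n)
  set δ : ℝ := 1 / ((n : ℝ) + 1) with hδ
  have hδ0 : 0 < δ := by positivity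
  have hδ1 : δ ≤ 1 := by
    rw [hδ, div_le_one (by positivity)]
    have : (0 : ℝ) ≤ n := by positivity
    linarith
  have hA : 0 < ((δ / 2) ^ n * vol n)⁻¹ := by positivity
  refine ⟨(((δ / 2) ^ n * vol n)⁻¹) ^ (1 / p), δ / 2, Real.rpow_pos_of_pos hA _, by positivity,
    fun y => ?_⟩
  have h := base_bound hp hδ0 hδ1 (gc n) y (fun l => by rw [bary_gc]; exact le_refl _)
  have h2 := Real.rpow_le_rpow (by positivity [jr_pos p y]) h (by positivity : 0 ≤ 1 / p)
  have e1 : (Real.exp (p * ∑ i, gc n i * y i) * (jr p y)⁻¹) ^ (1 / p) = w1 p y := by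
    unfold w1
    rw [Real.mul_rpow (Real.exp_pos _).le (inv_nonneg.2 (jr_pos p y).le), ← Real.exp_mul,
      Real.inv_rpow (jr_pos p y).le, Real.rpow_neg (jr_pos p y).le]
    congr 2
    field_simp
  have e2 : (((δ / 2) ^ n * vol n)⁻¹ * Real.exp (-(p * (δ / 2) * ‖y‖))) ^ (1 / p) =
      (((δ / 2) ^ n * vol n)⁻¹) ^ (1 / p) * Real.exp (-(δ / 2 * ‖y‖)) := by
    rw [Real.mul_rpow hA.le (Real.exp_pos _).le, ← Real.exp_mul]
    congr 2
    field_simp
  rw [e1, e2] at h2
  exact h2

/-- the region where the kernel is uniformly bounded -/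
def Om (p : ℝ) : Set (V n) := {x | ∀ l, -(1 / (2 * p * ((n : ℝ) + 1))) ≤ bary x l}

lemma del_sub_Om {p : ℝ} (hp : 0 < p) : Del n ⊆ Om p := by
  intro x hx l
  have h1 := (bary_mem.2 hx).1 l
  have h2 : 0 < 1 / (2 * p * ((n : ℝ) + 1)) := by positivity
  linarith

/-- bound for the kernel -/
lemma w2_bound {p : ℝ} (hp : 0 < p) : ∃ C c : ℝ, 0 < C ∧ 0 < c ∧
    ∀ x ∈ Om (n := n) p, ∀ y : V n, w2 p x y ≤ C * Real.exp (-(c * ‖y‖)) := by
  have hv := vol_pos (n := n)
  set δ : ℝ := 1 / (2 * ((n : ℝ) + 1) * (1 + p)) with hδ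
  have hδ0 : 0 < δ := by positivity
  have hδ1 : δ ≤ 1 := by
    rw [hδ, div_le_one (by positivity)]
    have : (0 : ℝ) ≤ n := by positivity
    nlinarith
  have hA : 0 < ((δ / 2) ^ n * vol n)⁻¹ := by positivity
  have hθ : 0 < 1 + 1 / p := by positivity
  refine ⟨(((δ / 2) ^ n * vol n)⁻¹) ^ (1 + 1 / p), (1 + p) * (δ / 2), Real.rpow_pos_of_pos hA _,
    by positivity, fun x hx y => ?_⟩
  set ξ : V n := fun i => (p * x i + gc n i) / (1 + p) with hξ
  have hξb : ∀ l, bary ξ l = (p * bary x l + 1 / ((n : ℝ) + 1)) / (1 + p) := by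
    intro l
    refine Fin.cases ?_ (fun j => ?_) l
    · rw [bary_zero, bary_zero, hξ]
      rw [← Finset.sum_div, Finset.sum_add_distrib, ← Finset.mul_sum]
      unfold gc
      rw [Finset.sum_const, Finset.card_univ, Fintype.card_fin, nsmul_eq_mul]
      field_simp
      ring
    · rw [bary_succ, bary_succ]
      rfl
  have hlow : ∀ l, δ ≤ bary ξ l := by
    intro l
    rw [hξb, hδ]
    have h1 := hx l
    have h2 : p * (-(1 / (2 * p * ((n : ℝ) + 1)))) ≤ p * bary x l :=
      mul_le_mul_of_nonneg_left h1 hp.le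
    have h3 : p * (-(1 / (2 * p * ((n : ℝ) + 1)))) = -(1 / (2 * ((n : ℝ) + 1))) := by
      field_simp
    rw [h3] at h2
    have h4 : 1 / (2 * ((n : ℝ) + 1) * (1 + p)) = (1 / (2 * ((n : ℝ) + 1))) / (1 + p) := by
      field_simp
    rw [h4]
    apply div_le_div_of_nonneg_right _ (by positivity)
    have h5 : 1 / ((n : ℝ) + 1) = 2 * (1 / (2 * ((n : ℝ) + 1))) := by field_simp
    rw [h5]
    linarith
  have h := base_bound hp hδ0 hδ1 ξ y hlow
  have h2 := Real.rpow_le_rpow (by positivity [jr_pos p y]) h hθ.le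
  have e1 : (Real.exp (p * ∑ i, ξ i * y i) * (jr p y)⁻¹) ^ (1 + 1 / p) = w2 p x y := by
    unfold w2
    rw [Real.mul_rpow (Real.exp_pos _).le (inv_nonneg.2 (jr_pos p y).le), ← Real.exp_mul,
      Real.inv_rpow (jr_pos p y).le, Real.rpow_neg (jr_pos p y).le]
    congr 2
    have e3 : ∑ i, ξ i * y i = (∑ i, (p * x i + gc n i) * y i) / (1 + p) := by
      rw [Finset.sum_div]
      refine Finset.sum_congr rfl fun i _ => ?_
      rw [hξ]
      ring
    rw [e3]
    field_simp
    ring
  have e2 : (((δ / 2) ^ n * vol n)⁻¹ * Real.exp (-(p * (δ / 2) * ‖y‖))) ^ (1 + 1 / p) =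
      (((δ / 2) ^ n * vol n)⁻¹) ^ (1 + 1 / p) * Real.exp (-((1 + p) * (δ / 2) * ‖y‖)) := by
    rw [Real.mul_rpow hA.le (Real.exp_pos _).le, ← Real.exp_mul]
    congr 2
    field_simp
    ring
  rw [e1, e2] at h2
  exact h2

end Pool.Agent.H5.SM
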