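import Pool.Agent.H5.SM.D6

/-! The potential of the simplex. -/

set_option autoImplicit false

open MeasureTheory Set Filter
open scoped ENNReal Topology

namespace Pool.Agent.H5.SM

open Pool.Agent.H5.LP (V Del T T_lintegral T_volume T_inj T_surj T_pair J J_pos J_fin J_T del_compact
  del_vol_ne_zero del_vol_ne_top)

variable {n : ℕ}

/-- value of the functional at the simplex -/
noncomputable def Zc (n : ℕ) (p : ℝ) : ℝ := ∫ y : V n, w1 p y

/-- the potential -/
noncomputable def Gf (p : ℝ) (x : V n) : ℝ := ∫ y : V n, w2 p x y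

/-- the density of the potential -/
noncomputable def w3 (p : ℝ) (y : V n) : ℝ :=
  Real.exp (∑ i, gc n i * y i) * (jr p y) ^ (-(1 + 1 / p))

lemma w3_pos (p : ℝ) (y : V n) : 0 < w3 p y :=
  mul_pos (Real.exp_pos _) (Real.rpow_pos_of_pos (jr_pos p y) _)

lemma w3_meas (p : ℝ) : Measurable (w3 p : V n → ℝ) := by
  unfold w3
  apply Measurable.mul
  · apply Continuous.measurable
    fun_prop
  · exact (jr_meas p).pow_const _

lemma w2_eq (p : ℝ) (x y : V n) : w2 p x y = Real.exp (p * ∑ i, x i * y i) * w3 p y := by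
  unfold w2 w3
  rw [← mul_assoc, ← Real.exp_add]
  congr 2
  rw [Finset.mul_sum, ← Finset.sum_add_distrib]
  refine Finset.sum_congr rfl fun i _ => ?_
  ring

lemma w1_int {p : ℝ} (hp : 0 < p) : Integrable (w1 p : V n → ℝ) := by
  obtain ⟨C, c, hC, hc, h⟩ := w1_bound (n := n) hp
  refine ((exp_int hc).const_mul C).mono' (w1_meas p).aestronglyMeasurable
    (Eventually.of_forall fun y => ?_)
  rw [Real.norm_eq_abs, abs_of_pos (w1_pos p y)]
  exact h y

lemma w2_int {p : ℝ} (hp : 0 < p) {x : V n} (hx : x ∈ Om p) : Integrable (w2 p x) := by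
  obtain ⟨C, c, hC, hc, h⟩ := w2_bound (n := n) hp
  refine ((exp_int hc).const_mul C).mono' (w2_meas' p x).aestronglyMeasurable
    (Eventually.of_forall fun y => ?_)
  rw [Real.norm_eq_abs, abs_of_pos (w2_pos p x y)]
  exact h x hx y

lemma univ_vol_ne : (volume : Measure (V n)) univ ≠ 0 :=
  (isOpen_univ.measure_pos volume ⟨0, mem_univ _⟩).ne'

lemma Zc_pos {p : ℝ} (hp : 0 < p) : 0 < Zc n p := by
  unfold Zc
  rw [integral_pos_iff_support_of_nonneg (fun y => (w1_pos p y).le) (w1_int hp)]
  have : Function.support (w1 p : V n → ℝ) = univ := by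
    ext y
    simp [(w1_pos p y).ne']
  rw [this]
  exact isOpen_univ.measure_pos volume ⟨0, mem_univ _⟩

lemma Gf_pos {p : ℝ} (hp : 0 < p) {x : V n} (hx : x ∈ Om p) : 0 < Gf p x := by
  unfold Gf
  rw [integral_pos_iff_support_of_nonneg (fun y => (w2_pos p x y).le) (w2_int hp hx)]
  have : Function.support (w2 p x) = univ := by
    ext y
    simp [(w2_pos p x y).ne']
  rw [this]
  exact isOpen_univ.measure_pos volume ⟨0, mem_univ _⟩

lemma Gf_contOn {p : ℝ} (hp : 0 < p) : ContinuousOn (Gf (n := n) p) (Om p) := by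
  obtain ⟨C, c, hC, hc, h⟩ := w2_bound (n := n) hp
  unfold Gf
  apply continuousOn_of_dominated (bound := fun y => C * Real.exp (-(c * ‖y‖)))
  · intro x _
    exact (w2_meas' p x).aestronglyMeasurable
  · intro x hx
    refine Eventually.of_forall fun y => ?_
    rw [Real.norm_eq_abs, abs_of_pos (w2_pos p x y)]
    exact h x hx y
  · exact (exp_int hc).const_mul C
  · refine Eventually.of_forall fun y => ?_
    apply Continuous.continuousOn
    unfold w2
    fun_prop

lemma Om_convex (p : ℝ) : Convex ℝ (Om (n := n) p) := by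
  intro x hx y hy a b ha hb hab l
  have h1 := hx l
  have h2 := hy l
  have e : bary (a • x + b • y) l = a * bary x l + b * bary y l := by
    refine Fin.cases ?_ (fun j => ?_) l
    · rw [bary_zero, bary_zero, bary_zero]
      simp only [Pi.add_apply, Pi.smul_apply, smul_eq_mul, Finset.sum_add_distrib,
        ← Finset.mul_sum]
      have : b = 1 - a := by linarith
      rw [this]; ring
    · rw [bary_succ, bary_succ, bary_succ]
      rfl
  rw [e]
  calc -(1 / (2 * p * ((n : ℝ) + 1))) = a * -(1 / (2 * p * ((n : ℝ) + 1))) +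
        b * -(1 / (2 * p * ((n : ℝ) + 1))) := by rw [← add_mul, hab, one_mul]
    _ ≤ _ := add_le_add (mul_le_mul_of_nonneg_left h1 ha) (mul_le_mul_of_nonneg_left h2 hb)

lemma Om_closed (p : ℝ) : IsClosed (Om (n := n) p) := by
  have : Om (n := n) p = ⋂ l, {x | -(1 / (2 * p * ((n : ℝ) + 1))) ≤ bary x l} := by
    ext x
    simp [Om]
  rw [this]
  exact isClosed_iInter fun l => isClosed_le continuous_const (bary_apply_cont l)

lemma Gf_sconv {p : ℝ} (hp : 0 < p) : StrictConvexOn ℝ (Om (n := n) p) (Gf p) := by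
  refine ⟨Om_convex p, fun x hx x' hx' hne a b ha hb hab => ?_⟩
  have hm := (Om_convex p) hx hx' ha.le hb.le hab
  simp only [smul_eq_mul]
  set f : V n → ℝ := fun y => (a * w2 p x y + b * w2 p x' y) - w2 p (a • x + b • x') y with hf
  have hpair : ∀ y : V n, p * ∑ i, (a • x + b • x') i * y i =
      a • (p * ∑ i, x i * y i) + b • (p * ∑ i, x' i * y i) := by
    intro y
    simp only [Pi.add_apply, Pi.smul_apply, smul_eq_mul, add_mul, Finset.sum_add_distrib,
      mul_assoc, ← Finset.mul_sum]
    ring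
  have hfn : ∀ y, 0 ≤ f y := by
    intro y
    rw [hf]
    simp only
    rw [w2_eq, w2_eq, w2_eq, hpair]
    have h1 := convexOn_exp.2 (mem_univ (p * ∑ i, x i * y i)) (mem_univ (p * ∑ i, x' i * y i))
      ha.le hb.le hab
    simp only [smul_eq_mul] at h1 ⊢
    have h2 := mul_le_mul_of_nonneg_right h1 (w3_pos p y).le
    linarith
  have hfi : Integrable f := isub (iadd (icst a (w2_int hp hx)) (icst b (w2_int hp hx')))
    (w2_int hp hm)
  have hpos : 0 < ∫ y, f y := by
    rw [integral_pos_iff_support_of_nonneg hfn hfi]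
    have hopen : IsOpen {y : V n | ∑ i, x i * y i ≠ ∑ i, x' i * y i} :=
      isOpen_ne_fun (by fun_prop) (by fun_prop)
    have hnonempty : {y : V n | ∑ i, x i * y i ≠ ∑ i, x' i * y i}.Nonempty := by
      by_contra hcon
      rw [not_nonempty_iff_eq_empty] at hcon
      apply hne
      ext j
      have hj : (Pi.single j 1 : V n) ∉ {y : V n | ∑ i, x i * y i ≠ ∑ i, x' i * y i} := by
        rw [hcon]
        exact notMem_empty _
      simp only [mem_setOf_eq, ne_eq, not_not] at hj
      simpa [Pi.single_apply] using hj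
    refine lt_of_lt_of_le (hopen.measure_pos volume hnonempty) (measure_mono fun y hy => ?_)
    have h1 : p * ∑ i, x i * y i ≠ p * ∑ i, x' i * y i := fun h => hy (mul_left_cancel₀ hp.ne' h)
    have h2 := strictConvexOn_exp.2 (mem_univ (p * ∑ i, x i * y i))
      (mem_univ (p * ∑ i, x' i * y i)) h1 ha hb hab
    have h3 : 0 < f y := by
      rw [hf]
      simp only
      rw [w2_eq, w2_eq, w2_eq, hpair]
      simp only [smul_eq_mul] at h2 ⊢
      have h4 := mul_lt_mul_of_pos_right h2 (w3_pos p y)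
      linarith
    exact h3.ne'
  rw [hf] at hpos
  rw [integral_sub (iadd (icst a (w2_int hp hx)) (icst b (w2_int hp hx'))) (w2_int hp hm),
    integral_add (icst a (w2_int hp hx)) (icst b (w2_int hp hx')), integral_const_mul,
    integral_const_mul] at hpos
  show Gf p (a • x + b • x') < a * Gf p x + b * Gf p x'
  unfold Gf
  linarith

/-! ### symmetries -/

lemma T_cont (A : Matrix (Fin n) (Fin n) ℝ) (b : V n) : Continuous (T A b) := by
  unfold T
  apply Continuous.add_const
  have : A.mulVec = ⇑(Matrix.toLin' A) := by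
    ext1 x
    rw [Matrix.toLin'_apply]
  rw [this]
  exact LinearMap.continuous_of_finiteDimensional _

lemma T_mp {A : Matrix (Fin n) (Fin n) ℝ} (hA : |A.det| = 1) (b : V n) :
    MeasurePreserving (T A b) volume volume := by
  have hD : A.det ≠ 0 := by
    intro h
    rw [h, abs_zero] at hA
    exact zero_ne_one hA
  refine ⟨(T_cont A b).measurable, ?_⟩
  ext E hE
  rw [Measure.map_apply (T_cont A b).measurable hE]
  have h := T_volume hD b ((T_cont A b).measurable hE)
  rw [image_preimage_eq _ (T_surj hD b), hA, ENNReal.ofReal_one, one_mul] at h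
  exact h.symm

lemma T_me {A : Matrix (Fin n) (Fin n) ℝ} (hA : |A.det| = 1) (b : V n) :
    MeasurableEmbedding (T A b) := by
  have hD : A.det ≠ 0 := by
    intro h
    rw [h, abs_zero] at hA
    exact zero_ne_one hA
  exact (T_cont A b).measurableEmbedding (T_inj hD b)

/-- matrix of an exchange of vertices -/
noncomputable def pA (i j : Fin (n + 1)) : Matrix (Fin n) (Fin n) ℝ := LinearMap.toMatrix' (ptl i j)

lemma pA_det (i j : Fin (n + 1)) : |(pA i j).det| = 1 := ptl_det i j

lemma pA_det_ne (i j : Fin (n + 1)) : (pA i j).det ≠ 0 := by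
  intro h
  have := pA_det i j
  rw [h, abs_zero] at this
  exact zero_ne_one this

lemma pt_eq_T (i j : Fin (n + 1)) : pt i j = T (pA i j) (pt i j 0) := pt_T i j

/-- the dual map -/
noncomputable def dt (i j : Fin (n + 1)) (y : V n) : V n := T (pA i j).transpose 0 y

lemma dt_det (i j : Fin (n + 1)) : |(pA i j).transpose.det| = 1 := by
  rw [Matrix.det_transpose]
  exact pA_det i j

lemma pt_pair (i j : Fin (n + 1)) (x y : V n) : ∑ l, pt i j x l * y l =
    ∑ l, x l * dt i j y l + ∑ l, pt i j 0 l * y l := by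
  have h := T_pair (pA i j) (pt i j 0) x y
  rw [← pt_eq_T] at h
  exact h

lemma jr_pt (p : ℝ) (i j : Fin (n + 1)) (y : V n) :
    jr p y = Real.exp (p * ∑ l, pt i j 0 l * y l) * jr p (dt i j y) := by
  have h := J_T (pA_det_ne i j) (pt i j 0) (del_compact (n := n)).measurableSet p y
  rw [← pt_eq_T, pt_image, pA_det, ENNReal.ofReal_one, one_mul] at h
  unfold jr
  rw [h, ENNReal.toReal_mul, ENNReal.toReal_ofReal (Real.exp_pos _).le]
  rfl

lemma pt_gc (i j : Fin (n + 1)) : pt i j (gc n) = gc n := by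
  apply bary_inj
  rw [bary_pt, bary_gc]
  rfl

lemma gc_pair (i j : Fin (n + 1)) (y : V n) : ∑ l, gc n l * y l =
    ∑ l, gc n l * dt i j y l + ∑ l, pt i j 0 l * y l := by
  have h := pt_pair i j (gc n) y
  rw [pt_gc] at h
  exact h

lemma w1_dt {p : ℝ} (hp : 0 < p) (i j : Fin (n + 1)) (y : V n) : w1 p (dt i j y) = w1 p y := by
  unfold w1
  rw [jr_pt p i j y, gc_pair i j y,
    Real.mul_rpow (Real.exp_pos _).le (jr_pos p _).le, ← Real.exp_mul, ← mul_assoc,
    ← Real.exp_add]
  congr 2
  field_simp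
  ring

lemma w2_pt {p : ℝ} (hp : 0 < p) (i j : Fin (n + 1)) (x y : V n) :
    w2 p (pt i j x) y = w2 p x (dt i j y) := by
  rw [w2_eq, w2_eq]
  unfold w3
  rw [jr_pt p i j y, gc_pair i j y, pt_pair i j x y,
    Real.mul_rpow (Real.exp_pos _).le (jr_pos p _).le, ← Real.exp_mul]
  have e : Real.exp (p * (∑ l, x l * dt i j y l + ∑ l, pt i j 0 l * y l)) *
      (Real.exp (∑ l, gc n l * dt i j y l + ∑ l, pt i j 0 l * y l) *
      (Real.exp (p * (∑ l, pt i j 0 l * y l) * -(1 + 1 / p)) *
        jr p (dt i j y) ^ (-(1 + 1 / p)))) =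
      (Real.exp (p * (∑ l, x l * dt i j y l + ∑ l, pt i j 0 l * y l)) *
      Real.exp (∑ l, gc n l * dt i j y l + ∑ l, pt i j 0 l * y l) *
      Real.exp (p * (∑ l, pt i j 0 l * y l) * -(1 + 1 / p))) *
        jr p (dt i j y) ^ (-(1 + 1 / p)) := by ring
  rw [e, ← Real.exp_add, ← Real.exp_add, ← mul_assoc, ← Real.exp_add]
  congr 2
  field_simp
  ring

lemma Gf_pt {p : ℝ} (hp : 0 < p) (i j : Fin (n + 1)) (x : V n) : Gf p (pt i j x) = Gf p x := by
  unfold Gf
  simp only [w2_pt hp]
  exact (T_mp (dt_det i j) 0).integral_comp (T_me (dt_det i j) 0) (w2 p x)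

lemma first_moment {p : ℝ} (hp : 0 < p) (i : Fin n) : ∫ y : V n, y i * w1 p y = 0 := by
  have h := (T_mp (dt_det 0 i.succ) 0).integral_comp (T_me (dt_det 0 i.succ) 0)
    (fun y : V n => y i * w1 p y)
  have e1 : ∀ y : V n, dt 0 i.succ y i = -y i := by
    intro y
    have h1 := pt_pair 0 i.succ (Pi.single i 1 : V n) y
    have h2 : ∑ l, (Pi.single i 1 : V n) l * dt 0 i.succ y l = dt 0 i.succ y i := by
      simp [Pi.single_apply]
    rw [h2] at h1
    have h3 : ∀ l, pt 0 i.succ (Pi.single i 1 : V n) l - pt 0 i.succ 0 l =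
        if l = i then -1 else 0 := by
      intro l
      show bary _ (Equiv.swap 0 i.succ l.succ) - bary _ (Equiv.swap 0 i.succ l.succ) = _
      by_cases hl : l = i
      · subst hl
        rw [Equiv.swap_apply_right, bary_zero, bary_zero, if_pos rfl]
        simp
      · rw [Equiv.swap_apply_of_ne_of_ne (Fin.succ_ne_zero l)
          (fun h => hl (Fin.succ_injective _ h)), bary_succ, bary_succ, if_neg hl]
        simp [hl]
    have h4 : dt 0 i.succ y i = ∑ l, (pt 0 i.succ (Pi.single i 1 : V n) l -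
        pt 0 i.succ 0 l) * y l := by
      simp only [sub_mul, Finset.sum_sub_distrib]
      linarith
    rw [h4]
    simp only [h3, ite_mul, zero_mul, neg_mul, one_mul]
    rw [Finset.sum_ite_eq' Finset.univ i, if_pos (Finset.mem_univ i)]
  have h2 : ∫ y : V n, (T (pA 0 i.succ).transpose 0 y) i * w1 p (T (pA 0 i.succ).transpose 0 y) =
      ∫ y : V n, -(y i * w1 p y) := by
    refine integral_congr_ae (Eventually.of_forall fun y => ?_)
    show dt 0 i.succ y i * w1 p (dt 0 i.succ y) = _
    rw [e1, w1_dt hp]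
    ring
  rw [h2, integral_neg] at h
  linarith

/-- Tonelli -/
lemma Gf_tonelli {p : ℝ} (hp : 0 < p) {E : Set (V n)} (hE : MeasurableSet E)
    (hsub : E ⊆ Om p) : ∫⁻ x in E, ENNReal.ofReal (Gf p x) =
      ∫⁻ y : V n, ENNReal.ofReal (w3 p y) * J p E y := by
  have h1 : ∫⁻ x in E, ENNReal.ofReal (Gf p x) =
      ∫⁻ x in E, ∫⁻ y : V n, ENNReal.ofReal (w2 p x y) := by
    apply setLIntegral_congr_fun hE
    intro x hx
    show ENNReal.ofReal (Gf p x) = ∫⁻ y : V n, ENNReal.ofReal (w2 p x y)
    unfold Gf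
    rw [ofReal_integral_eq_lintegral_ofReal (w2_int hp (hsub hx))
      (Eventually.of_forall fun y => (w2_pos p x y).le)]
  rw [h1, lintegral_lintegral_swap]
  · refine lintegral_congr fun y => ?_
    unfold J
    rw [← lintegral_const_mul' _ _ ENNReal.ofReal_ne_top]
    refine lintegral_congr fun x => ?_
    rw [w2_eq, ENNReal.ofReal_mul (Real.exp_pos _).le, mul_comm]
  · exact (w2_meas p).ennreal_ofReal.aemeasurable

end Pool.Agent.H5.SM
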