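import Pool.Agent.H5.SM.D7

/-! The average of the potential over a facet. -/

set_option autoImplicit false

open MeasureTheory Set Filter
open scoped ENNReal Topology

namespace Pool.Agent.H5.SM

open Pool.Agent.H5.LP (V Del T T_lintegral T_volume T_inj T_surj T_pair J J_pos J_fin J_T I I_T
  del_compact del_vol_ne_zero del_vol_ne_top)

variable {n k : ℕ}

/-- the functional of the simplex -/
lemma I_del {p : ℝ} (hp : 0 < p) : I p (Del n) (gc n) = ENNReal.ofReal (Zc n p) := by
  unfold I Zc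
  rw [ofReal_integral_eq_lintegral_ofReal (w1_int hp) (Eventually.of_forall fun y =>
    (w1_pos p y).le)]
  refine lintegral_congr fun y => ?_
  unfold w1
  rw [ENNReal.ofReal_mul (Real.exp_pos _).le, Real.rpow_neg (jr_pos p y).le,
    ENNReal.ofReal_inv_of_pos (Real.rpow_pos_of_pos (jr_pos p y) _),
    ← ENNReal.ofReal_rpow_of_pos (jr_pos p y), jr_ofReal]

/-- convexity of the negative power -/
lemma rpow_conv {a d s : ℝ} (ha : 0 < a) (hd : 0 ≤ d) (hs : 0 < s) :
    a ^ (-s) ≤ (a + d) ^ (-s) + s * a ^ (-(1 + s)) * d := by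
  have h1 : a + d = a * (1 + d / a) := by field_simp
  have h2 : 0 < 1 + d / a := by positivity
  rw [h1, Real.mul_rpow ha.le h2.le]
  have h3 : 1 - s * (d / a) ≤ (1 + d / a) ^ (-s) := by
    rw [Real.rpow_def_of_pos h2]
    have h4 : Real.log (1 + d / a) ≤ d / a := by
      have := Real.log_le_sub_one_of_pos h2
      linarith
    have h5 := Real.add_one_le_exp (Real.log (1 + d / a) * -s)
    nlinarith
  have h6 : a ^ (-(1 + s)) = a ^ (-s) / a := by
    rw [neg_add, add_comm, ← sub_eq_add_neg, Real.rpow_sub ha, Real.rpow_one]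
  rw [h6]
  have h7 : 0 < a ^ (-s) := Real.rpow_pos_of_pos ha _
  have h8 := mul_le_mul_of_nonneg_left h3 h7.le
  have h9 : s * (a ^ (-s) / a) * d = a ^ (-s) * (s * (d / a)) := by ring
  rw [h9]
  linarith

/-- dilation about the centroid -/
noncomputable def dl (u : ℝ) : V n → V n := T (u • (1 : Matrix (Fin n) (Fin n) ℝ)) ((1 - u) • gc n)

lemma dl_det {u : ℝ} (hu : 0 < u) : (u • (1 : Matrix (Fin n) (Fin n) ℝ)).det ≠ 0 := by
  rw [sT_det]; positivity

lemma dl_apply (u : ℝ) (x : V n) : dl u x = u • x + (1 - u) • gc n := sT _ _ _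

lemma bary_dl (u : ℝ) (x : V n) (l : Fin (n + 1)) : bary (dl u x) l =
    u * bary x l + (1 - u) * cen n l := by
  rw [dl_apply, ← bary_gc]
  refine Fin.cases ?_ (fun j => ?_) l
  · rw [bary_zero, bary_zero, bary_zero]
    simp only [Pi.add_apply, Pi.smul_apply, smul_eq_mul, Finset.sum_add_distrib, ← Finset.mul_sum]
    ring
  · rw [bary_succ, bary_succ, bary_succ]
    rfl

lemma dl_gc (u : ℝ) : dl u (gc n) = gc n := by
  rw [dl_apply, ← add_smul]
  simp

lemma del_sub_dl {u : ℝ} (hu : 1 ≤ u) : Del n ⊆ dl u '' Del n := by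
  intro x hx
  have hu0 : 0 < u := by linarith
  obtain ⟨z, rfl⟩ := T_surj (dl_det hu0) ((1 - u) • gc n) x
  refine ⟨z, ?_, rfl⟩
  have hx' := bary_mem.2 hx
  rw [← bary_mem]
  refine ⟨fun l => ?_, bary_sum _⟩
  have h1 := hx'.1 l
  change 0 ≤ bary (dl u z) l at h1
  rw [bary_dl] at h1
  have h2 : 0 ≤ cen n l := cen_mem.1 l
  by_contra hcon
  have h3 : u * bary z l < 0 := mul_neg_of_pos_of_neg hu0 (not_le.1 hcon)
  nlinarith

lemma dl_sub_Om {p u : ℝ} (hp : 0 < p) (hu : 1 ≤ u) (hu' : u ≤ 1 + 1 / (2 * p)) :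
    dl u '' Del n ⊆ Om p := by
  rintro _ ⟨x, hx, rfl⟩ l
  rw [bary_dl]
  have h1 := (bary_mem.2 hx).1 l
  have h2 : 0 ≤ u * bary x l := mul_nonneg (by linarith) h1
  have h3 : cen n l = 1 / ((n : ℝ) + 1) := rfl
  have hn : (0 : ℝ) < (n : ℝ) + 1 := by positivity
  rw [h3]
  have h4 : -(1 / (2 * p * ((n : ℝ) + 1))) = -(1 / (2 * p)) * (1 / ((n : ℝ) + 1)) := by
    field_simp
  rw [h4]
  have h5 : -(1 / (2 * p)) * (1 / ((n : ℝ) + 1)) ≤ (1 - u) * (1 / ((n : ℝ) + 1)) :=
    mul_le_mul_of_nonneg_right (by linarith) (by positivity)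
  linarith

lemma dl_meas {u : ℝ} : MeasurableSet (dl u '' Del n) :=
  (del_compact.image (T_cont _ _)).measurableSet

/-- first step: comparison with a dilated simplex -/
lemma step_A {p u : ℝ} (hp : 0 < p) (hu : 1 ≤ u) (hu' : u ≤ 1 + 1 / (2 * p)) :
    ENNReal.ofReal (Zc n p) ≤ ENNReal.ofReal (u ^ (-((n : ℝ) * (1 + 1 / p))) * Zc n p) +
      ENNReal.ofReal (1 / p) * ∫⁻ x in dl u '' Del n \ Del n, ENNReal.ofReal (Gf p x) := by
  have hu0 : 0 < u := by linarith
  have hs : 0 < 1 / p := by positivity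
  set R := dl u '' Del n \ Del n with hR
  have hRm : MeasurableSet R := dl_meas.diff del_compact.measurableSet
  have hRO : R ⊆ Om p := sdiff_subset.trans (dl_sub_Om hp hu hu')
  have hcomp : IsCompact (dl u '' Del n) := del_compact.image (T_cont _ _)
  have hJ : ∀ y : V n, J p (dl u '' Del n) y = J p (Del n) y + J p R y := by
    intro y
    unfold J
    rw [← lintegral_union hRm disjoint_sdiff_right, union_sdiff_cancel (del_sub_dl hu)]
  -- value for the dilated simplex
  have hI : I p (dl u '' Del n) (gc n) =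
      ENNReal.ofReal (u ^ (-((n : ℝ) * (1 + 1 / p))) * Zc n p) := by
    have h := I_T (dl_det (n := n) hu0) ((1 - u) • gc n) (del_compact (n := n)).measurableSet hp
      (gc n)
    have e1 : T (u • (1 : Matrix (Fin n) (Fin n) ℝ)) ((1 - u) • gc n) (gc n) = gc n := dl_gc u
    rw [e1, sT_det, abs_of_pos (by positivity), ENNReal.ofReal_rpow_of_pos (by positivity),
      I_del hp] at h
    have hpos : 0 < (u ^ n) ^ (1 + 1 / p) := Real.rpow_pos_of_pos (by positivity) _
    have e2 : u ^ (-((n : ℝ) * (1 + 1 / p))) = ((u ^ n) ^ (1 + 1 / p))⁻¹ := by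
      rw [← Real.rpow_natCast, ← Real.rpow_mul hu0.le, Real.rpow_neg hu0.le]
    rw [e2, ENNReal.ofReal_mul (by positivity), ENNReal.ofReal_inv_of_pos hpos, ← h,
      ← mul_assoc, ENNReal.inv_mul_cancel (ENNReal.ofReal_pos.2 hpos).ne' ENNReal.ofReal_ne_top,
      one_mul]
    rfl
  rw [← hI, Gf_tonelli hp hRm hRO, ← lintegral_const_mul' _ _ ENNReal.ofReal_ne_top]
  unfold I
  rw [← lintegral_add_left]
  · rw [← I_del hp]
    unfold I
    apply lintegral_mono
    intro y
    simp only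
    have hJu : J p (dl u '' Del n) y ≠ ∞ := J_fin hcomp y
    have hJR : J p R y ≠ ∞ := by
      refine ne_top_of_le_ne_top hJu ?_
      rw [hJ]
      exact le_add_self
    set a := jr p y with ha
    set d := (J p R y).toReal with hd
    have ha0 : 0 < a := jr_pos p y
    have hd0 : 0 ≤ d := ENNReal.toReal_nonneg
    have e1 : J p (Del n) y = ENNReal.ofReal a := (jr_ofReal p y).symm
    have e2 : J p R y = ENNReal.ofReal d := (ENNReal.ofReal_toReal hJR).symm
    have e3 : J p (dl u '' Del n) y = ENNReal.ofReal (a + d) := by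
      rw [hJ, e1, e2, ENNReal.ofReal_add ha0.le hd0]
    rw [e1, e2, e3, ENNReal.ofReal_rpow_of_pos ha0, ENNReal.ofReal_rpow_of_pos (by positivity),
      ← ENNReal.ofReal_inv_of_pos (Real.rpow_pos_of_pos ha0 _),
      ← ENNReal.ofReal_inv_of_pos (Real.rpow_pos_of_pos (by positivity) _),
      ← ENNReal.ofReal_mul (Real.exp_pos _).le, ← ENNReal.ofReal_mul (Real.exp_pos _).le,
      ← ENNReal.ofReal_mul (w3_pos p y).le, ← ENNReal.ofReal_mul hs.le,
      ← ENNReal.ofReal_add (by positivity) (by positivity [w3_pos p y])]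
    apply ENNReal.ofReal_le_ofReal
    rw [← Real.rpow_neg ha0.le, ← Real.rpow_neg (by positivity)]
    unfold w3
    rw [← ha]
    have h := mul_le_mul_of_nonneg_left (rpow_conv ha0 hd0 hs)
      (Real.exp_pos (∑ i, gc n i * y i)).le
    calc _ ≤ _ := h
      _ = _ := by ring
  · apply Measurable.mul
    · apply Measurable.ennreal_ofReal
      apply Continuous.measurable
      fun_prop
    · exact ((J_meas p _).pow_const _).inv

lemma dl_cn (u : ℝ) (i : Fin (k + 2)) (r : ℝ) (ν : V k) : dl u (cn i r ν) = cn i (u * r) ν := by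
  apply bary_inj
  ext l
  rw [bary_dl, bary_cn, bary_cn]
  unfold cb
  ring

lemma cn_last_eq {p : ℝ} (hp : 0 < p) (i : Fin (k + 2)) (r : ℝ) (ν : V k) :
    Gf p (cn i r ν) = Gf p (cn (Fin.last (k + 1)) r ν) := by
  rw [← pt_cn, Gf_pt hp]

/-- the potential in barycentric coordinates -/
noncomputable def Gb (p : ℝ) (μ : Fin (n + 1) → ℝ) : ℝ := Gf p (fun i : Fin n => μ i.succ)

lemma Gb_bary (p : ℝ) (x : V n) : Gb p (bary x) = Gf p x := rfl

/-- the potential on the last facet -/
noncomputable def Gfac (p : ℝ) (μ : Fin (k + 1) → ℝ) : ℝ := Gb (n := k + 1) p (ins μ)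

lemma Gfac_eq (p : ℝ) (ν : V k) : Gfac p (bary ν) = Gf p (cn (Fin.last (k + 1)) 1 ν) := by
  unfold Gfac
  rw [← Gb_bary, bary_cn, cb_last_one]

lemma Gb_contOn {p : ℝ} (hp : 0 < p) : ContinuousOn (Gb (n := n) p) (St n) := by
  have h1 : Continuous (fun μ : Fin (n + 1) → ℝ => (fun i : Fin n => μ i.succ)) := by fun_prop
  apply (Gf_contOn hp).comp h1.continuousOn
  intro μ hμ
  exact del_sub_Om hp (tail_mem hμ)

lemma Gfac_contOn {p : ℝ} (hp : 0 < p) : ContinuousOn (Gfac (k := k) p) (St k) :=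
  (Gb_contOn hp).comp ins_cont.continuousOn fun _ h => ins_mem h

lemma Gfac_sym {p : ℝ} (hp : 0 < p) : Sym k (Gfac (k := k) p) := by
  intro i j μ hμ
  have h1 : bary (fun l : Fin k => μ l.succ) = μ := bary_tail hμ.2
  have h2 : (fun l => μ (Equiv.swap i j l)) = bary (pt i j (fun l : Fin k => μ l.succ)) := by
    rw [bary_pt, h1]
  unfold Gfac
  rw [ins_swap]
  have h3 : bary (fun l : Fin (k + 1) => ins μ l.succ) = ins μ := bary_tail (ins_mem hμ).2
  have h4 : (fun l => ins μ (Equiv.swap i.castSucc j.castSucc l)) =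
      bary (pt i.castSucc j.castSucc (fun l : Fin (k + 1) => ins μ l.succ)) := by
    rw [bary_pt, h3]
  rw [h4, Gb_bary, Gf_pt hp]
  rfl

lemma Gfac_sconv {p : ℝ} (hp : 0 < p) : StrictConvexOn ℝ (St k) (Gfac (k := k) p) := by
  refine ⟨convex_stdSimplex ℝ _, fun μ hμ μ' hμ' hne a b ha hb hab => ?_⟩
  have h1 : (fun i : Fin (k + 1) => ins μ i.succ) ∈ Om p := del_sub_Om hp (tail_mem (ins_mem hμ))
  have h2 : (fun i : Fin (k + 1) => ins μ' i.succ) ∈ Om p :=
    del_sub_Om hp (tail_mem (ins_mem hμ'))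
  have hne' : (fun i : Fin (k + 1) => ins μ i.succ) ≠ (fun i : Fin (k + 1) => ins μ' i.succ) := by
    intro h
    have h3 : ins μ = ins μ' := by
      rw [← bary_tail (ins_mem hμ).2, ← bary_tail (ins_mem hμ').2, h]
    apply hne
    ext l
    have := congrFun h3 l.castSucc
    rwa [ins_castSucc, ins_castSucc] at this
  have h := (Gf_sconv (n := k + 1) hp).2 h1 h2 hne' ha hb hab
  unfold Gfac Gb
  rw [ins_affine]
  exact h

lemma Br_eq_lintegral {F : (Fin (k + 1) → ℝ) → ℝ} (hF : ContinuousOn F (St k))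
    (hn : ∀ μ ∈ St k, 0 ≤ F μ) :
    ENNReal.ofReal (Br k F) = ∫⁻ ν in Del k, ENNReal.ofReal (F (bary ν)) := by
  unfold Br
  rw [ofReal_integral_eq_lintegral_ofReal (bary_integrable hF)]
  · rfl
  · filter_upwards [ae_mem] with x hx
    exact hn _ (bary_mem.2 hx)

/-- second step -/
lemma step_B {p u u₀ M : ℝ} (hp : 0 < p) (hu : 1 < u) (huu : u ≤ u₀)
    (hu' : u₀ ≤ 1 + 1 / (2 * p)) (hM0 : 0 ≤ M) (hM : ∀ x ∈ dl u₀ '' Del (k + 1), Gf p x ≤ M) :
    ∫⁻ x in dl u '' Del (k + 1) \ Del (k + 1), ENNReal.ofReal (Gf p x) ≤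
      ENNReal.ofReal (u ^ (k + 1) * ((1 - u⁻¹) *
        (Br k (Gfac p) + (u - 1) / (u₀ - 1) * M * vol k))) := by
  have hu0 : 0 < u := by linarith
  have hu00 : 0 < u₀ - 1 := by linarith
  have hk2 : (0 : ℝ) < (k : ℝ) + 2 := by positivity
  have hui : u⁻¹ < 1 := inv_lt_one_of_one_lt₀ hu
  set f : V (k + 1) → ℝ≥0∞ := fun x => (Del (k + 1))ᶜ.indicator
    (fun x => ENNReal.ofReal (Gf p x)) x with hf
  have hGm : Measurable (fun x : V (k + 1) => ENNReal.ofReal (Gf p x)) := by
    apply Measurable.ennreal_ofReal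
    unfold Gf
    exact (StronglyMeasurable.integral_prod_right (w2_meas p).stronglyMeasurable).measurable
  have hfm : Measurable f := hGm.indicator del_compact.measurableSet.compl
  have e1 : ∫⁻ x in dl u '' Del (k + 1) \ Del (k + 1), ENNReal.ofReal (Gf p x) =
      ∫⁻ x in dl u '' Del (k + 1), f x := by
    rw [hf, lintegral_indicator del_compact.measurableSet.compl,
      Measure.restrict_restrict del_compact.measurableSet.compl, sdiff_eq, inter_comm]
  have e2 : ∫⁻ x in dl u '' Del (k + 1), f x =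
      ENNReal.ofReal (u ^ (k + 1)) * ∫⁻ x in Del (k + 1), f (dl u x) := by
    have h := T_lintegral (dl_det (n := k + 1) hu0) ((1 - u) • gc (k + 1))
      (del_compact (n := k + 1)).measurableSet f
    rw [sT_det, abs_of_pos (by positivity), lintegral_const_mul' _ _ ENNReal.ofReal_ne_top] at h
    exact h
  have hdl : Measurable (dl (n := k + 1) u) := (T_cont _ _).measurable
  have e3 := lintegral_cones (hfm.comp hdl)
  simp only [Function.comp_apply, dl_cn] at e3
  set B : ℝ := Br k (Gfac p) + (u - 1) / (u₀ - 1) * M * vol k with hB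
  have hGf0 : ∀ μ ∈ St k, 0 ≤ Gfac p μ := fun μ hμ =>
    (Gf_pos hp (del_sub_Om hp (tail_mem (ins_mem hμ)))).le
  have hBn : 0 ≤ B := by
    have h1 : 0 ≤ Br k (Gfac p) := by
      have h := Br_mono (F := fun _ => (0 : ℝ)) continuousOn_const (Gfac_contOn hp) hGf0
      rw [Br_const, zero_mul] at h
      exact h
    have := vol_pos (n := k)
    have : 0 ≤ (u - 1) / (u₀ - 1) := div_nonneg (by linarith) hu00.le
    positivity
  have key : ∀ i : Fin (k + 2), ∀ r ∈ Icc (0 : ℝ) 1, ENNReal.ofReal (r ^ k) *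
      ∫⁻ ν in Del k, f (cn i (u * r) ν) ≤ (Ioc u⁻¹ 1).indicator (fun _ => ENNReal.ofReal B) r := by
    intro i r hr
    by_cases hur : r ≤ u⁻¹
    · have h1 : u * r ≤ 1 := by
        have := mul_le_mul_of_nonneg_left hur hu0.le
        rwa [mul_inv_cancel₀ hu0.ne'] at this
      have h2 : ∫⁻ ν in Del k, f (cn i (u * r) ν) = 0 := by
        rw [lintegral_eq_zero_of_ae_eq_zero]
        filter_upwards [ae_restrict_mem del_compact.measurableSet] with ν hν
        show (Del (k + 1))ᶜ.indicator _ (cn i (u * r) ν) = 0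
        rw [indicator_of_notMem]
        intro hcon
        exact hcon (cn_mem i (mul_nonneg hu0.le hr.1) h1 hν)
      rw [h2, mul_zero]
      exact zero_le
    · have hur' := not_le.1 hur
      rw [indicator_of_mem (show r ∈ Ioc u⁻¹ 1 from ⟨hur', hr.2⟩)]
      have h1 : 1 < u * r := by
        have := mul_lt_mul_of_pos_left hur' hu0
        rwa [mul_inv_cancel₀ hu0.ne'] at this
      have h1' : u * r ≤ u := by nlinarith [hr.2]
      set lam := (u * r - 1) / (u₀ - 1) with hlam
      have hl0 : 0 ≤ lam := div_nonneg (by linarith) hu00.le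
      have hl1 : lam ≤ 1 := by
        rw [hlam, div_le_one hu00]
        linarith
      have hl2 : lam ≤ (u - 1) / (u₀ - 1) := by
        rw [hlam]
        exact div_le_div_of_nonneg_right (by linarith) hu00.le
      have hle : ∀ ν ∈ Del k, f (cn i (u * r) ν) ≤
          ENNReal.ofReal (Gfac p (bary ν) + (u - 1) / (u₀ - 1) * M) := by
        intro ν hν
        refine (indicator_le_self' (fun _ _ => zero_le) _).trans ?_
        apply ENNReal.ofReal_le_ofReal
        rw [cn_last_eq hp, Gfac_eq]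
        set L := Fin.last (k + 1) with hL
        have e4 : cn L (u * r) ν = (1 - lam) • cn L 1 ν + lam • cn L u₀ ν := by
          apply bary_inj
          ext l
          have e5 : bary ((1 - lam) • cn L 1 ν + lam • cn L u₀ ν) l =
              (1 - lam) * bary (cn L 1 ν) l + lam * bary (cn L u₀ ν) l := by
            refine Fin.cases ?_ (fun j => ?_) l
            · rw [bary_zero, bary_zero, bary_zero]
              simp only [Pi.add_apply, Pi.smul_apply, smul_eq_mul, Finset.sum_add_distrib,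
                ← Finset.mul_sum]
              ring
            · rw [bary_succ, bary_succ, bary_succ]
              rfl
          rw [e5, bary_cn, bary_cn, bary_cn]
          unfold cb
          have e6 : u * r = 1 + lam * (u₀ - 1) := by
            rw [hlam]
            field_simp
            ring
          rw [e6]
          ring
        have m1 : cn L 1 ν ∈ Om p := del_sub_Om hp (cn_mem L zero_le_one le_rfl hν)
        have m2' : cn L u₀ ν ∈ dl u₀ '' Del (k + 1) := by
          refine ⟨cn L 1 ν, cn_mem L zero_le_one le_rfl hν, ?_⟩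
          rw [dl_cn, mul_one]
        have m2 : cn L u₀ ν ∈ Om p := dl_sub_Om hp (by linarith) hu' m2'
        rw [e4]
        have h3 := (Gf_sconv hp).convexOn.2 m1 m2 (by linarith : 0 ≤ 1 - lam) hl0 (by ring)
        simp only [smul_eq_mul] at h3
        have h4 := Gf_pos hp m1
        have h5 := hM _ m2'
        have h6 : lam * Gf p (cn L u₀ ν) ≤ lam * M := mul_le_mul_of_nonneg_left h5 hl0
        have h7 : lam * M ≤ (u - 1) / (u₀ - 1) * M := mul_le_mul_of_nonneg_right hl2 hM0
        nlinarith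
      have h2 : ∫⁻ ν in Del k, f (cn i (u * r) ν) ≤ ENNReal.ofReal B := by
        calc ∫⁻ ν in Del k, f (cn i (u * r) ν)
            ≤ ∫⁻ ν in Del k, ENNReal.ofReal (Gfac p (bary ν) + (u - 1) / (u₀ - 1) * M) :=
              setLIntegral_mono' del_compact.measurableSet hle
          _ = ENNReal.ofReal (Br k (fun μ => Gfac p μ + (u - 1) / (u₀ - 1) * M)) := by
              rw [Br_eq_lintegral (cadd (Gfac_contOn hp) continuousOn_const)]
              intro μ hμ
              have := hGf0 μ hμ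
              have : 0 ≤ (u - 1) / (u₀ - 1) := div_nonneg (by linarith) hu00.le
              positivity
          _ = ENNReal.ofReal B := by
              rw [Br_add (Gfac_contOn hp) continuousOn_const, Br_const, Br_one]
              rfl
      calc ENNReal.ofReal (r ^ k) * ∫⁻ ν in Del k, f (cn i (u * r) ν)
          ≤ 1 * ENNReal.ofReal B := by
            apply mul_le_mul' _ h2
            rw [← ENNReal.ofReal_one]
            exact ENNReal.ofReal_le_ofReal (pow_le_one₀ hr.1 hr.2)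
        _ = _ := one_mul _
  have hterm : ∀ i : Fin (k + 2), ∫⁻ r in Icc (0 : ℝ) 1, ENNReal.ofReal (r ^ k) *
      ∫⁻ ν in Del k, f (cn i (u * r) ν) ≤ ENNReal.ofReal ((1 - u⁻¹) * B) := by
    intro i
    calc ∫⁻ r in Icc (0 : ℝ) 1, ENNReal.ofReal (r ^ k) * ∫⁻ ν in Del k, f (cn i (u * r) ν)
        ≤ ∫⁻ r in Icc (0 : ℝ) 1, (Ioc u⁻¹ 1).indicator (fun _ => ENNReal.ofReal B) r :=
          setLIntegral_mono' measurableSet_Icc (key i)
      _ ≤ ∫⁻ r, (Ioc u⁻¹ 1).indicator (fun _ => ENNReal.ofReal B) r := setLIntegral_le_lintegral _ _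
      _ = ENNReal.ofReal B * volume (Ioc u⁻¹ (1 : ℝ)) := by
          rw [lintegral_indicator measurableSet_Ioc, setLIntegral_const]
      _ = ENNReal.ofReal ((1 - u⁻¹) * B) := by
          rw [Real.volume_Ioc, ← ENNReal.ofReal_mul hBn, mul_comm]
  rw [e1, e2, e3, ENNReal.ofReal_mul (by positivity)]
  apply mul_le_mul' le_rfl
  calc ∑ i : Fin (k + 2), ENNReal.ofReal (1 / ((k : ℝ) + 2)) * ∫⁻ r in Icc (0 : ℝ) 1,
        ENNReal.ofReal (r ^ k) * ∫⁻ ν in Del k, f (cn i (u * r) ν)
      ≤ ∑ _i : Fin (k + 2), ENNReal.ofReal (1 / ((k : ℝ) + 2)) *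
        ENNReal.ofReal ((1 - u⁻¹) * B) :=
        Finset.sum_le_sum fun i _ => mul_le_mul' le_rfl (hterm i)
    _ = ENNReal.ofReal ((1 - u⁻¹) * B) := by
        rw [Finset.sum_const, Finset.card_univ, Fintype.card_fin, nsmul_eq_mul, ← mul_assoc]
        have h2 : ((k + 2 : ℕ) : ℝ≥0∞) * ENNReal.ofReal (1 / ((k : ℝ) + 2)) = 1 := by
          rw [← ENNReal.ofReal_natCast, ← ENNReal.ofReal_mul (by positivity)]
          push_cast
          rw [mul_one_div_cancel hk2.ne', ENNReal.ofReal_one]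
        rw [h2, one_mul]

/-- **the average of the potential over a facet** -/
theorem facet_avg {p : ℝ} (hp : 0 < p) :
    ((k : ℝ) + 1) * (1 + p) * Zc (k + 1) p ≤ Br k (Gfac p) := by
  have hZ := Zc_pos (n := k + 1) hp
  set u₀ : ℝ := 1 + 1 / (2 * p) with hu₀
  have hu₀1 : 1 < u₀ := by
    have : 0 < 1 / (2 * p) := by positivity
    linarith
  have hcomp : IsCompact (dl u₀ '' Del (k + 1)) := del_compact.image (T_cont _ _)
  have hsub : dl u₀ '' Del (k + 1) ⊆ Om p := dl_sub_Om hp hu₀1.le le_rfl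
  obtain ⟨M₁, hM₁⟩ := (hcomp.image_of_continuousOn
    ((Gf_contOn hp).mono hsub)).isBounded.exists_norm_le
  set M := max M₁ 0 with hM
  have hM0 : 0 ≤ M := le_max_right _ _
  have hMb : ∀ x ∈ dl u₀ '' Del (k + 1), Gf p x ≤ M := fun x hx =>
    (le_abs_self _).trans ((hM₁ _ ⟨x, hx, rfl⟩).trans (le_max_left _ _))
  set a : ℝ := ((k : ℝ) + 1) * (1 + 1 / p) with ha
  have ha0 : 0 < a := by positivity
  set b₁ := Br k (Gfac p) with hb₁
  set Rh : ℝ → ℝ := fun u => 1 / p * (u ^ (k + 1) * (b₁ + (u - 1) / (u₀ - 1) * M * vol k) *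
    (1 + a * (1 - u⁻¹))) with hRh
  have hineq : ∀ u, 1 < u → u ≤ u₀ → a * Zc (k + 1) p ≤ Rh u := by
    intro u hu huu
    have hu0 : 0 < u := by linarith
    have hv : 0 < 1 - u⁻¹ := by
      have := inv_lt_one_of_one_lt₀ hu
      linarith
    have hA := step_A (n := k + 1) hp hu.le huu
    have hB := step_B (k := k) hp hu huu le_rfl hM0 hMb
    set X := b₁ + (u - 1) / (u₀ - 1) * M * vol k with hX
    have hGf0 : ∀ μ ∈ St k, 0 ≤ Gfac p μ := fun μ hμ =>
      (Gf_pos hp (del_sub_Om hp (tail_mem (ins_mem hμ)))).le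
    have hXn : 0 ≤ X := by
      have h1 : 0 ≤ Br k (Gfac p) := by
        have h := Br_mono (F := fun _ => (0 : ℝ)) continuousOn_const (Gfac_contOn hp) hGf0
        rw [Br_const, zero_mul] at h
        exact h
      have := vol_pos (n := k)
      have : 0 ≤ (u - 1) / (u₀ - 1) := div_nonneg (by linarith) (by linarith)
      positivity
    have hC : ENNReal.ofReal (Zc (k + 1) p) ≤
        ENNReal.ofReal (u ^ (-(((k + 1 : ℕ) : ℝ) * (1 + 1 / p))) * Zc (k + 1) p +
          1 / p * (u ^ (k + 1) * ((1 - u⁻¹) * X))) := by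
      rw [ENNReal.ofReal_add (by positivity) (by positivity),
        ENNReal.ofReal_mul (by positivity : 0 ≤ 1 / p)]
      exact hA.trans (add_le_add le_rfl (mul_le_mul' le_rfl hB))
    rw [ENNReal.ofReal_le_ofReal_iff (by positivity)] at hC
    have e1 : (((k + 1 : ℕ) : ℝ) * (1 + 1 / p)) = a := by
      rw [ha]; push_cast; ring
    rw [e1] at hC
    -- the power
    have h3 : u ^ (-a) ≤ (1 + a * (1 - u⁻¹))⁻¹ := by
      rw [Real.rpow_neg hu0.le]
      apply inv_anti₀ (by positivity)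
      have h4 : 1 - u⁻¹ ≤ Real.log u := Real.one_sub_inv_le_log_of_pos hu0
      have h5 := Real.add_one_le_exp (Real.log u * a)
      rw [Real.rpow_def_of_pos hu0]
      nlinarith
    have hD : 0 < 1 + a * (1 - u⁻¹) := by positivity
    have h6 : Zc (k + 1) p ≤ (1 + a * (1 - u⁻¹))⁻¹ * Zc (k + 1) p +
        1 / p * (u ^ (k + 1) * ((1 - u⁻¹) * X)) :=
      hC.trans (add_le_add (mul_le_mul_of_nonneg_right h3 hZ.le) le_rfl)
    have h7 := mul_le_mul_of_nonneg_left h6 hD.le
    have e2 : (1 + a * (1 - u⁻¹)) * ((1 + a * (1 - u⁻¹))⁻¹ * Zc (k + 1) p +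
        1 / p * (u ^ (k + 1) * ((1 - u⁻¹) * X))) = Zc (k + 1) p + (1 - u⁻¹) * Rh u := by
      rw [mul_add, ← mul_assoc, mul_inv_cancel₀ hD.ne', one_mul, hRh]
      simp only
      rw [← hX]
      ring
    rw [e2] at h7
    have h8 : (1 - u⁻¹) * (a * Zc (k + 1) p) ≤ (1 - u⁻¹) * Rh u := by linarith
    exact le_of_mul_le_mul_left h8 hv
  have hlim : Tendsto Rh (𝓝[>] 1) (𝓝 (Rh 1)) := by
    have hc : ContinuousAt Rh 1 := by
      rw [hRh]
      have : ContinuousAt (fun u : ℝ => u⁻¹) 1 := continuousAt_inv₀ one_ne_zero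
      fun_prop
    exact hc.tendsto.mono_left nhdsWithin_le_nhds
  have hev : ∀ᶠ u in 𝓝[>] (1 : ℝ), a * Zc (k + 1) p ≤ Rh u := by
    have h1 : ∀ᶠ u in 𝓝[>] (1 : ℝ), u ≤ u₀ := nhdsWithin_le_nhds (ge_mem_nhds hu₀1)
    filter_upwards [h1, self_mem_nhdsWithin] with u h2 h3
    exact hineq u h3 h2
  have hfin := ge_of_tendsto hlim hev
  have e3 : Rh 1 = 1 / p * b₁ := by
    rw [hRh]
    simp
  rw [e3] at hfin
  have h9 := mul_le_mul_of_nonneg_left hfin hp.le
  have e4 : p * (a * Zc (k + 1) p) = ((k : ℝ) + 1) * (1 + p) * Zc (k + 1) p := by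
    rw [ha]
    field_simp
    ring
  have e5 : p * (1 / p * b₁) = b₁ := by field_simp
  rw [e4, e5] at h9
  exact h9

end Pool.Agent.H5.SM
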