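import Pool.Agent.H5.SM.D8

/-! The potential of the part of the simplex cut off. -/

set_option autoImplicit false

open MeasureTheory Set Filter
open scoped ENNReal Topology Pointwise

namespace Pool.Agent.H5.SM

open Pool.Agent.H5.LP (V Del T T_lintegral T_volume T_inj T_surj T_pair J J_pos J_fin J_T I I_T
  del_compact del_vol_ne_zero del_vol_ne_top)

variable {n k : ℕ}

lemma vol_succ : vol (k + 1) = vol k / ((k : ℝ) + 1) := by
  have h : Br (k + 1) (fun _ => (1 : ℝ)) = Br k (fun _ => (1 : ℝ)) / ((k : ℝ) + 1) := by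
    rw [Br_cones continuousOn_const]
    have h1 : ∫ r in Icc (0 : ℝ) 1, r ^ k * Br k (fun _ => (1 : ℝ)) =
        Br k (fun _ => (1 : ℝ)) / ((k : ℝ) + 1) := by
      rw [integral_mul_const, int_pow]
      ring
    rw [h1, Finset.sum_const, Finset.card_univ, Fintype.card_fin, nsmul_eq_mul]
    push_cast
    field_simp
  rw [Br_one, Br_one] at h
  exact h

/-- the constant in the correlation inequality on facets -/
theorem exists_H {p : ℝ} (hp : 0 < p) : ∃ H : ℝ,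
    (1 + p) * Zc (k + 2) p / vol (k + 2) < H ∧
      ∀ T : (Fin (k + 2) → ℝ) → ℝ, ConvexOn ℝ (St (k + 1)) T → ContinuousOn T (St (k + 1)) →
        (∀ μ ∈ St (k + 1), 0 ≤ T μ) → T (cen (k + 1)) = 0 →
        H * Br (k + 1) T ≤ Br (k + 1) (fun μ => T μ * Gfac p μ) := by
  obtain ⟨H, h1, h2⟩ := strict_cov (Gfac_sconv (k := k + 1) hp) (Gfac_contOn hp) (Gfac_sym hp)
  refine ⟨H, ?_, h2⟩
  have h3 := facet_avg (k := k + 1) hp
  rw [Br_one] at h1
  have h4 : vol (k + 1) = ((k : ℝ) + 2) * vol (k + 2) := by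
    rw [vol_succ (k := k + 1)]
    push_cast
    field_simp
    ring
  have h1' : Br (k + 1) (Gfac p) < H * vol (k + 1) := h1
  rw [h4] at h1'
  have hv := vol_pos (n := k + 2)
  rw [div_lt_iff₀ hv]
  have hk : (0 : ℝ) < (k : ℝ) + 2 := by positivity
  push_cast at h3
  have h5 : ((k : ℝ) + 2) * ((1 + p) * Zc (k + 2) p) < ((k : ℝ) + 2) * (H * vol (k + 2)) := by
    calc ((k : ℝ) + 2) * ((1 + p) * Zc (k + 2) p) = ((k : ℝ) + 1 + 1) * (1 + p) *
          Zc (k + 1 + 1) p := by ring_nf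
      _ ≤ Br (k + 1) (Gfac p) := h3
      _ < H * (((k : ℝ) + 2) * vol (k + 2)) := h1'
      _ = _ := by ring
  exact lt_of_mul_lt_mul_left h5 hk.le

/-- points of a facet -/
noncomputable def pf (i : Fin (k + 3)) (μ : Fin (k + 2) → ℝ) : V (k + 2) :=
  fun l => cb i 1 μ l.succ

lemma pf_bary {i : Fin (k + 3)} {ν : V (k + 1)} : pf i (bary ν) = cn i 1 ν := rfl

lemma bary_pf (i : Fin (k + 3)) {μ : Fin (k + 2) → ℝ} (h : μ ∈ St (k + 1)) :
    bary (pf i μ) = cb i 1 μ := bary_tail (cb_mem i zero_le_one le_rfl h).2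

lemma pf_mem (i : Fin (k + 3)) {μ : Fin (k + 2) → ℝ} (h : μ ∈ St (k + 1)) :
    pf i μ ∈ Del (k + 2) := tail_mem (cb_mem i zero_le_one le_rfl h)

lemma pf_cont (i : Fin (k + 3)) : Continuous (pf i : (Fin (k + 2) → ℝ) → _) := by
  apply continuous_pi
  intro l
  exact (continuous_apply _).comp ((cb_cont i).comp (continuous_const.prodMk continuous_id))

lemma pf_affine (i : Fin (k + 3)) {a b : ℝ} (hab : a + b = 1) (μ μ' : Fin (k + 2) → ℝ) :
    pf i (a • μ + b • μ') = a • pf i μ + b • pf i μ' := by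
  unfold pf
  rw [cb_affine_μ i 1 hab]
  rfl

lemma cb_one_self (i : Fin (k + 2)) (μ : Fin (k + 1) → ℝ) : cb i 1 μ i = 0 := by
  unfold cb
  rw [Equiv.swap_apply_left, ins_last]
  ring

lemma mem_dl {u : ℝ} (hu : 0 < u) {x : V n} (h : ∀ l, (1 - u) * cen n l ≤ bary x l) :
    x ∈ dl u '' Del n := by
  obtain ⟨z, rfl⟩ := T_surj (dl_det hu) ((1 - u) • gc n) x
  refine ⟨z, ?_, rfl⟩
  rw [← bary_mem]
  refine ⟨fun l => ?_, bary_sum _⟩
  have h1 := h l
  change _ ≤ bary (dl u z) l at h1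
  rw [bary_dl] at h1
  have h2 : 0 ≤ u * bary z l := by linarith
  exact nonneg_of_mul_nonneg_right h2 hu

lemma dl_nhds {u : ℝ} (hu : 0 < u) : dl u '' Del n ∈ 𝓝 (gc n) := by
  have hopen : IsOpen (⋂ l : Fin (n + 1), {x : V n | (1 - u) * cen n l < bary x l}) :=
    isOpen_iInter_of_finite fun l => isOpen_lt continuous_const (bary_apply_cont l)
  have hmem : gc n ∈ ⋂ l : Fin (n + 1), {x : V n | (1 - u) * cen n l < bary x l} := by
    refine mem_iInter.2 fun l => ?_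
    show (1 - u) * cen n l < bary (gc n) l
    rw [bary_gc]
    have : 0 < cen n l := by unfold cen; positivity
    nlinarith
  refine mem_of_superset (hopen.mem_nhds hmem) fun x hx => mem_dl hu fun l => ?_
  exact (mem_iInter.1 hx l : (1 - u) * cen n l < bary x l).le

/-- gauge of the body from the centroid -/
noncomputable def gg (K : Set (V n)) (x : V n) : ℝ := gauge {z : V n | z + gc n ∈ K} (x - gc n)

lemma smul_K0 {K : Set (V n)} {x : V n} {b : ℝ} (hb : 0 < b)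
    (h : x - gc n ∈ b • {z : V n | z + gc n ∈ K}) : b⁻¹ • (x - gc n) + gc n ∈ K := by
  obtain ⟨z, hz, hzx⟩ := h
  have : b⁻¹ • (x - gc n) = z := by
    rw [← hzx]
    show b⁻¹ • b • z = z
    rw [smul_smul, inv_mul_cancel₀ hb.ne', one_smul]
  rw [this]
  exact hz

variable {K : Set (V (k + 2))} {δ : ℝ}

/-- standing assumptions -/
structure Pos (K : Set (V (k + 2))) (δ : ℝ) : Prop where
  sub : K ⊆ Del (k + 2)
  conv : Convex ℝ K
  clos : IsClosed K
  big : dl (1 - δ) '' Del (k + 2) ⊆ K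
  cent : ∀ i : Fin (k + 3), pf i (cen (k + 1)) ∈ K

lemma Pos.nhds (h : Pos K δ) (hδ : δ < 1) : {z : V (k + 2) | z + gc (k + 2) ∈ K} ∈ 𝓝 0 := by
  have h1 : K ∈ 𝓝 (gc (k + 2)) := mem_of_superset (dl_nhds (by linarith)) h.big
  have h2 : Tendsto (fun z : V (k + 2) => z + gc (k + 2)) (𝓝 0) (𝓝 (gc (k + 2))) := by
    have hc : Continuous (fun z : V (k + 2) => z + gc (k + 2)) := by fun_prop
    have := hc.tendsto 0
    rwa [zero_add] at this
  exact h2 h1

lemma Pos.conv0 (h : Pos K δ) : Convex ℝ {z : V (k + 2) | z + gc (k + 2) ∈ K} := by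
  intro x hx y hy a b ha hb hab
  show a • x + b • y + gc (k + 2) ∈ K
  have e : a • x + b • y + gc (k + 2) = a • (x + gc (k + 2)) + b • (y + gc (k + 2)) := by
    rw [smul_add, smul_add]
    have : gc (k + 2) = a • gc (k + 2) + b • gc (k + 2) := by rw [← add_smul, hab, one_smul]
    conv_lhs => rw [this]
    abel
  rw [e]
  exact h.conv hx hy ha hb hab

lemma Pos.clos0 (h : Pos K δ) : IsClosed {z : V (k + 2) | z + gc (k + 2) ∈ K} :=
  h.clos.preimage (by fun_prop)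

lemma Pos.mem_iff (h : Pos K δ) (hδ : δ < 1) (x : V (k + 2)) : x ∈ K ↔ gg K x ≤ 1 := by
  unfold gg
  rw [gauge_le_one_iff_mem_closure h.conv0 (h.nhds hδ), h.clos0.closure_eq]
  show x ∈ K ↔ x - gc (k + 2) + gc (k + 2) ∈ K
  rw [sub_add_cancel]

lemma Pos.gg_cont (h : Pos K δ) (hδ : δ < 1) : Continuous (gg K) :=
  (continuous_gauge h.conv0 (h.nhds hδ)).comp (by fun_prop)

lemma cn_sub_gc (i : Fin (k + 2)) (r : ℝ) (ν : V k) :
    cn i r ν - gc (k + 1) = r • (cn i 1 ν - gc (k + 1)) := by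
  ext l
  have hg : gc (k + 1) l = cen (k + 1) l.succ := rfl
  simp only [Pi.sub_apply, Pi.smul_apply, smul_eq_mul]
  rw [hg]
  unfold cn cb
  ring

lemma gg_cn (K : Set (V (k + 2))) (i : Fin (k + 3)) {r : ℝ} (hr : 0 ≤ r) (ν : V (k + 1)) :
    gg K (cn i r ν) = r * gg K (cn i 1 ν) := by
  unfold gg
  rw [cn_sub_gc, gauge_smul_of_nonneg hr]
  rfl

lemma Pos.gg_ge (h : Pos K δ) (hδ : δ < 1) (i : Fin (k + 3)) {μ : Fin (k + 2) → ℝ}
    (hμ : μ ∈ St (k + 1)) : 1 ≤ gg K (pf i μ) := by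
  by_contra hcon
  obtain ⟨b, hb0, hb1, hb⟩ := exists_lt_of_gauge_lt (absorbent_nhds_zero (h.nhds hδ))
    (not_le.1 hcon)
  have h1 := h.sub (smul_K0 hb0 hb)
  have h2 := (bary_mem.2 h1).1 i
  have e : b⁻¹ • (pf i μ - gc (k + 2)) + gc (k + 2) = dl b⁻¹ (pf i μ) := by
    rw [dl_apply, smul_sub, sub_smul, one_smul]
    abel
  rw [e, bary_dl, bary_pf i hμ, cb_one_self, mul_zero, zero_add] at h2
  have h3 : 0 < cen (k + 2) i := by unfold cen; positivity
  have h4 : 1 < b⁻¹ := (one_lt_inv₀ hb0).2 hb1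
  nlinarith

lemma Pos.gg_le (h : Pos K δ) (hδ : δ < 1) (i : Fin (k + 3)) {μ : Fin (k + 2) → ℝ}
    (hμ : μ ∈ St (k + 1)) : (1 - δ) * gg K (pf i μ) ≤ 1 := by
  have h1 : dl (1 - δ) (pf i μ) ∈ K := h.big ⟨_, pf_mem i hμ, rfl⟩
  rw [h.mem_iff hδ] at h1
  have e : gg K (dl (1 - δ) (pf i μ)) = (1 - δ) * gg K (pf i μ) := by
    unfold gg
    have : dl (1 - δ) (pf i μ) - gc (k + 2) = (1 - δ) • (pf i μ - gc (k + 2)) := by
      rw [dl_apply, smul_sub, sub_sub_cancel]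
      rw [sub_smul 1 δ (gc (k + 2)), one_smul]
      abel
    rw [this, gauge_smul_of_nonneg (by linarith)]
    rfl
  rwa [e] at h1

/-- the excess function on a facet -/
noncomputable def Tf (K : Set (V (k + 2))) (i : Fin (k + 3)) (μ : Fin (k + 2) → ℝ) : ℝ :=
  gg K (pf i μ) - 1

lemma Pos.Tf_cont (h : Pos K δ) (hδ : δ < 1) (i : Fin (k + 3)) :
    ContinuousOn (Tf K i) (St (k + 1)) :=
  (((h.gg_cont hδ).comp (pf_cont i)).sub continuous_const).continuousOn

lemma Pos.Tf_conv (h : Pos K δ) (hδ : δ < 1) (i : Fin (k + 3)) :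
    ConvexOn ℝ (St (k + 1)) (Tf K i) := by
  refine ⟨convex_stdSimplex ℝ _, fun μ _ μ' _ a b ha hb hab => ?_⟩
  unfold Tf gg
  rw [pf_affine i hab]
  have e : a • pf i μ + b • pf i μ' - gc (k + 2) =
      a • (pf i μ - gc (k + 2)) + b • (pf i μ' - gc (k + 2)) := by
    rw [smul_sub, smul_sub]
    have : gc (k + 2) = a • gc (k + 2) + b • gc (k + 2) := by rw [← add_smul, hab, one_smul]
    conv_lhs => rw [this]
    abel
  rw [e]
  have h1 := gauge_add_le h.conv0 (absorbent_nhds_zero (h.nhds hδ)) (a • (pf i μ - gc (k + 2)))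
    (b • (pf i μ' - gc (k + 2)))
  rw [gauge_smul_of_nonneg ha, gauge_smul_of_nonneg hb] at h1
  simp only [smul_eq_mul] at h1 ⊢
  have : b = 1 - a := by linarith
  subst this
  linarith

lemma Pos.Tf_nonneg (h : Pos K δ) (hδ : δ < 1) (i : Fin (k + 3)) :
    ∀ μ ∈ St (k + 1), 0 ≤ Tf K i μ := by
  intro μ hμ
  have := h.gg_ge hδ i hμ
  unfold Tf
  linarith

lemma Pos.Tf_cen (h : Pos K δ) (hδ : δ < 1) (i : Fin (k + 3)) : Tf K i (cen (k + 1)) = 0 := by
  have h1 := (h.mem_iff hδ _).1 (h.cent i)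
  have h2 := h.Tf_nonneg hδ i _ cen_mem
  unfold Tf at h2 ⊢
  linarith

lemma cn_mp_meas (i : Fin (k + 3)) : Measurable fun q : ℝ × V (k + 1) => cn i q.1 q.2 :=
  (cn_cont i).measurable

/-- swapping the order of integration in the cones -/
lemma cones_swap {f : V (k + 2) → ℝ≥0∞} (hf : Measurable f) (i : Fin (k + 3)) :
    ∫⁻ r in Icc (0 : ℝ) 1, ENNReal.ofReal (r ^ (k + 1)) * ∫⁻ ν in Del (k + 1), f (cn i r ν) =
    ∫⁻ ν in Del (k + 1), ∫⁻ r in Icc (0 : ℝ) 1, ENNReal.ofReal (r ^ (k + 1)) * f (cn i r ν) := by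
  have h1 : ∫⁻ r in Icc (0 : ℝ) 1, ENNReal.ofReal (r ^ (k + 1)) *
      ∫⁻ ν in Del (k + 1), f (cn i r ν) = ∫⁻ r in Icc (0 : ℝ) 1, ∫⁻ ν in Del (k + 1),
        ENNReal.ofReal (r ^ (k + 1)) * f (cn i r ν) := by
    refine lintegral_congr fun r => ?_
    rw [lintegral_const_mul' _ _ ENNReal.ofReal_ne_top]
  rw [h1, lintegral_lintegral_swap]
  apply Measurable.aemeasurable
  apply Measurable.mul
  · exact (measurable_fst.pow_const (k + 1)).ennreal_ofReal
  · exact hf.comp (cn_mp_meas i)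

lemma sum_third (X : ℝ≥0∞) : ∑ _i : Fin (k + 3), ENNReal.ofReal (1 / (((k + 1 : ℕ) : ℝ) + 2)) * X =
    X := by
  rw [Finset.sum_const, Finset.card_univ, Fintype.card_fin, nsmul_eq_mul, ← mul_assoc]
  have hk2 : (0 : ℝ) < (k : ℝ) + 3 := by positivity
  have h2 : ((k + 3 : ℕ) : ℝ≥0∞) * ENNReal.ofReal (1 / (((k + 1 : ℕ) : ℝ) + 2)) = 1 := by
    rw [← ENNReal.ofReal_natCast, ← ENNReal.ofReal_mul (by positivity)]
    push_cast
    rw [show (k : ℝ) + 1 + 2 = k + 3 by ring, mul_one_div_cancel hk2.ne', ENNReal.ofReal_one]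
  rw [h2, one_mul]

lemma Gf_meas (p : ℝ) : Measurable (Gf (n := n) p) := by
  unfold Gf
  exact (StronglyMeasurable.integral_prod_right (w2_meas p).stronglyMeasurable).measurable

/-- **the potential of the part cut off** -/
theorem cut_potential {p η H : ℝ} (hp : 0 < p) (hη0 : 0 ≤ η) (hη1 : η < 1) (hδ0 : 0 ≤ δ)
    (hδ1 : δ < 1) (hH0 : 0 ≤ H)
    (hH : ∀ T : (Fin (k + 2) → ℝ) → ℝ, ConvexOn ℝ (St (k + 1)) T →
      ContinuousOn T (St (k + 1)) → (∀ μ ∈ St (k + 1), 0 ≤ T μ) → T (cen (k + 1)) = 0 →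
        H * Br (k + 1) T ≤ Br (k + 1) (fun μ => T μ * Gfac p μ))
    (hG : ∀ ν ∈ Del (k + 1), ∀ r : ℝ, 1 - δ ≤ r → r ≤ 1 →
      (1 - η) * Gf p (cn (Fin.last (k + 2)) 1 ν) ≤ Gf p (cn (Fin.last (k + 2)) r ν))
    (h : Pos K δ) :
    ENNReal.ofReal ((1 - δ) ^ (k + 2) * (1 - η) * H) * volume (Del (k + 2) \ K) ≤
      ∫⁻ x in Del (k + 2) \ K, ENNReal.ofReal (Gf p x) := by
  have hδ' : 0 < 1 - δ := by linarith
  have hη' : 0 < 1 - η := by linarith
  have hKm : MeasurableSet Kᶜ := h.clos.measurableSet.compl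
  set L := Fin.last (k + 2) with hL
  -- both sides by cones
  have hF : ∀ f : V (k + 2) → ℝ≥0∞, Measurable f → ∫⁻ x in Del (k + 2) \ K, f x =
      ∑ i : Fin (k + 3), ENNReal.ofReal (1 / (((k + 1 : ℕ) : ℝ) + 2)) *
        ∫⁻ ν in Del (k + 1), ∫⁻ r in Icc (0 : ℝ) 1, ENNReal.ofReal (r ^ (k + 1)) *
          Kᶜ.indicator f (cn i r ν) := by
    intro f hf
    have e1 : ∫⁻ x in Del (k + 2) \ K, f x = ∫⁻ x in Del (k + 2), Kᶜ.indicator f x := by
      rw [lintegral_indicator hKm, Measure.restrict_restrict hKm, sdiff_eq, inter_comm]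
    rw [e1, lintegral_cones (hf.indicator hKm)]
    refine Finset.sum_congr rfl fun i _ => ?_
    rw [cones_swap (hf.indicator hKm)]
  have hgg : ∀ i : Fin (k + 3), ∀ ν ∈ Del (k + 1), 1 ≤ gg K (cn i 1 ν) := by
    intro i ν hν
    exact h.gg_ge hδ1 i (bary_mem.2 hν)
  have hgg' : ∀ i : Fin (k + 3), ∀ ν ∈ Del (k + 1), (1 - δ) * gg K (cn i 1 ν) ≤ 1 := by
    intro i ν hν
    exact h.gg_le hδ1 i (bary_mem.2 hν)
  have hmem : ∀ i : Fin (k + 3), ∀ ν ∈ Del (k + 1), ∀ r : ℝ, 0 ≤ r →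
      (cn i r ν ∈ Kᶜ ↔ (gg K (cn i 1 ν))⁻¹ < r) := by
    intro i ν hν r hr
    have h1 := hgg i ν hν
    have h0 : 0 < gg K (cn i 1 ν) := by linarith
    rw [mem_compl_iff, h.mem_iff hδ1, gg_cn K i hr, not_le, inv_lt_iff_one_lt_mul₀ h0]
  have hGf0 : ∀ μ ∈ St (k + 1), 0 ≤ Gfac p μ := fun μ hμ =>
    (Gf_pos hp (del_sub_Om hp (tail_mem (ins_mem hμ)))).le
  -- upper bound for the volume
  have hvol : volume (Del (k + 2) \ K) ≤ ∑ i : Fin (k + 3),
      ENNReal.ofReal (1 / (((k + 1 : ℕ) : ℝ) + 2)) * ENNReal.ofReal (Br (k + 1) (Tf K i)) := by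
    have e1 : volume (Del (k + 2) \ K) = ∫⁻ x in Del (k + 2) \ K, (1 : V (k + 2) → ℝ≥0∞) x := by
      simp
    rw [e1, hF _ measurable_one]
    apply Finset.sum_le_sum
    intro i _
    apply mul_le_mul' le_rfl
    rw [Br_eq_lintegral (h.Tf_cont hδ1 i) (h.Tf_nonneg hδ1 i)]
    apply setLIntegral_mono' del_compact.measurableSet
    intro ν hν
    have h1 := hgg i ν hν
    set g := gg K (cn i 1 ν) with hg
    have hg0 : 0 < g := by linarith
    calc ∫⁻ r in Icc (0 : ℝ) 1, ENNReal.ofReal (r ^ (k + 1)) *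
          Kᶜ.indicator (1 : V (k + 2) → ℝ≥0∞) (cn i r ν)
        ≤ ∫⁻ r in Icc (0 : ℝ) 1, (Ioc g⁻¹ 1).indicator (1 : ℝ → ℝ≥0∞) r := by
          apply setLIntegral_mono' measurableSet_Icc
          intro r hr
          by_cases hc : cn i r ν ∈ Kᶜ
          · rw [indicator_of_mem hc, indicator_of_mem (show r ∈ Ioc g⁻¹ 1 from
              ⟨(hmem i ν hν r hr.1).1 hc, hr.2⟩)]
            simp only [Pi.one_apply, mul_one]
            rw [← ENNReal.ofReal_one]
            exact ENNReal.ofReal_le_ofReal (pow_le_one₀ hr.1 hr.2)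
          · rw [indicator_of_notMem hc, mul_zero]
            exact zero_le
      _ ≤ ∫⁻ r, (Ioc g⁻¹ 1).indicator (1 : ℝ → ℝ≥0∞) r := setLIntegral_le_lintegral _ _
      _ = ENNReal.ofReal (1 - g⁻¹) := by
          rw [lintegral_indicator_one measurableSet_Ioc, Real.volume_Ioc]
      _ ≤ ENNReal.ofReal (Tf K i (bary ν)) := by
          apply ENNReal.ofReal_le_ofReal
          show 1 - g⁻¹ ≤ g - 1
          have h2 : g⁻¹ ≥ 2 - g := by
            rw [ge_iff_le, ← one_div, le_div_iff₀ hg0]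
            nlinarith [sq_nonneg (g - 1)]
          linarith
  -- lower bound for the potential
  have hpot : ∑ i : Fin (k + 3), ENNReal.ofReal (1 / (((k + 1 : ℕ) : ℝ) + 2)) *
      ENNReal.ofReal (((1 - δ) ^ (k + 2) * (1 - η)) * Br (k + 1) (fun μ => Tf K i μ * Gfac p μ)) ≤
      ∫⁻ x in Del (k + 2) \ K, ENNReal.ofReal (Gf p x) := by
    rw [hF _ (Gf_meas p).ennreal_ofReal]
    apply Finset.sum_le_sum
    intro i _
    apply mul_le_mul' le_rfl
    have hTG : ContinuousOn (fun μ => Tf K i μ * Gfac p μ) (St (k + 1)) :=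
      cmul (h.Tf_cont hδ1 i) (Gfac_contOn hp)
    rw [ENNReal.ofReal_mul (by positivity), Br_eq_lintegral hTG (fun μ hμ =>
      mul_nonneg (h.Tf_nonneg hδ1 i μ hμ) (hGf0 μ hμ)),
      ← lintegral_const_mul' _ _ ENNReal.ofReal_ne_top]
    apply setLIntegral_mono' del_compact.measurableSet
    intro ν hν
    have h1 := hgg i ν hν
    have h1' := hgg' i ν hν
    set g := gg K (cn i 1 ν) with hg
    have hg0 : 0 < g := by linarith
    have hgi : 1 - δ ≤ g⁻¹ := by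
      rw [← one_div, le_div_iff₀ hg0]
      exact h1'
    have hGν : 0 ≤ Gfac p (bary ν) := hGf0 _ (bary_mem.2 hν)
    have hg1 : 0 ≤ 1 - g⁻¹ := by
      have := inv_le_one_of_one_le₀ h1
      linarith
    calc ENNReal.ofReal ((1 - δ) ^ (k + 2) * (1 - η)) *
          ENNReal.ofReal (Tf K i (bary ν) * Gfac p (bary ν))
        = ENNReal.ofReal ((1 - δ) ^ (k + 2) * (1 - η) * (Tf K i (bary ν) * Gfac p (bary ν))) :=
          (ENNReal.ofReal_mul (by positivity)).symm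
      _ ≤ ENNReal.ofReal ((1 - δ) ^ (k + 1) * ((1 - η) * Gfac p (bary ν)) * (1 - g⁻¹)) := by
          apply ENNReal.ofReal_le_ofReal
          have h2 : Tf K i (bary ν) = g - 1 := rfl
          rw [h2]
          have h3 : (1 - δ) * (g - 1) ≤ 1 - g⁻¹ := by
            have e : 1 - g⁻¹ = g⁻¹ * (g - 1) := by field_simp
            rw [e]
            exact mul_le_mul_of_nonneg_right hgi (by linarith)
          have h4 : 0 ≤ (1 - δ) ^ (k + 1) * ((1 - η) * Gfac p (bary ν)) := by positivity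
          have h5 := mul_le_mul_of_nonneg_left h3 h4
          calc _ = (1 - δ) ^ (k + 1) * ((1 - η) * Gfac p (bary ν)) * ((1 - δ) * (g - 1)) := by
                ring
            _ ≤ _ := h5
      _ = ∫⁻ r in Ioc g⁻¹ (1 : ℝ), ENNReal.ofReal ((1 - δ) ^ (k + 1) *
          ((1 - η) * Gfac p (bary ν))) := by
          rw [setLIntegral_const, Real.volume_Ioc, ENNReal.ofReal_mul (by positivity)]
      _ ≤ ∫⁻ r in Ioc g⁻¹ (1 : ℝ), ENNReal.ofReal (r ^ (k + 1)) *
          Kᶜ.indicator (fun x => ENNReal.ofReal (Gf p x)) (cn i r ν) := by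
          apply setLIntegral_mono' measurableSet_Ioc
          intro r hr
          have hr0 : 0 ≤ r := by linarith [hr.1]
          have hr1 : 1 - δ ≤ r := by linarith [hr.1]
          rw [indicator_of_mem ((hmem i ν hν r hr0).2 hr.1), ← ENNReal.ofReal_mul (by positivity)]
          apply ENNReal.ofReal_le_ofReal
          have h2 : (1 - η) * Gfac p (bary ν) ≤ Gf p (cn i r ν) := by
            rw [Gfac_eq, cn_last_eq hp i r ν]
            exact hG ν hν r hr1 hr.2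
          have h3 : (1 - δ) ^ (k + 1) ≤ r ^ (k + 1) := pow_le_pow_left₀ hδ'.le hr1 _
          exact mul_le_mul h3 h2 (by positivity) (by positivity)
      _ ≤ ∫⁻ r in Icc (0 : ℝ) 1, ENNReal.ofReal (r ^ (k + 1)) *
          Kᶜ.indicator (fun x => ENNReal.ofReal (Gf p x)) (cn i r ν) := by
          apply lintegral_mono_set
          intro r hr
          exact ⟨by linarith [hr.1], hr.2⟩
  calc ENNReal.ofReal ((1 - δ) ^ (k + 2) * (1 - η) * H) * volume (Del (k + 2) \ K)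
      ≤ ENNReal.ofReal ((1 - δ) ^ (k + 2) * (1 - η) * H) * ∑ i : Fin (k + 3),
        ENNReal.ofReal (1 / (((k + 1 : ℕ) : ℝ) + 2)) * ENNReal.ofReal (Br (k + 1) (Tf K i)) :=
        mul_le_mul' le_rfl hvol
    _ = ∑ i : Fin (k + 3), ENNReal.ofReal (1 / (((k + 1 : ℕ) : ℝ) + 2)) *
        ENNReal.ofReal (((1 - δ) ^ (k + 2) * (1 - η)) * (H * Br (k + 1) (Tf K i))) := by
        rw [Finset.mul_sum]
        refine Finset.sum_congr rfl fun i _ => ?_
        have e : (1 - δ) ^ (k + 2) * (1 - η) * (H * Br (k + 1) (Tf K i)) =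
            ((1 - δ) ^ (k + 2) * (1 - η) * H) * Br (k + 1) (Tf K i) := by ring
        rw [e, ENNReal.ofReal_mul (p := (1 - δ) ^ (k + 2) * (1 - η) * H)
          (q := Br (k + 1) (Tf K i)) (by positivity)]
        ring
    _ ≤ ∑ i : Fin (k + 3), ENNReal.ofReal (1 / (((k + 1 : ℕ) : ℝ) + 2)) *
        ENNReal.ofReal (((1 - δ) ^ (k + 2) * (1 - η)) *
          Br (k + 1) (fun μ => Tf K i μ * Gfac p μ)) := by
        apply Finset.sum_le_sum
        intro i _
        apply mul_le_mul' le_rfl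
        apply ENNReal.ofReal_le_ofReal
        apply mul_le_mul_of_nonneg_left _ (by positivity)
        exact hH _ (h.Tf_conv hδ1 i) (h.Tf_cont hδ1 i) (h.Tf_nonneg hδ1 i) (h.Tf_cen hδ1 i)
    _ ≤ _ := hpot

/-- uniform continuity of the potential near the facets -/
lemma exists_delta {p η : ℝ} (hp : 0 < p) (hη : 0 < η) : ∃ δ : ℝ, 0 < δ ∧ δ < 1 ∧
    ∀ ν ∈ Del (k + 1), ∀ r : ℝ, 1 - δ ≤ r → r ≤ 1 →
      (1 - η) * Gf p (cn (Fin.last (k + 2)) 1 ν) ≤ Gf p (cn (Fin.last (k + 2)) r ν) := by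
  set L := Fin.last (k + 2) with hL
  obtain ⟨x₀, hx₀, hmin⟩ := (del_compact (n := k + 2)).exists_isMinOn
    ⟨gc (k + 2), by rw [← bary_mem, bary_gc]; exact cen_mem⟩ ((Gf_contOn hp).mono (del_sub_Om hp))
  have hm : 0 < Gf p x₀ := Gf_pos hp (del_sub_Om hp hx₀)
  have hcont : ContinuousOn (fun q : ℝ × V (k + 1) => Gf p (cn L q.1 q.2))
      (Icc 0 1 ×ˢ Del (k + 1)) := by
    apply (Gf_contOn hp).comp (cn_cont L).continuousOn
    rintro ⟨r, ν⟩ ⟨hr, hν⟩
    exact del_sub_Om hp (cn_mem L hr.1 hr.2 hν)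
  have hunif := (isCompact_Icc.prod (del_compact (n := k + 1))).uniformContinuousOn_of_continuous
    hcont
  rw [Metric.uniformContinuousOn_iff] at hunif
  obtain ⟨d, hd, hd'⟩ := hunif (η * Gf p x₀) (by positivity)
  refine ⟨min (d / 2) (1 / 2), lt_min (by positivity) (by norm_num),
    lt_of_le_of_lt (min_le_right _ _) (by norm_num), fun ν hν r hr hr1 => ?_⟩
  have h1 : min (d / 2) (1 / 2) ≤ d / 2 := min_le_left _ _
  have h2 : min (d / 2) (1 / 2) ≤ 1 / 2 := min_le_right _ _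
  have hr0 : 0 ≤ r := by linarith
  have h3 := hd' (r, ν) ⟨⟨hr0, hr1⟩, hν⟩ (1, ν) ⟨⟨zero_le_one, le_rfl⟩, hν⟩ (by
    rw [Prod.dist_eq, dist_self, Real.dist_eq]
    apply max_lt _ hd
    rw [abs_lt]
    constructor <;> linarith)
  simp only [Real.dist_eq] at h3
  rw [abs_lt] at h3
  have h4 : Gf p x₀ ≤ Gf p (cn L 1 ν) := hmin (cn_mem L zero_le_one le_rfl hν)
  nlinarith [h3.1]

end Pool.Agent.H5.SM
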