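import Pool.Agent.H5.SM.D9

/-! Lower bound of the functional in terms of the potential of the part cut off. -/

set_option autoImplicit false

open MeasureTheory Set Filter
open scoped ENNReal Topology Pointwise

namespace Pool.Agent.H5.SM

open Pool.Agent.H5.LP (V Del T T_lintegral T_volume T_inj T_surj T_pair J J_pos J_fin J_T I I_T Fu
  del_compact del_vol_ne_zero del_vol_ne_top)

variable {n : ℕ}

lemma del_nhds : Del n ∈ 𝓝 (gc n) := by
  have h := dl_nhds (n := n) one_pos
  have e : dl 1 '' Del n = Del n := by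
    have : ∀ x : V n, dl 1 x = x := fun x => by rw [dl_apply]; simp
    simp [this]
  rwa [e] at h

/-- a convex subset missing little volume contains a large dilate -/
lemma full {δ : ℝ} (h0 : 0 < δ) (h1 : δ < 1) : ∃ σ : ℝ, 0 < σ ∧ ∀ K : Set (V n), K ⊆ Del n →
    Convex ℝ K → IsClosed K → volume (Del n \ K) < ENNReal.ofReal σ →
      dl (1 - δ) '' Del n ⊆ K := by
  obtain ⟨ρ, hρ, hball⟩ := Metric.mem_nhds_iff.1 (del_nhds (n := n))
  set B : Set (V n) := Metric.ball 0 ρ with hB
  have hBv : 0 < volume B := Metric.measure_ball_pos _ _ hρ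
  have hBt : volume B ≠ ∞ := Metric.isBounded_ball.measure_lt_top.ne
  set τ : ℝ := (volume B).toReal with hτ
  have hτ0 : 0 < τ := ENNReal.toReal_pos hBv.ne' hBt
  refine ⟨δ ^ n * τ / 2, by positivity, fun K hKs hKc hKcl hvol => ?_⟩
  rintro _ ⟨z, hz, rfl⟩
  by_contra hx
  set x := dl (1 - δ) z with hxd
  obtain ⟨f, u, hf1, hf2⟩ := geometric_hahn_banach_closed_point hKc hKcl hx
  set Hf : Set (V n) := B ∩ {w | 0 ≤ f w} with hHf
  have hfm : MeasurableSet {w : V n | 0 ≤ f w} := (isClosed_le continuous_const f.continuous).measurableSet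
  have hHm : MeasurableSet Hf := measurableSet_ball.inter hfm
  have hD : (δ • (1 : Matrix (Fin n) (Fin n) ℝ)).det ≠ 0 := by rw [sT_det]; positivity
  have hD' : ((-1 : ℝ) • (1 : Matrix (Fin n) (Fin n) ℝ)).det ≠ 0 := by
    rw [sT_det]
    exact pow_ne_zero _ (by norm_num)
  have hvolH : volume B ≤ 2 * volume Hf := by
    have hcov : B ⊆ Hf ∪ T ((-1 : ℝ) • (1 : Matrix (Fin n) (Fin n) ℝ)) 0 '' Hf := by
      intro w hw
      rcases le_total 0 (f w) with h | h
      · exact Or.inl ⟨hw, h⟩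
      · right
        refine ⟨-w, ⟨?_, ?_⟩, ?_⟩
        · rw [hB, mem_ball_zero_iff, norm_neg, ← mem_ball_zero_iff]
          exact hw
        · show 0 ≤ f (-w)
          rw [map_neg]
          linarith
        · rw [sT]
          simp
    calc volume B ≤ volume (Hf ∪ T ((-1 : ℝ) • (1 : Matrix (Fin n) (Fin n) ℝ)) 0 '' Hf) :=
          measure_mono hcov
      _ ≤ volume Hf + volume (T ((-1 : ℝ) • (1 : Matrix (Fin n) (Fin n) ℝ)) 0 '' Hf) :=
          measure_union_le _ _
      _ = 2 * volume Hf := by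
          rw [T_volume hD' 0 hHm, sT_det]
          simp [two_mul]
  have hsub : T (δ • (1 : Matrix (Fin n) (Fin n) ℝ)) x '' Hf ⊆ Del n \ K := by
    rintro _ ⟨w, ⟨hw, hfw⟩, rfl⟩
    rw [sT]
    refine ⟨?_, fun hK => ?_⟩
    · have hg : gc n + w ∈ Del n := by
        apply hball
        rw [Metric.mem_ball, dist_eq_norm, add_sub_cancel_left, ← mem_ball_zero_iff]
        exact hw
      have e : δ • w + x = (1 - δ) • z + δ • (gc n + w) := by
        rw [hxd, dl_apply, sub_sub_cancel, smul_add]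
        abel
      rw [e]
      exact del_convex hz hg (by linarith) h0.le (by ring)
    · have h2 := hf1 _ hK
      rw [map_add, map_smul, smul_eq_mul] at h2
      have h3 : 0 ≤ δ * f w := mul_nonneg h0.le hfw
      linarith
  have h2 := measure_mono (μ := volume) hsub
  rw [T_volume hD x hHm, sT_det, abs_of_pos (by positivity)] at h2
  have h3 : ENNReal.ofReal (δ ^ n * τ / 2) ≤ ENNReal.ofReal (δ ^ n) * volume Hf := by
    have h4 : ENNReal.ofReal (τ / 2) ≤ volume Hf := by
      have h5 : ENNReal.ofReal τ ≤ 2 * volume Hf := by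
        rw [hτ, ENNReal.ofReal_toReal hBt]
        exact hvolH
      rw [ENNReal.ofReal_div_of_pos (by norm_num)]
      apply ENNReal.div_le_of_le_mul
      rw [mul_comm]
      simpa using h5
    calc ENNReal.ofReal (δ ^ n * τ / 2) = ENNReal.ofReal (δ ^ n) * ENNReal.ofReal (τ / 2) := by
          rw [← ENNReal.ofReal_mul (by positivity)]
          congr 1
          ring
      _ ≤ _ := mul_le_mul' le_rfl h4
  exact absurd hvol (not_lt.2 (h3.trans h2))

/-- the other convexity inequality for the negative power -/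
lemma rpow_conv' {a b s : ℝ} (hb : 0 < b) (hab : b ≤ a) (hs : 0 < s) :
    a ^ (-s) + s * a ^ (-(1 + s)) * (a - b) ≤ b ^ (-s) := by
  have ha : 0 < a := lt_of_lt_of_le hb hab
  have h1 : b = a * (b / a) := by field_simp
  have h2 : 0 < b / a := by positivity
  have h3 : 1 + s * ((a - b) / a) ≤ (b / a) ^ (-s) := by
    rw [Real.rpow_def_of_pos h2]
    have h4 : Real.log (b / a) ≤ b / a - 1 := Real.log_le_sub_one_of_pos h2
    have h5 := Real.add_one_le_exp (Real.log (b / a) * -s)
    have h6 : (a - b) / a = 1 - b / a := by field_simp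
    rw [h6]
    nlinarith
  have h6 : a ^ (-(1 + s)) = a ^ (-s) / a := by
    rw [neg_add, add_comm, ← sub_eq_add_neg, Real.rpow_sub ha, Real.rpow_one]
  rw [h6]
  have h7 : 0 < a ^ (-s) := Real.rpow_pos_of_pos ha _
  have h8 := mul_le_mul_of_nonneg_left h3 h7.le
  have h9 : b ^ (-s) = a ^ (-s) * (b / a) ^ (-s) := by
    rw [← Real.mul_rpow ha.le h2.le, ← h1]
  rw [h9]
  have h10 : s * (a ^ (-s) / a) * (a - b) = a ^ (-s) * (s * ((a - b) / a)) := by ring
  rw [h10]
  linarith

lemma ofReal_int_le {α : Type} [MeasurableSpace α] {μ : Measure α} {f : α → ℝ}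
    (hf : Integrable f μ) : ENNReal.ofReal (∫ x, f x ∂μ) ≤ ∫⁻ x, ENNReal.ofReal (f x) ∂μ := by
  calc ENNReal.ofReal (∫ x, f x ∂μ) ≤ ENNReal.ofReal (∫ x, max (f x) 0 ∂μ) := by
        apply ENNReal.ofReal_le_ofReal
        exact integral_mono hf hf.pos_part fun x => le_max_left _ _
    _ = ∫⁻ x, ENNReal.ofReal (max (f x) 0) ∂μ :=
        ofReal_integral_eq_lintegral_ofReal hf.pos_part (Eventually.of_forall fun x =>
          le_max_right _ _)
    _ = ∫⁻ x, ENNReal.ofReal (f x) ∂μ := by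
        refine lintegral_congr fun x => ?_
        rcases le_total (f x) 0 with h | h
        · rw [max_eq_right h, ENNReal.ofReal_zero, ENNReal.ofReal_of_nonpos h]
        · rw [max_eq_left h]

/-- the weight is bounded below on the unit cube -/
lemma w1_low {p : ℝ} (hp : 0 < p) : ∃ c : ℝ, 0 < c ∧ ∀ y : V n, (∀ i, |y i| ≤ 1) →
    c ≤ w1 p y := by
  have hv := vol_pos (n := n)
  have hs : 0 < 1 / p := by positivity
  refine ⟨Real.exp (-1) * (Real.exp p * vol n) ^ (-(1 / p)), by positivity, fun y hy => ?_⟩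
  have hxy : ∀ x ∈ Del n, |∑ i, x i * y i| ≤ 1 := by
    intro x hx
    calc |∑ i, x i * y i| ≤ ∑ i, |x i * y i| := Finset.abs_sum_le_sum_abs _ _
      _ ≤ ∑ i, x i := by
          apply Finset.sum_le_sum
          intro i _
          rw [abs_mul, abs_of_nonneg (hx.1 i)]
          exact mul_le_of_le_one_right (hx.1 i) (hy i)
      _ ≤ 1 := hx.2
  have hj : jr p y ≤ Real.exp p * vol n := by
    have h1 : J p (Del n) y ≤ ENNReal.ofReal (Real.exp p * vol n) := by
      unfold J
      calc ∫⁻ x in Del n, ENNReal.ofReal (Real.exp (p * ∑ i, x i * y i))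
          ≤ ∫⁻ _ in Del n, ENNReal.ofReal (Real.exp p) := by
            apply setLIntegral_mono' del_compact.measurableSet
            intro x hx
            apply ENNReal.ofReal_le_ofReal
            apply Real.exp_le_exp.2
            have := (abs_le.1 (hxy x hx)).2
            nlinarith
        _ = _ := by
            rw [setLIntegral_const, ← vol_ofReal, ← ENNReal.ofReal_mul (Real.exp_pos _).le]
    rw [← jr_ofReal] at h1
    exact (ENNReal.ofReal_le_ofReal_iff (by positivity)).1 h1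
  unfold w1
  apply mul_le_mul
  · apply Real.exp_le_exp.2
    have hg : gc n ∈ Del n := by rw [← bary_mem, bary_gc]; exact cen_mem
    exact (abs_le.1 (hxy _ hg)).1
  · exact Real.rpow_le_rpow_of_nonpos (jr_pos p y) hj (by linarith)
  · positivity
  · exact (Real.exp_pos _).le

lemma pair_le (η y : V n) : |∑ i, η i * y i| ≤ (n : ℝ) * ‖η‖ * ‖y‖ := by
  calc |∑ i, η i * y i| ≤ ∑ i, |η i * y i| := Finset.abs_sum_le_sum_abs _ _
    _ ≤ ∑ _i : Fin n, ‖η‖ * ‖y‖ := by
        apply Finset.sum_le_sum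
        intro i _
        rw [abs_mul]
        exact mul_le_mul (norm_le_pi_norm η i) (norm_le_pi_norm y i) (abs_nonneg _)
          (norm_nonneg _)
    _ = (n : ℝ) * ‖η‖ * ‖y‖ := by
        rw [Finset.sum_const, Finset.card_univ, Fintype.card_fin, nsmul_eq_mul]
        ring

lemma ny_exp_int {c : ℝ} (hc : 0 < c) : Integrable (fun y : V n => ‖y‖ * Real.exp (-(c * ‖y‖))) := by
  refine ((exp_int (n := n) (by positivity : 0 < c / 2)).const_mul (2 / c)).mono'
    (by
      apply Continuous.aestronglyMeasurable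
      fun_prop) (Eventually.of_forall fun y => ?_)
  rw [Real.norm_eq_abs, abs_of_nonneg (by positivity)]
  exact norm_exp_le hc

/-- the box used for the second order term -/
def Yb (η : V n) : Set (V n) :=
  Set.pi univ fun j => if 0 ≤ η j then Icc (1 / 2 : ℝ) 1 else Icc (-1) (-(1 / 2))

lemma Yb_vol (η : V n) : volume (Yb η) = ENNReal.ofReal ((1 / 2) ^ n) := by
  unfold Yb
  rw [volume_pi_pi]
  have : ∀ j, volume (if 0 ≤ η j then Icc (1 / 2 : ℝ) 1 else Icc (-1) (-(1 / 2))) =
      ENNReal.ofReal (1 / 2) := by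
    intro j
    split_ifs
    · rw [Real.volume_Icc]; norm_num
    · rw [Real.volume_Icc]; norm_num
  simp only [this]
  rw [Finset.prod_const, Finset.card_univ, Fintype.card_fin, ENNReal.ofReal_pow (by norm_num)]

lemma Yb_meas (η : V n) : MeasurableSet (Yb η) := by
  unfold Yb
  apply MeasurableSet.univ_pi
  intro j
  split_ifs
  · exact measurableSet_Icc
  · exact measurableSet_Icc

lemma Yb_spec {η y : V n} (hy : y ∈ Yb η) : (∀ i, |y i| ≤ 1) ∧ ‖η‖ / 2 ≤ ∑ i, η i * y i := by
  have hy' : ∀ j, y j ∈ (if 0 ≤ η j then Icc (1 / 2 : ℝ) 1 else Icc (-1) (-(1 / 2))) :=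
    fun j => hy j (mem_univ j)
  constructor
  · intro i
    have := hy' i
    rw [abs_le]
    split_ifs at this with h
    · exact ⟨by linarith [this.1], this.2⟩
    · exact ⟨this.1, by linarith [this.2]⟩
  · have h1 : ∀ i, |η i| / 2 ≤ η i * y i := by
      intro i
      have := hy' i
      split_ifs at this with h
      · rw [abs_of_nonneg h]
        nlinarith [this.1]
      · rw [abs_of_neg (not_le.1 h)]
        nlinarith [this.2, not_le.1 h]
    have h2 : ‖η‖ / 2 ≤ ∑ i, |η i| / 2 := by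
      have h3 : ‖η‖ ≤ ∑ i, |η i| := by
        rw [pi_norm_le_iff_of_nonneg (Finset.sum_nonneg fun i _ => abs_nonneg _)]
        intro i
        exact Finset.single_le_sum (f := fun i => |η i|) (fun j _ => abs_nonneg _)
          (Finset.mem_univ i)
      rw [← Finset.sum_div]
      linarith
    exact h2.trans (Finset.sum_le_sum fun i _ => h1 i)

/-- **lower bound for the functional** -/
theorem I_lower {p : ℝ} (hp : 0 < p) : ∃ κ C : ℝ, 0 < κ ∧ 0 ≤ C ∧ ∀ K : Set (V n), K ⊆ Del n →
    IsCompact K → volume K ≠ 0 → ∀ η : V n,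
      ENNReal.ofReal (Zc n p + κ * ‖η‖ ^ 2 +
        (∫⁻ x in Del n \ K, ENNReal.ofReal (Gf p x)).toReal / p -
          C * ‖η‖ * (volume (Del n \ K)).toReal) ≤ I p K (gc n + η) := by
  have hs : 0 < 1 / p := by positivity
  obtain ⟨c₀, hc₀, hlow⟩ := w1_low (n := n) hp
  obtain ⟨C₁, c₁, hC₁, hc₁, hb₁⟩ := w1_bound (n := n) hp
  obtain ⟨C₂, c₂, hC₂, hc₂, hb₂⟩ := w2_bound (n := n) hp
  set M₂ : ℝ := ∫ y : V n, ‖y‖ * Real.exp (-(c₂ * ‖y‖)) with hM₂
  have hM₂0 : 0 ≤ M₂ := integral_nonneg fun y => by positivity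
  refine ⟨c₀ / 8 * (1 / 2) ^ n, (n : ℝ) * (C₂ * M₂) / p, by positivity, by positivity,
    fun K hKs hKc hKv η => ?_⟩
  set R := Del n \ K with hR
  have hRm : MeasurableSet R := del_compact.measurableSet.diff hKc.measurableSet
  have hRO : R ⊆ Om p := sdiff_subset.trans (del_sub_Om hp)
  have hRt : volume R ≠ ∞ := (measure_mono sdiff_subset).trans_lt
    (lt_top_iff_ne_top.2 del_vol_ne_top) |>.ne
  set σ := (volume R).toReal with hσ
  have hσ0 : 0 ≤ σ := ENNReal.toReal_nonneg
  have hJ : ∀ y : V n, J p (Del n) y = J p K y + J p R y := by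
    intro y
    unfold J
    rw [← lintegral_union hRm disjoint_sdiff_right, union_sdiff_cancel hKs]
  have hJR : ∀ y : V n, J p R y ≠ ∞ := fun y => by
    refine ne_top_of_le_ne_top (J_fin (p := p) del_compact y) ?_
    rw [hJ]
    exact le_add_self
  have hJK : ∀ y : V n, J p K y ≠ ∞ := fun y => J_fin hKc y
  set d : V n → ℝ := fun y => (J p R y).toReal with hd
  set a : V n → ℝ := fun y => (J p K y).toReal with ha
  have hd0 : ∀ y, 0 ≤ d y := fun y => ENNReal.toReal_nonneg
  have ha0 : ∀ y, 0 < a y := fun y => ENNReal.toReal_pos (J_pos hKv y) (hJK y)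
  have hja : ∀ y, jr p y = a y + d y := by
    intro y
    unfold jr
    rw [hJ, ENNReal.toReal_add (hJK y) (hJR y)]
  -- the second density
  set q : V n → ℝ := fun y => w3 p y * d y with hq
  have hq0 : ∀ y, 0 ≤ q y := fun y => mul_nonneg (w3_pos p y).le (hd0 y)
  have hqm : Measurable q := (w3_meas p).mul (J_meas p R).ennreal_toReal
  have hqb : ∀ y, q y ≤ σ * C₂ * Real.exp (-(c₂ * ‖y‖)) := by
    intro y
    have h1 : ENNReal.ofReal (q y) ≤ ENNReal.ofReal (σ * C₂ * Real.exp (-(c₂ * ‖y‖))) := by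
      calc ENNReal.ofReal (q y) = ENNReal.ofReal (w3 p y) * J p R y := by
            rw [hq]
            simp only
            rw [ENNReal.ofReal_mul (w3_pos p y).le, hd, ENNReal.ofReal_toReal (hJR y)]
        _ = ∫⁻ x in R, ENNReal.ofReal (w2 p x y) := by
            unfold J
            rw [← lintegral_const_mul' _ _ ENNReal.ofReal_ne_top]
            refine lintegral_congr fun x => ?_
            rw [w2_eq, ENNReal.ofReal_mul (Real.exp_pos _).le, mul_comm]
        _ ≤ ∫⁻ _ in R, ENNReal.ofReal (C₂ * Real.exp (-(c₂ * ‖y‖))) := by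
            apply setLIntegral_mono' hRm
            intro x hx
            exact ENNReal.ofReal_le_ofReal (hb₂ x (hRO hx) y)
        _ = ENNReal.ofReal (σ * C₂ * Real.exp (-(c₂ * ‖y‖))) := by
            rw [setLIntegral_const, mul_assoc, ENNReal.ofReal_mul hσ0, hσ,
              ENNReal.ofReal_toReal hRt, mul_comm]
    exact (ENNReal.ofReal_le_ofReal_iff (by positivity)).1 h1
  have hqi : Integrable q := by
    refine ((exp_int hc₂).const_mul (σ * C₂)).mono' hqm.aestronglyMeasurable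
      (Eventually.of_forall fun y => ?_)
    rw [Real.norm_eq_abs, abs_of_nonneg (hq0 y)]
    exact hqb y
  have hX : (∫⁻ x in R, ENNReal.ofReal (Gf p x)).toReal = ∫ y, q y := by
    rw [Gf_tonelli hp hRm hRO, integral_eq_lintegral_of_nonneg_ae (Eventually.of_forall hq0)
      hqm.aestronglyMeasurable]
    congr 1
    refine lintegral_congr fun y => ?_
    rw [hq]
    simp only
    rw [ENNReal.ofReal_mul (w3_pos p y).le, hd, ENNReal.ofReal_toReal (hJR y)]
  -- first order terms
  set ℓ : V n → ℝ := fun y => ∑ i, η i * y i with hℓ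
  have hℓm : Measurable ℓ := by
    apply Continuous.measurable
    fun_prop
  have hw1 := w1_int (n := n) hp
  have hyw : ∀ i : Fin n, Integrable (fun y : V n => y i * w1 p y) := by
    intro i
    refine ((ny_exp_int (n := n) hc₁).const_mul C₁).mono'
      ((measurable_pi_apply i).mul (w1_meas p)).aestronglyMeasurable
      (Eventually.of_forall fun y => ?_)
    rw [Real.norm_eq_abs, abs_mul, abs_of_pos (w1_pos p y)]
    calc |y i| * w1 p y ≤ ‖y‖ * (C₁ * Real.exp (-(c₁ * ‖y‖))) :=
          mul_le_mul (norm_le_pi_norm y i) (hb₁ y) (w1_pos p y).le (norm_nonneg _)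
      _ = _ := by ring
  have hℓw : Integrable (fun y => ℓ y * w1 p y) := by
    have h1 : (fun y => ℓ y * w1 p y) = fun y => ∑ i, η i * (y i * w1 p y) := by
      ext y
      rw [hℓ, Finset.sum_mul]
      refine Finset.sum_congr rfl fun i _ => ?_
      ring
    rw [h1]
    exact integrable_finsetSum _ fun i _ => (hyw i).const_mul _
  have hℓw0 : ∫ y, ℓ y * w1 p y = 0 := by
    have h1 : ∀ y, ℓ y * w1 p y = ∑ i, η i * (y i * w1 p y) := by
      intro y
      rw [hℓ, Finset.sum_mul]
      refine Finset.sum_congr rfl fun i _ => ?_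
      ring
    simp_rw [h1]
    rw [integral_finsetSum _ fun i _ => (hyw i).const_mul _]
    apply Finset.sum_eq_zero
    intro i _
    rw [integral_const_mul, first_moment hp, mul_zero]
  have hℓqb : ∀ y, |ℓ y * q y| ≤ (n : ℝ) * ‖η‖ * (σ * C₂) * (‖y‖ * Real.exp (-(c₂ * ‖y‖))) := by
    intro y
    rw [abs_mul, abs_of_nonneg (hq0 y)]
    calc |ℓ y| * q y ≤ ((n : ℝ) * ‖η‖ * ‖y‖) * (σ * C₂ * Real.exp (-(c₂ * ‖y‖))) :=
          mul_le_mul (pair_le η y) (hqb y) (hq0 y) (by positivity)
      _ = _ := by ring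
  have hℓq : Integrable (fun y => ℓ y * q y) := by
    refine ((ny_exp_int (n := n) hc₂).const_mul ((n : ℝ) * ‖η‖ * (σ * C₂))).mono'
      (hℓm.mul hqm).aestronglyMeasurable (Eventually.of_forall fun y => ?_)
    rw [Real.norm_eq_abs]
    exact hℓqb y
  have hℓq' : -((n : ℝ) * ‖η‖ * (σ * C₂) * M₂) ≤ ∫ y, ℓ y * q y := by
    have h1 : |∫ y, ℓ y * q y| ≤ (n : ℝ) * ‖η‖ * (σ * C₂) * M₂ := by
      calc |∫ y, ℓ y * q y| ≤ ∫ y, |ℓ y * q y| := abs_integral_le_integral_abs
        _ ≤ ∫ y : V n, (n : ℝ) * ‖η‖ * (σ * C₂) * (‖y‖ * Real.exp (-(c₂ * ‖y‖))) :=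
            integral_mono hℓq.abs ((ny_exp_int (n := n) hc₂).const_mul _) hℓqb
        _ = _ := by rw [integral_const_mul]
    linarith [(abs_le.1 h1).1]
  -- the box term
  set bx : V n → ℝ := (Yb η).indicator (fun _ => c₀ * ‖η‖ ^ 2 / 8) with hbx
  have hbxi : Integrable bx := by
    rw [hbx, integrable_indicator_iff (Yb_meas η)]
    exact integrableOn_const (by rw [Yb_vol]; exact ENNReal.ofReal_ne_top) (by simp)
  have hbxv : ∫ y, bx y = c₀ / 8 * (1 / 2) ^ n * ‖η‖ ^ 2 := by
    rw [hbx, integral_indicator (Yb_meas η), setIntegral_const]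
    simp only [Measure.real, Yb_vol, smul_eq_mul]
    rw [ENNReal.toReal_ofReal (by positivity)]
    ring
  -- the minorant
  set f : V n → ℝ := fun y => (w1 p y + ℓ y * w1 p y) + bx y + (1 / p) * (q y + ℓ y * q y) with hf
  have i1 : Integrable (fun y => w1 p y + ℓ y * w1 p y) := iadd hw1 hℓw
  have i2 : Integrable (fun y => q y + ℓ y * q y) := iadd hqi hℓq
  have hfi : Integrable f := iadd (iadd i1 hbxi) (icst (1 / p) i2)
  have hfv : ∫ y, f y = Zc n p + c₀ / 8 * (1 / 2) ^ n * ‖η‖ ^ 2 +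
      (1 / p) * ((∫ y, q y) + ∫ y, ℓ y * q y) := by
    rw [hf]
    rw [integral_add (iadd i1 hbxi) (icst (1 / p) i2), integral_add i1 hbxi,
      integral_add hw1 hℓw, integral_const_mul, integral_add hqi hℓq, hℓw0, hbxv, add_zero]
    rfl
  have hmain : ∀ y, ENNReal.ofReal (f y) ≤
      ENNReal.ofReal (Real.exp (∑ i, (gc n + η) i * y i)) * ((J p K y) ^ (1 / p))⁻¹ := by
    intro y
    have e1 : J p K y = ENNReal.ofReal (a y) := (ENNReal.ofReal_toReal (hJK y)).symm
    rw [e1, ENNReal.ofReal_rpow_of_pos (ha0 y),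
      ← ENNReal.ofReal_inv_of_pos (Real.rpow_pos_of_pos (ha0 y) _),
      ← ENNReal.ofReal_mul (Real.exp_pos _).le]
    apply ENNReal.ofReal_le_ofReal
    rw [← Real.rpow_neg (ha0 y).le]
    have e2 : ∑ i, (gc n + η) i * y i = ∑ i, gc n i * y i + ℓ y := by
      rw [hℓ, ← Finset.sum_add_distrib]
      refine Finset.sum_congr rfl fun i _ => ?_
      rw [Pi.add_apply]; ring
    rw [e2, Real.exp_add]
    have h1 := rpow_conv' (ha0 y) (by rw [hja]; linarith [hd0 y] : a y ≤ jr p y) hs
    have e3 : jr p y - a y = d y := by rw [hja]; ring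
    rw [e3] at h1
    set E := Real.exp (∑ i, gc n i * y i) with hE
    have hE0 : 0 < E := Real.exp_pos _
    have h2 : w1 p y + (1 / p) * q y ≤ E * (a y) ^ (-(1 / p)) := by
      have h3 := mul_le_mul_of_nonneg_left h1 hE0.le
      have e4 : E * (jr p y ^ (-(1 / p)) + 1 / p * jr p y ^ (-(1 + 1 / p)) * d y) =
          w1 p y + (1 / p) * q y := by
        rw [hq]
        unfold w1 w3
        rw [hE]
        ring
      rwa [e4] at h3
    have h3 : 1 + ℓ y ≤ Real.exp (ℓ y) := by
      have := Real.add_one_le_exp (ℓ y)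
      linarith
    have h4 : w1 p y + ℓ y * w1 p y + bx y ≤ Real.exp (ℓ y) * w1 p y := by
      by_cases hy : y ∈ Yb η
      · obtain ⟨h5, h6⟩ := Yb_spec hy
        have h7 := hlow y h5
        have h8 : 0 ≤ ‖η‖ := norm_nonneg _
        have h9 : (0 : ℝ) ≤ ℓ y := by
          have : ‖η‖ / 2 ≤ ℓ y := h6
          linarith
        have h10 := Real.quadratic_le_exp_of_nonneg h9
        rw [hbx, indicator_of_mem hy]
        have h11 : (‖η‖ / 2) ^ 2 ≤ ℓ y ^ 2 := pow_le_pow_left₀ (by linarith) h6 2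
        have h12 : c₀ * ‖η‖ ^ 2 / 8 ≤ ℓ y ^ 2 / 2 * w1 p y := by
          have h13 : ‖η‖ ^ 2 / 8 ≤ ℓ y ^ 2 / 2 := by nlinarith
          calc c₀ * ‖η‖ ^ 2 / 8 = (‖η‖ ^ 2 / 8) * c₀ := by ring
            _ ≤ ℓ y ^ 2 / 2 * w1 p y := mul_le_mul h13 h7 hc₀.le (by positivity)
        have h14 := mul_le_mul_of_nonneg_right h10 (w1_pos p y).le
        nlinarith
      · rw [hbx, indicator_of_notMem hy]
        have h5 := mul_le_mul_of_nonneg_right h3 (w1_pos p y).le
        linarith
    have h5 : (1 / p) * (q y + ℓ y * q y) ≤ Real.exp (ℓ y) * ((1 / p) * q y) := by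
      have h6 := mul_le_mul_of_nonneg_right h3 (mul_nonneg hs.le (hq0 y))
      linarith
    have h6 : Real.exp (ℓ y) * (w1 p y + (1 / p) * q y) ≤
        Real.exp (ℓ y) * (E * (a y) ^ (-(1 / p))) :=
      mul_le_mul_of_nonneg_left h2 (Real.exp_pos _).le
    calc f y ≤ Real.exp (ℓ y) * (w1 p y + (1 / p) * q y) := by
          rw [hf, mul_add (Real.exp (ℓ y))]
          exact add_le_add h4 h5
      _ ≤ _ := h6
      _ = _ := by ring
  calc ENNReal.ofReal (Zc n p + c₀ / 8 * (1 / 2) ^ n * ‖η‖ ^ 2 +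
        (∫⁻ x in R, ENNReal.ofReal (Gf p x)).toReal / p - (n : ℝ) * (C₂ * M₂) / p * ‖η‖ * σ)
      ≤ ENNReal.ofReal (∫ y, f y) := by
        apply ENNReal.ofReal_le_ofReal
        rw [hfv, hX]
        have h1 := mul_le_mul_of_nonneg_left hℓq' hs.le
        have e1 : (n : ℝ) * (C₂ * M₂) / p * ‖η‖ * σ = 1 / p * ((n : ℝ) * ‖η‖ * (σ * C₂) * M₂) := by
          ring
        have e2 : (∫ y, q y) / p = 1 / p * ∫ y, q y := by ring
        rw [e1, e2, mul_add]
        linarith
    _ ≤ ∫⁻ y, ENNReal.ofReal (f y) := ofReal_int_le hfi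
    _ ≤ I p K (gc n + η) := lintegral_mono hmain

end Pool.Agent.H5.SM
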