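import Pool.Agent.H5.SM.E1

/-! The inequality for bodies in position close to the simplex. -/

set_option autoImplicit false

open MeasureTheory Set Filter
open scoped ENNReal Topology Pointwise

namespace Pool.Agent.H5.SM

open Pool.Agent.H5.LP (V Del T T_lintegral T_volume T_inj T_surj T_pair J J_pos J_fin J_T I I_T Fu
  del_compact del_vol_ne_zero del_vol_ne_top)

variable {n k : ℕ}

lemma Fu_del {p : ℝ} (hp : 0 < p) : Fu p (Del n) (gc n) =
    ENNReal.ofReal (vol n ^ (1 + 1 / p) * Zc n p) := by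
  unfold Fu
  rw [I_del hp, ← vol_ofReal, ENNReal.ofReal_rpow_of_pos vol_pos,
    ENNReal.ofReal_mul (Real.rpow_nonneg vol_pos.le _)]

/-- elementary inequality -/
lemma arith {B θ e D s : ℝ} (he : 0 < e) (hD : 0 ≤ D) (hs0 : 0 ≤ s) (hθ : 0 ≤ θ)
    (hs2 : s * (2 * (B * θ ^ 2 + e * θ + D) + 1) ≤ e) :
    B * (1 + e / (2 * B) * s) ≤ (1 - θ * s) * (B + θ * B * s + e * s - D * s ^ 2) ∨ B ≤ 0 := by
  by_cases hB : B ≤ 0
  · exact Or.inr hB
  · left
    have hB' : 0 < B := not_le.1 hB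
    have e1 : B * (1 + e / (2 * B) * s) = B + e * s / 2 := by field_simp
    rw [e1]
    have e2 : (1 - θ * s) * (B + θ * B * s + e * s - D * s ^ 2) =
        B + e * s - (B * θ ^ 2 + e * θ + D) * s ^ 2 + θ * D * s ^ 3 := by ring
    rw [e2]
    have h3 : 0 ≤ θ * D * s ^ 3 := by positivity
    have h4 := mul_le_mul_of_nonneg_left hs2 hs0
    nlinarith [sq_nonneg s]

/-- **the inequality in position** -/
theorem main_pos {p : ℝ} (hp : 0 < p) : ∃ σ₀ c : ℝ, 0 < σ₀ ∧ 0 < c ∧
    ∀ K : Set (V (k + 2)), K ⊆ Del (k + 2) → Convex ℝ K → IsClosed K →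
      (∀ i : Fin (k + 3), pf i (cen (k + 1)) ∈ K) →
      volume (Del (k + 2) \ K) ≤ ENNReal.ofReal σ₀ → ∀ ξ : V (k + 2),
        ENNReal.ofReal (1 + c * ((volume (Del (k + 2) \ K)).toReal / vol (k + 2))) *
          Fu p (Del (k + 2)) (gc (k + 2)) ≤ Fu p K ξ := by
  set v := vol (k + 2) with hv
  have hv0 : 0 < v := vol_pos
  set B := Zc (k + 2) p with hB
  have hB0 : 0 < B := Zc_pos hp
  set θ : ℝ := 1 + 1 / p with hθ
  have hθ1 : 1 ≤ θ := by
    have : 0 < 1 / p := by positivity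
    linarith
  obtain ⟨H, hH1, hH2⟩ := exists_H (k := k) hp
  set A := (1 + p) * B / v with hA
  have hA0 : 0 < A := by positivity
  have hH0 : 0 < H := lt_trans hA0 hH1
  set H' := (A + H) / 2 with hH'
  have hH'1 : A < H' := by rw [hH']; linarith
  have hH'2 : H' < H := by rw [hH']; linarith
  have hH'0 : 0 < H' := lt_trans hA0 hH'1
  -- small parameter
  set τ : ℝ := min (1 / 2) ((H - H') / (((k : ℝ) + 3) * H)) with hτ
  have hk3 : (0 : ℝ) < (k : ℝ) + 3 := by positivity
  have hτ0 : 0 < τ := lt_min (by norm_num) (div_pos (by linarith) (by positivity))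
  have hτ1 : τ ≤ 1 / 2 := min_le_left _ _
  have hτ2 : H' ≤ (1 - τ) ^ (k + 2) * (1 - τ) * H := by
    have h1 : τ ≤ (H - H') / (((k : ℝ) + 3) * H) := min_le_right _ _
    rw [le_div_iff₀ (by positivity)] at h1
    have h2 : 1 + ((k + 3 : ℕ) : ℝ) * (-τ) ≤ (1 + -τ) ^ (k + 3) :=
      one_add_mul_le_pow (by linarith) (k + 3)
    push_cast at h2
    have h3 : (1 - τ) ^ (k + 2) * (1 - τ) = (1 + -τ) ^ (k + 3) := by ring
    rw [h3]
    have h4 := mul_le_mul_of_nonneg_right h2 hH0.le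
    nlinarith
  obtain ⟨δ₀, hδ₀0, hδ₀1, hδ₀⟩ := exists_delta (k := k) hp hτ0
  set δ := min δ₀ τ with hδ
  have hδ0 : 0 < δ := lt_min hδ₀0 hτ0
  have hδ1 : δ < 1 := lt_of_le_of_lt (min_le_left _ _) hδ₀1
  have hδτ : δ ≤ τ := min_le_right _ _
  have hδδ : δ ≤ δ₀ := min_le_left _ _
  obtain ⟨σ₁, hσ₁, hfull⟩ := full (n := k + 2) hδ0 hδ1
  obtain ⟨κ, C, hκ, hC, hlow⟩ := I_lower (n := k + 2) hp
  set e : ℝ := (H' - A) * v / p with he
  have he0 : 0 < e := by
    have : 0 < H' - A := by linarith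
    positivity
  set D : ℝ := C ^ 2 * v ^ 2 / (4 * κ) with hD
  have hD0 : 0 ≤ D := by positivity
  set s₀ : ℝ := min (1 / (2 * θ)) (e / (2 * (B * θ ^ 2 + e * θ + D) + 1)) with hs₀
  have hs₀0 : 0 < s₀ := lt_min (by positivity) (by positivity)
  refine ⟨min (σ₁ / 2) (s₀ * v), e / (2 * B), lt_min (by positivity) (by positivity),
    by positivity, fun K hKs hKc hKcl hcent hvol ξ => ?_⟩
  have hKcomp : IsCompact K := del_compact.of_isClosed_subset hKcl hKs
  set R := Del (k + 2) \ K with hR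
  have hRm : MeasurableSet R := del_compact.measurableSet.diff hKcl.measurableSet
  have hRt : volume R ≠ ∞ := (measure_mono sdiff_subset).trans_lt
    (lt_top_iff_ne_top.2 del_vol_ne_top) |>.ne
  set σ := (volume R).toReal with hσ
  have hσ0 : 0 ≤ σ := ENNReal.toReal_nonneg
  have hσe : volume R = ENNReal.ofReal σ := (ENNReal.ofReal_toReal hRt).symm
  have hm0 : 0 < min (σ₁ / 2) (s₀ * v) := lt_min (by positivity) (by positivity)
  have hσle : σ ≤ min (σ₁ / 2) (s₀ * v) := by
    rw [hσe] at hvol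
    exact (ENNReal.ofReal_le_ofReal_iff hm0.le).1 hvol
  have hσ1 : σ < σ₁ := by
    have := hσle.trans (min_le_left _ _)
    linarith
  have hσ2 : σ ≤ s₀ * v := hσle.trans (min_le_right _ _)
  set s := σ / v with hs
  have hs0 : 0 ≤ s := by positivity
  have hσs : σ = v * s := by rw [hs]; field_simp
  have hss : s ≤ s₀ := by
    rw [hs, div_le_iff₀ hv0]
    exact hσ2
  have hs1 : s ≤ 1 / (2 * θ) := hss.trans (min_le_left _ _)
  have hs2 : s * (2 * (B * θ ^ 2 + e * θ + D) + 1) ≤ e := by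
    have := hss.trans (min_le_right _ _)
    rwa [le_div_iff₀ (by positivity)] at this
  have hθs : θ * s ≤ 1 / 2 := by
    have h1 := mul_le_mul_of_nonneg_left hs1 (by linarith : 0 ≤ θ)
    have h2 : θ * (1 / (2 * θ)) = 1 / 2 := by field_simp
    linarith
  have hs12 : s ≤ 1 / 2 := by nlinarith
  -- volume of `K`
  have hKR : volume K + volume R = volume (Del (k + 2)) := by
    rw [← measure_union disjoint_sdiff_right hRm, union_sdiff_cancel hKs]
  have hKt : volume K ≠ ∞ := hKcomp.measure_ne_top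
  have hKv : volume K = ENNReal.ofReal (v * (1 - s)) := by
    have h1 : (volume K).toReal = v * (1 - s) := by
      have h2 := congrArg ENNReal.toReal hKR
      rw [ENNReal.toReal_add hKt hRt, ← hσ] at h2
      have h3 : (volume (Del (k + 2))).toReal = v := rfl
      rw [h3] at h2
      rw [mul_sub, mul_one, ← hσs]
      linarith
    rw [← h1, ENNReal.ofReal_toReal hKt]
  have hvs : 0 < v * (1 - s) := by
    have : 0 < 1 - s := by linarith
    positivity
  have hK0 : volume K ≠ 0 := by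
    rw [hKv]
    exact (ENNReal.ofReal_pos.2 hvs).ne'
  -- the position
  have hpos : Pos K δ := by
    refine ⟨hKs, hKc, hKcl, hfull K hKs hKc hKcl ?_, hcent⟩
    rw [hσe]
    exact (ENNReal.ofReal_lt_ofReal_iff hσ₁).2 hσ1
  have hcut := cut_potential hp hτ0.le (by linarith : τ < 1) hδ0.le hδ1 hH0.le hH2
    (fun ν hν r hr hr1 => hδ₀ ν hν r (by linarith) hr1) hpos
  -- finiteness
  obtain ⟨M, hM⟩ := ((del_compact (n := k + 2)).image_of_continuousOn
    ((Gf_contOn hp).mono (del_sub_Om hp))).isBounded.exists_norm_le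
  have hXt : ∫⁻ x in R, ENNReal.ofReal (Gf p x) ≠ ∞ := by
    have h1 : ∫⁻ x in R, ENNReal.ofReal (Gf p x) ≤ ENNReal.ofReal M * volume R := by
      rw [← setLIntegral_const]
      apply setLIntegral_mono' hRm
      intro x hx
      exact ENNReal.ofReal_le_ofReal ((le_abs_self _).trans (hM _ ⟨x, hx.1, rfl⟩))
    exact ne_top_of_le_ne_top (ENNReal.mul_ne_top ENNReal.ofReal_ne_top hRt) h1
  set X := (∫⁻ x in R, ENNReal.ofReal (Gf p x)).toReal with hX
  have hX1 : H' * σ ≤ X := by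
    have hco : 0 ≤ (1 - δ) ^ (k + 2) * (1 - τ) * H := by
      have : 0 < 1 - δ := by linarith
      have : 0 < 1 - τ := by linarith
      positivity
    have h1 := ENNReal.toReal_mono hXt hcut
    rw [ENNReal.toReal_mul, ENNReal.toReal_ofReal hco] at h1
    have h2 : (1 - τ) ^ (k + 2) * (1 - τ) * H ≤ (1 - δ) ^ (k + 2) * (1 - τ) * H := by
      have h3 : (1 - τ) ^ (k + 2) ≤ (1 - δ) ^ (k + 2) :=
        pow_le_pow_left₀ (by linarith) (by linarith) _
      have h4 : 0 ≤ (1 - τ) * H := by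
        have : 0 < 1 - τ := by linarith
        positivity
      nlinarith
    calc H' * σ ≤ ((1 - δ) ^ (k + 2) * (1 - τ) * H) * σ :=
          mul_le_mul_of_nonneg_right (hτ2.trans h2) hσ0
      _ ≤ X := h1
  -- lower bound for the integral
  have hI := hlow K hKs hKcomp hK0 (ξ - gc (k + 2))
  rw [add_sub_cancel, ← hX, ← hσ] at hI
  set t := ‖ξ - gc (k + 2)‖ with ht
  have hlow1 : B + θ * B * s + e * s - D * s ^ 2 ≤ B + κ * t ^ 2 + X / p - C * t * σ := by
    have h1 : H' * σ / p ≤ X / p := div_le_div_of_nonneg_right hX1 hp.le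
    have h2 : H' * σ / p = θ * B * s + e * s := by
      rw [he, hθ, hσs]
      have h3 : A * v = (1 + p) * B := by rw [hA]; field_simp
      have h4 : H' * (v * s) / p = (H' - A) * v / p * s + A * v * s / p := by
        field_simp
        ring
      rw [h4, h3]
      field_simp
      ring
    have h3 : -(D * s ^ 2) ≤ κ * t ^ 2 - C * t * σ := by
      rw [hD, hσs]
      have h4 : κ * t ^ 2 - C * t * (v * s) + C ^ 2 * v ^ 2 / (4 * κ) * s ^ 2 =
          κ * (t - C * v * s / (2 * κ)) ^ 2 := by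
        field_simp
        ring
      have h5 : 0 ≤ κ * (t - C * v * s / (2 * κ)) ^ 2 := by positivity
      linarith
    linarith
  have hI2 : ENNReal.ofReal (B + θ * B * s + e * s - D * s ^ 2) ≤ I p K ξ :=
    (ENNReal.ofReal_le_ofReal hlow1).trans hI
  have hvp : v ^ θ * (1 - θ * s) ≤ (v * (1 - s)) ^ θ := by
    rw [Real.mul_rpow hv0.le (by linarith)]
    apply mul_le_mul_of_nonneg_left _ (Real.rpow_nonneg hv0.le _)
    have h1 := one_add_mul_self_le_rpow_one_add (by linarith : -1 ≤ -s) hθ1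
    have h2 : 1 + -s = 1 - s := by ring
    rw [h2] at h1
    linarith
  have har := (arith he0 hD0 hs0 (by linarith : 0 ≤ θ) hs2).resolve_right (not_le.2 hB0)
  have hvθ : 0 < v ^ θ := Real.rpow_pos_of_pos hv0 _
  have h1θ : 0 ≤ 1 - θ * s := by linarith
  have hprod : (1 + e / (2 * B) * s) * (v ^ θ * B) ≤
      (v * (1 - s)) ^ θ * (B + θ * B * s + e * s - D * s ^ 2) := by
    have hq : 0 ≤ B + θ * B * s + e * s - D * s ^ 2 := by
      by_contra hcon
      have h1 := mul_nonpos_of_nonneg_of_nonpos h1θ (not_le.1 hcon).le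
      have h2 : 0 < B * (1 + e / (2 * B) * s) := by positivity
      linarith
    calc (1 + e / (2 * B) * s) * (v ^ θ * B) = v ^ θ * (B * (1 + e / (2 * B) * s)) := by ring
      _ ≤ v ^ θ * ((1 - θ * s) * (B + θ * B * s + e * s - D * s ^ 2)) :=
          mul_le_mul_of_nonneg_left har hvθ.le
      _ = (v ^ θ * (1 - θ * s)) * (B + θ * B * s + e * s - D * s ^ 2) := by ring
      _ ≤ _ := mul_le_mul_of_nonneg_right hvp hq
  rw [Fu_del hp, ← ENNReal.ofReal_mul (by positivity)]
  calc ENNReal.ofReal ((1 + e / (2 * B) * s) * (v ^ θ * B))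
      ≤ ENNReal.ofReal ((v * (1 - s)) ^ θ * (B + θ * B * s + e * s - D * s ^ 2)) :=
        ENNReal.ofReal_le_ofReal hprod
    _ = (volume K) ^ θ * ENNReal.ofReal (B + θ * B * s + e * s - D * s ^ 2) := by
        rw [ENNReal.ofReal_mul (Real.rpow_nonneg hvs.le _), hKv,
          ENNReal.ofReal_rpow_of_pos hvs]
    _ ≤ Fu p K ξ := mul_le_mul' le_rfl hI2

end Pool.Agent.H5.SM
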