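import Pool.Agent.H5.SM.E2

/-! Affine positions of maximal volume inside the simplex. -/

set_option autoImplicit false

open MeasureTheory Set Filter
open scoped ENNReal Topology Pointwise

namespace Pool.Agent.H5.SM

open Pool.Agent.H5.LP (V Del T T_lintegral T_volume T_inj T_surj T_pair J J_pos J_fin J_T I I_T Fu
  del_compact del_vol_ne_zero del_vol_ne_top)

variable {n k : ℕ}

lemma T_comp (A A' : Matrix (Fin n) (Fin n) ℝ) (b b' x : V n) :
    T A' b' (T A b x) = T (A' * A) (A'.mulVec b + b') x := by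
  unfold T
  rw [Matrix.mulVec_add, Matrix.mulVec_mulVec, add_assoc]

/-- position of maximal volume -/
def MaxPos (K : Set (V n)) : Prop := ∀ (A : Matrix (Fin n) (Fin n) ℝ) (b : V n),
  T A b '' K ⊆ Del n → |A.det| ≤ 1

lemma exists_max {K : Set (V n)} (hK : K ⊆ Del n) (hint : (interior K).Nonempty) :
    ∃ (A : Matrix (Fin n) (Fin n) ℝ) (b : V n), 1 ≤ |A.det| ∧ T A b '' K ⊆ Del n ∧
      MaxPos (T A b '' K) := by
  obtain ⟨x₀, hx₀⟩ := hint
  obtain ⟨r, hr, hball⟩ := Metric.isOpen_iff.1 isOpen_interior x₀ hx₀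
  have hballK : Metric.ball x₀ r ⊆ K := hball.trans interior_subset
  set S : Set ((Fin n → Fin n → ℝ) × V n) :=
    {q | ∀ x ∈ K, T (Matrix.of q.1) q.2 x ∈ Del n} with hS
  have hTc : ∀ x : V n, Continuous fun q : (Fin n → Fin n → ℝ) × V n =>
      T (Matrix.of q.1) q.2 x := by
    intro x
    apply continuous_pi
    intro i
    show Continuous fun q : (Fin n → Fin n → ℝ) × V n => ∑ j, q.1 i j * x j + q.2 i
    fun_prop
  have hScl : IsClosed S := by
    have : S = ⋂ x ∈ K, (fun q : (Fin n → Fin n → ℝ) × V n => T (Matrix.of q.1) q.2 x) ⁻¹'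
        Del n := by
      ext q
      simp [hS]
    rw [this]
    exact isClosed_biInter fun x _ => del_compact.isClosed.preimage (hTc x)
  set c : ℝ := 2 / r with hc
  have hc0 : 0 < c := by positivity
  set β : ℝ := 1 + c * ∑ j, |x₀ j| with hβ
  have h01 : ∀ z ∈ Del n, ∀ i, 0 ≤ z i ∧ z i ≤ 1 := by
    intro z hz i
    exact ⟨hz.1 i, (Finset.single_le_sum (fun j _ => hz.1 j) (Finset.mem_univ i)).trans hz.2⟩
  have hbd : S ⊆ (Set.pi univ fun _ : Fin n => Set.pi univ fun _ : Fin n => Icc (-c) c) ×ˢ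
      (Set.pi univ fun _ : Fin n => Icc (-β) β) := by
    intro q hq
    have hx0K : x₀ ∈ K := hballK (Metric.mem_ball_self hr)
    have hA : ∀ i j, |q.1 i j| ≤ c := by
      intro i j
      have hxj : x₀ + (r / 2) • (Pi.single j 1 : V n) ∈ K := by
        apply hballK
        rw [Metric.mem_ball, dist_eq_norm, add_sub_cancel_left, norm_smul, Pi.norm_single,
          norm_one, mul_one, Real.norm_eq_abs, abs_of_pos (by positivity)]
        linarith
      have h1 := h01 _ (hq _ hxj) i
      have h2 := h01 _ (hq _ hx0K) i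
      have e : T (Matrix.of q.1) q.2 (x₀ + (r / 2) • (Pi.single j 1 : V n)) i =
          T (Matrix.of q.1) q.2 x₀ i + (r / 2) * q.1 i j := by
        show ∑ l, q.1 i l * (x₀ + (r / 2) • (Pi.single j 1 : V n)) l + q.2 i =
          (∑ l, q.1 i l * x₀ l + q.2 i) + (r / 2) * q.1 i j
        simp only [Pi.add_apply, Pi.smul_apply, smul_eq_mul, mul_add, Finset.sum_add_distrib]
        have : ∑ l, q.1 i l * (r / 2 * (Pi.single j 1 : V n) l) = r / 2 * q.1 i j := by
          rw [Finset.sum_eq_single j]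
          · simp; ring
          · intro l _ hl
            simp [hl]
          · intro h; exact absurd (Finset.mem_univ j) h
        rw [this]
        ring
      rw [e] at h1
      have h3 : |r / 2 * q.1 i j| ≤ 1 := by
        rw [abs_le]
        constructor <;> linarith [h1.1, h1.2, h2.1, h2.2]
      rw [abs_mul, abs_of_pos (by positivity : 0 < r / 2)] at h3
      rw [hc, le_div_iff₀ hr]
      linarith
    have hb : ∀ i, |q.2 i| ≤ β := by
      intro i
      have h2 := h01 _ (hq _ hx0K) i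
      have e : T (Matrix.of q.1) q.2 x₀ i = ∑ l, q.1 i l * x₀ l + q.2 i := rfl
      rw [e] at h2
      have h3 : |∑ l, q.1 i l * x₀ l| ≤ c * ∑ j, |x₀ j| := by
        rw [Finset.mul_sum]
        refine (Finset.abs_sum_le_sum_abs _ _).trans (Finset.sum_le_sum fun j _ => ?_)
        rw [abs_mul]
        exact mul_le_mul_of_nonneg_right (hA i j) (abs_nonneg _)
      rw [abs_le] at h3 ⊢
      constructor <;> linarith [h2.1, h2.2, h3.1, h3.2]
    refine ⟨fun i _ j _ => ?_, fun i _ => ?_⟩
    · exact ⟨(abs_le.1 (hA i j)).1, (abs_le.1 (hA i j)).2⟩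
    · exact ⟨(abs_le.1 (hb i)).1, (abs_le.1 (hb i)).2⟩
  have hSc : IsCompact S := by
    apply IsCompact.of_isClosed_subset _ hScl hbd
    exact (isCompact_univ_pi fun _ => isCompact_univ_pi fun _ => isCompact_Icc).prod
      (isCompact_univ_pi fun _ => isCompact_Icc)
  have hone : ((fun i j => (1 : Matrix (Fin n) (Fin n) ℝ) i j, 0) :
      (Fin n → Fin n → ℝ) × V n) ∈ S := by
    intro x hx
    have : T (Matrix.of fun i j => (1 : Matrix (Fin n) (Fin n) ℝ) i j) 0 x = x := by
      unfold T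
      have : (Matrix.of fun i j => (1 : Matrix (Fin n) (Fin n) ℝ) i j) = 1 := rfl
      rw [this, Matrix.one_mulVec, add_zero]
    show T (Matrix.of fun i j => (1 : Matrix (Fin n) (Fin n) ℝ) i j) 0 x ∈ Del n
    rw [this]
    exact hK hx
  have hdc : Continuous fun q : (Fin n → Fin n → ℝ) × V n => |(Matrix.of q.1).det| := by
    apply Continuous.abs
    apply Continuous.matrix_det
    exact continuous_fst
  obtain ⟨q, hqS, hqmax⟩ := hSc.exists_isMaxOn ⟨_, hone⟩ hdc.continuousOn
  have h1 : 1 ≤ |(Matrix.of q.1).det| := by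
    have h2 := hqmax hone
    have h3 : (Matrix.of fun i j => (1 : Matrix (Fin n) (Fin n) ℝ) i j) = 1 := rfl
    have h4 : |(Matrix.of fun i j => (1 : Matrix (Fin n) (Fin n) ℝ) i j).det| ≤
      |(Matrix.of q.1).det| := h2
    rwa [h3, Matrix.det_one, abs_one] at h4
  refine ⟨Matrix.of q.1, q.2, h1, ?_, ?_⟩
  · rintro _ ⟨x, hx, rfl⟩
    exact hqS x hx
  · intro A' b' hA'
    have h2 : ((fun i j => (A' * Matrix.of q.1) i j, A'.mulVec q.2 + b') :
        (Fin n → Fin n → ℝ) × V n) ∈ S := by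
      intro x hx
      have h3 : T (Matrix.of fun i j => (A' * Matrix.of q.1) i j) (A'.mulVec q.2 + b') x =
          T A' b' (T (Matrix.of q.1) q.2 x) := by
        rw [T_comp]
        rfl
      show T (Matrix.of fun i j => (A' * Matrix.of q.1) i j) (A'.mulVec q.2 + b') x ∈ Del n
      rw [h3]
      exact hA' ⟨_, ⟨x, hx, rfl⟩, rfl⟩
    have h4 : |(Matrix.of fun i j => (A' * Matrix.of q.1) i j).det| ≤
      |(Matrix.of q.1).det| := hqmax h2
    have h5 : (Matrix.of fun i j => (A' * Matrix.of q.1) i j) = A' * Matrix.of q.1 := rfl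
    rw [h5, Matrix.det_mul, abs_mul] at h4
    have h6 : 0 < |(Matrix.of q.1).det| := by linarith
    by_contra hcon
    nlinarith [not_le.1 hcon]

/-- products of numbers close to one -/
lemma prod_gt {b : Fin n → ℝ} (hb : 0 < ∑ j, b j) (M : ℝ) : ∃ t : ℝ, 0 < t ∧ t * M ≤ 1 ∧
    (∀ j, 0 < 1 + t * b j) ∧ 1 < ∏ j, (1 + t * b j) := by
  set S := ∑ j, b j with hS
  set Q := ∑ j, b j ^ 2 with hQ
  have hQ0 : 0 ≤ Q := Finset.sum_nonneg fun j _ => sq_nonneg _
  set N := ∑ j, |b j| with hN
  have hN0 : 0 ≤ N := Finset.sum_nonneg fun j _ => abs_nonneg _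
  set t : ℝ := min (min (1 / (2 * (N + 1))) (S / (2 * Q + 1) / 2)) (1 / (|M| + 1)) with ht
  have ht0 : 0 < t := lt_min (lt_min (by positivity) (by positivity)) (by positivity)
  have ht1 : t ≤ 1 / (2 * (N + 1)) := (min_le_left _ _).trans (min_le_left _ _)
  have ht2 : t ≤ S / (2 * Q + 1) / 2 := (min_le_left _ _).trans (min_le_right _ _)
  have ht3 : t ≤ 1 / (|M| + 1) := min_le_right _ _
  have hM : t * M ≤ 1 := by
    rw [le_div_iff₀ (by positivity)] at ht3
    have := le_abs_self M
    nlinarith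
  have hj : ∀ j, |t * b j| ≤ 1 / 2 := by
    intro j
    have h1 : |b j| ≤ N := Finset.single_le_sum (f := fun j => |b j|)
      (fun i _ => abs_nonneg _) (Finset.mem_univ j)
    rw [abs_mul, abs_of_pos ht0]
    rw [le_div_iff₀ (by positivity)] at ht1
    nlinarith
  have hpos : ∀ j, 0 < 1 + t * b j := by
    intro j
    have := (abs_le.1 (hj j)).1
    linarith
  refine ⟨t, ht0, hM, hpos, ?_⟩
  have hlog : 0 < ∑ j, Real.log (1 + t * b j) := by
    have h1 : ∀ j, t * b j - 2 * t ^ 2 * b j ^ 2 ≤ Real.log (1 + t * b j) := by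
      intro j
      have h2 := Real.one_sub_inv_le_log_of_pos (hpos j)
      have h3 : t * b j - 2 * t ^ 2 * b j ^ 2 ≤ 1 - (1 + t * b j)⁻¹ := by
        have h4 := (abs_le.1 (hj j)).1
        have h5 : 1 - (1 + t * b j)⁻¹ = t * b j / (1 + t * b j) := by
          have := (hpos j).ne'
          field_simp
          ring
        rw [h5, le_div_iff₀ (hpos j)]
        nlinarith [sq_nonneg (t * b j)]
      linarith
    have h2 : t * S - 2 * t ^ 2 * Q ≤ ∑ j, Real.log (1 + t * b j) := by
      calc t * S - 2 * t ^ 2 * Q = ∑ j, (t * b j - 2 * t ^ 2 * b j ^ 2) := by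
            rw [Finset.sum_sub_distrib, ← Finset.mul_sum, ← Finset.mul_sum]
        _ ≤ _ := Finset.sum_le_sum fun j _ => h1 j
    have h3 : 0 < t * S - 2 * t ^ 2 * Q := by
      have h4 : t * (2 * (2 * Q + 1)) ≤ S := by
        have : S / (2 * Q + 1) / 2 = S / (2 * (2 * Q + 1)) := by field_simp
        rw [this, le_div_iff₀ (by positivity)] at ht2
        exact ht2
      have h5 : t * S - 2 * t ^ 2 * Q = t * (S - 2 * t * Q) := by ring
      rw [h5]
      apply mul_pos ht0
      nlinarith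
    linarith
  rw [← Real.log_prod (fun j _ => (hpos j).ne')] at hlog
  have h6 : 0 < ∏ j, (1 + t * b j) := Finset.prod_pos fun j _ => hpos j
  by_contra hcon
  have := Real.log_nonpos h6.le (not_lt.1 hcon)
  linarith

/-- the centroid of the facet `Σ x = 1` -/
lemma max_cent0 {K : Set (V (k + 2))} (hKs : K ⊆ Del (k + 2)) (hKc : Convex ℝ K)
    (hKcl : IsClosed K) (hmax : MaxPos K) : (fun _ => 1 / ((k : ℝ) + 2) : V (k + 2)) ∈ K := by
  by_contra hx
  obtain ⟨f, u, hf1, hf2⟩ := geometric_hahn_banach_closed_point hKc hKcl hx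
  have hk : (0 : ℝ) < (k : ℝ) + 2 := by positivity
  set b : V (k + 2) := fun j => f (Pi.single j 1) with hb
  have hf : ∀ x : V (k + 2), f x = ∑ j, x j * b j := by
    intro x
    have h1 : x = ∑ j, x j • (Pi.single j 1 : V (k + 2)) := by
      ext i
      simp [Finset.sum_apply, Pi.single_apply]
    conv_lhs => rw [h1]
    rw [map_sum]
    refine Finset.sum_congr rfl fun j _ => ?_
    rw [map_smul, smul_eq_mul]
  have hS : 0 < ∑ j, (b j - u) := by
    rw [Finset.sum_sub_distrib, Finset.sum_const, Finset.card_univ, Fintype.card_fin,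
      nsmul_eq_mul]
    rw [hf, ← Finset.mul_sum, one_div, inv_mul_eq_div, lt_div_iff₀ hk] at hf2
    push_cast
    linarith
  obtain ⟨t, ht0, htu, hpos, hprod⟩ := prod_gt hS u
  have hD : (Matrix.diagonal fun j => 1 + t * (b j - u)).det = ∏ j, (1 + t * (b j - u)) :=
    Matrix.det_diagonal
  have hTx : ∀ (x : V (k + 2)) (j : Fin (k + 2)),
      T (Matrix.diagonal fun j => 1 + t * (b j - u)) 0 x j = (1 + t * (b j - u)) * x j := by
    intro x j
    unfold T
    rw [add_zero, Matrix.mulVec_diagonal]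
  have hsub : T (Matrix.diagonal fun j => 1 + t * (b j - u)) 0 '' K ⊆ Del (k + 2) := by
    rintro _ ⟨x, hx, rfl⟩
    have hxD := hKs hx
    refine ⟨fun j => ?_, ?_⟩
    · rw [hTx]
      exact mul_nonneg (hpos j).le (hxD.1 j)
    · simp only [hTx]
      have h1 := (hf1 x hx).le
      rw [hf] at h1
      have e : ∑ j, (1 + t * (b j - u)) * x j = ∑ j, x j + t * (∑ j, x j * b j - u * ∑ j, x j) := by
        rw [Finset.mul_sum (a := u), ← Finset.sum_sub_distrib, Finset.mul_sum,
          ← Finset.sum_add_distrib]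
        refine Finset.sum_congr rfl fun j _ => ?_
        ring
      rw [e]
      have h2 := hxD.2
      have h3 : 0 ≤ (1 - ∑ j, x j) * (1 - t * u) := mul_nonneg (by linarith) (by linarith)
      nlinarith
  have h1 := hmax _ _ hsub
  rw [hD] at h1
  have h2 := le_abs_self (∏ j, (1 + t * (b j - u)))
  linarith

lemma max_pt {K : Set (V n)} (hmax : MaxPos K) (i j : Fin (n + 1)) : MaxPos (pt i j '' K) := by
  intro A b h
  have h1 : T (A * pA i j) (A.mulVec (pt i j 0) + b) '' K ⊆ Del n := by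
    rintro _ ⟨x, hx, rfl⟩
    rw [← T_comp, ← pt_eq_T]
    exact h ⟨_, ⟨x, hx, rfl⟩, rfl⟩
  have h2 := hmax _ _ h1
  rwa [Matrix.det_mul, abs_mul, pA_det, mul_one] at h2

lemma ins_cen (l : Fin (k + 3)) : ins (cen (k + 1)) l = if l = Fin.last (k + 2) then 0 else
    1 / ((k : ℝ) + 2) := by
  refine Fin.lastCases ?_ (fun m => ?_) l
  · rw [ins_last, if_pos rfl]
  · rw [ins_castSucc, if_neg (Fin.castSucc_lt_last m).ne]
    unfold cen
    push_cast
    ring

lemma cb_cen (i l : Fin (k + 3)) : cb i 1 (cen (k + 1)) l = if l = i then 0 else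
    1 / ((k : ℝ) + 2) := by
  unfold cb
  rw [ins_cen]
  have h : Equiv.swap i (Fin.last (k + 1 + 1)) l = Fin.last (k + 2) ↔ l = i := by
    constructor
    · intro h1
      have h2 := congrArg (Equiv.swap i (Fin.last (k + 1 + 1))) h1
      rw [Equiv.swap_apply_self] at h2
      rw [h2]
      exact Equiv.swap_apply_right _ _
    · intro h1
      rw [h1]
      exact Equiv.swap_apply_left _ _
  simp only [h]
  ring

lemma pt_mem_iff (i j : Fin (n + 1)) {K : Set (V n)} {x : V n} :
    x ∈ pt i j '' K ↔ pt i j x ∈ K := by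
  constructor
  · rintro ⟨y, hy, rfl⟩
    rwa [pt_pt]
  · intro h
    exact ⟨_, h, pt_pt i j x⟩

/-- in the position of maximal volume the body contains the centroids of the facets -/
theorem max_cent {K : Set (V (k + 2))} (hKs : K ⊆ Del (k + 2)) (hKc : Convex ℝ K)
    (hKcomp : IsCompact K) (hmax : MaxPos K) (i : Fin (k + 3)) : pf i (cen (k + 1)) ∈ K := by
  have hsub : pt 0 i '' K ⊆ Del (k + 2) := by
    rintro _ ⟨x, hx, rfl⟩
    exact pt_mem 0 i (hKs hx)
  have hconv : Convex ℝ (pt 0 i '' K) := by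
    rintro _ ⟨x, hx, rfl⟩ _ ⟨y, hy, rfl⟩ a b ha hb hab
    refine ⟨a • x + b • y, hKc hx hy ha hb hab, ?_⟩
    rw [pt_eq, pt_eq 0 i x, pt_eq 0 i y, map_add, map_smul, map_smul, smul_add, smul_add]
    have : pt 0 i 0 = a • pt 0 i (0 : V (k + 2)) + b • pt 0 i 0 := by
      rw [← add_smul, hab, one_smul]
    conv_lhs => rw [this]
    abel
  have hcl : IsClosed (pt 0 i '' K) := (hKcomp.image (pt_cont 0 i)).isClosed
  have h := max_cent0 hsub hconv hcl (max_pt hmax 0 i)
  rw [pt_mem_iff] at h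
  have e : pt 0 i (fun _ => 1 / ((k : ℝ) + 2) : V (k + 2)) = pf i (cen (k + 1)) := by
    apply bary_inj
    rw [bary_pt, bary_pf i cen_mem]
    ext l
    rw [cb_cen]
    have hb0 : bary (fun _ => 1 / ((k : ℝ) + 2) : V (k + 2)) 0 = 0 := by
      rw [bary_zero, Finset.sum_const, Finset.card_univ, Fintype.card_fin, nsmul_eq_mul]
      push_cast
      field_simp
      ring
    by_cases hl : l = i
    · rw [if_pos hl, hl, Equiv.swap_apply_right, hb0]
    · rw [if_neg hl]
      have hne : Equiv.swap 0 i l ≠ 0 := by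
        intro h1
        apply hl
        have h2 := congrArg (Equiv.swap 0 i) h1
        rw [Equiv.swap_apply_self] at h2
        rw [h2]
        exact Equiv.swap_apply_left _ _
      obtain ⟨m, hm⟩ := Fin.exists_succ_eq.2 hne
      rw [← hm, bary_succ]
  rwa [e] at h

end Pool.Agent.H5.SM
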