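import Pool.Agent.H5.SM.E3

/-! Stability of the simplex. -/

set_option autoImplicit false

open MeasureTheory Set Filter
open scoped ENNReal Topology Pointwise

namespace Pool.Agent.H5.SM

open Pool.Agent.H5.LP (V Del T T_lintegral T_volume T_inj T_surj T_pair J J_pos J_fin J_T I I_T Fu
  Fu_T Mp Mp_shift del_compact del_vol_ne_zero del_vol_ne_top)

variable {n k : ℕ}

lemma aff_T (e : V n ≃ᵃ[ℝ] V n) : ∃ (A : Matrix (Fin n) (Fin n) ℝ) (b : V n), A.det ≠ 0 ∧
    ∀ x, e x = T A b x := by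
  refine ⟨LinearMap.toMatrix' (e.linear : V n →ₗ[ℝ] V n), e 0, ?_, fun x => ?_⟩
  · rw [LinearMap.det_toMatrix']
    exact (LinearEquiv.isUnit_det' e.linear).ne_zero
  · unfold T
    have h1 := e.map_vadd 0 x
    rw [vadd_eq_add, add_zero, vadd_eq_add] at h1
    rw [h1]
    congr 1
    rw [← Matrix.toLin'_apply, Matrix.toLin'_toMatrix']
    rfl

lemma T_aff {A : Matrix (Fin n) (Fin n) ℝ} (hA : A.det ≠ 0) (b : V n) :
    ∃ e : V n ≃ᵃ[ℝ] V n, ∀ x, e x = T A b x := by
  have h1 : ∀ x : V n, Matrix.toLin' A x = T A 0 x := by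
    intro x
    unfold T
    rw [Matrix.toLin'_apply, add_zero]
  have hinj : Function.Injective (Matrix.toLin' A) := by
    intro x y h
    rw [h1, h1] at h
    exact T_inj hA 0 h
  have hsurj : Function.Surjective (Matrix.toLin' A) := by
    intro y
    obtain ⟨x, hx⟩ := T_surj hA 0 y
    exact ⟨x, by rw [h1]; exact hx⟩
  refine ⟨(LinearEquiv.ofBijective (Matrix.toLin' A) ⟨hinj, hsurj⟩).toAffineEquiv.trans
    (AffineEquiv.constVAdd ℝ (V n) b), fun x => ?_⟩
  unfold T
  simp [add_comm]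

lemma T_convex (A : Matrix (Fin n) (Fin n) ℝ) (b : V n) {K : Set (V n)} (hK : Convex ℝ K) :
    Convex ℝ (T A b '' K) := by
  rintro _ ⟨x, hx, rfl⟩ _ ⟨y, hy, rfl⟩ s t hs ht hst
  refine ⟨s • x + t • y, hK hx hy hs ht hst, ?_⟩
  unfold T
  rw [Matrix.mulVec_add, Matrix.mulVec_smul, Matrix.mulVec_smul, smul_add, smul_add]
  have : b = s • b + t • b := by rw [← add_smul, hst, one_smul]
  conv_lhs => rw [this]
  abel

lemma aff_compact (e : V n ≃ᵃ[ℝ] V n) {K : Set (V n)} (hK : IsCompact K) :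
    IsCompact (e '' K) := by
  obtain ⟨A, b, _, h⟩ := aff_T e
  have : (e : V n → V n) = T A b := funext h
  rw [this]
  exact hK.image (T_cont A b)

lemma inf_le_Fu {p : ℝ} (hp : 0 < p) :
    (⨅ z ∈ Del n, Mp p ((fun w => w - z) '' Del n)) ≤ Fu p (Del n) (gc n) := by
  have hg : gc n ∈ Del n := by rw [← bary_mem, bary_gc]; exact cen_mem
  rw [← Mp_shift hp del_compact del_vol_ne_zero (gc n)]
  exact iInf₂_le _ hg

lemma del_of_null {K : Set (V n)} (hKs : K ⊆ Del n) (hKc : Convex ℝ K) (hKcl : IsClosed K)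
    (h : volume (Del n \ K) = 0) : K = Del n := by
  apply Subset.antisymm hKs
  intro x hx
  have h1 : ∀ u : ℝ, 0 < u → u < 1 → dl u x ∈ K := by
    intro u h0 h1
    obtain ⟨σ, hσ, hf⟩ := full (n := n) (by linarith : 0 < 1 - u) (by linarith)
    have h2 := hf K hKs hKc hKcl (by rw [h]; exact ENNReal.ofReal_pos.2 hσ)
    rw [sub_sub_cancel] at h2
    exact h2 ⟨x, hx, rfl⟩
  have h2 : Tendsto (fun u : ℝ => dl u x) (𝓝[<] 1) (𝓝 x) := by
    have hc : Continuous fun u : ℝ => dl u x := by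
      simp only [dl_apply]
      fun_prop
    have h3 := hc.tendsto 1
    have h4 : dl 1 x = x := by rw [dl_apply]; simp
    rw [h4] at h3
    exact h3.mono_left nhdsWithin_le_nhds
  refine hKcl.mem_of_tendsto h2 ?_
  have h3 : ∀ᶠ u in 𝓝[<] (1 : ℝ), 0 < u := nhdsWithin_le_nhds (lt_mem_nhds one_pos)
  filter_upwards [h3, self_mem_nhdsWithin] with u h4 h5
  exact h1 u h4 h5

/-- **stability of the simplex** -/
theorem stability (k : ℕ) {p : ℝ} (hp : 0 < p) : ∃ ε c : ℝ, 0 < ε ∧ 0 < c ∧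
    ∀ K : Set (V (k + 2)), IsCompact K → Convex ℝ K → (interior K).Nonempty →
      ∀ e : V (k + 2) ≃ᵃ[ℝ] V (k + 2), K ⊆ e '' Del (k + 2) →
        volume (e '' Del (k + 2)) ≤ ENNReal.ofReal (1 + ε) * volume K →
        ∃ e' : V (k + 2) ≃ᵃ[ℝ] V (k + 2), K ⊆ e' '' Del (k + 2) ∧
          volume (e' '' Del (k + 2)) ≤ volume (e '' Del (k + 2)) ∧
          (∀ x : V (k + 2), ENNReal.ofReal
            (1 + c * (1 - (volume K).toReal / (volume (e' '' Del (k + 2))).toReal)) *
              (⨅ z ∈ Del (k + 2), Mp p ((fun w => w - z) '' Del (k + 2))) ≤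
                Mp p ((fun w => w - x) '' K)) ∧
          ((∃ x : V (k + 2), Mp p ((fun w => w - x) '' K) ≤
            ⨅ z ∈ Del (k + 2), Mp p ((fun w => w - z) '' Del (k + 2))) →
              K = e' '' Del (k + 2)) := by
  obtain ⟨σ₀, c, hσ₀, hc, hmain⟩ := main_pos (k := k) hp
  set v := vol (k + 2) with hv
  have hv0 : 0 < v := vol_pos
  refine ⟨σ₀ / v, c, by positivity, hc, fun K hKc hKcv hKi e hKe hvol => ?_⟩
  have hε0 : 0 < σ₀ / v := by positivity
  have hKm : MeasurableSet K := hKc.measurableSet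
  have hKpos : 0 < volume K := (isOpen_interior.measure_pos volume hKi).trans_le
    (measure_mono interior_subset)
  obtain ⟨A₀, b₀, hA₀, he₀⟩ := aff_T e.symm
  have hT₀ : (e.symm : V (k + 2) → V (k + 2)) = T A₀ b₀ := funext he₀
  set K' := e.symm '' K with hK'
  have hK's : K' ⊆ Del (k + 2) := by
    rintro _ ⟨x, hx, rfl⟩
    obtain ⟨z, hz, rfl⟩ := hKe hx
    rwa [e.symm_apply_apply]
  have hK'i : (interior K').Nonempty := by
    obtain ⟨A₁, c₁, _, h₁⟩ := aff_T e
    have h2 : Continuous e := by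
      have : (e : V (k + 2) → V (k + 2)) = T A₁ c₁ := funext h₁
      rw [this]
      exact T_cont _ _
    have h3 : K' = e ⁻¹' K := by
      ext x
      constructor
      · rintro ⟨y, hy, rfl⟩
        show e (e.symm y) ∈ K
        rwa [e.apply_symm_apply]
      · intro hx
        exact ⟨e x, hx, e.symm_apply_apply x⟩
    rw [h3]
    obtain ⟨y, hy⟩ := hKi
    refine ⟨e.symm y, mem_interior.2 ⟨e ⁻¹' interior K, preimage_mono interior_subset,
      isOpen_interior.preimage h2, ?_⟩⟩
    show e (e.symm y) ∈ interior K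
    rwa [e.apply_symm_apply]
  obtain ⟨A, b, hA1, hAs, hAm⟩ := exists_max hK's hK'i
  have hA : A.det ≠ 0 := by
    intro h
    rw [h, abs_zero] at hA1
    linarith
  set B := A * A₀ with hB
  set b₁ := A.mulVec b₀ + b with hb₁
  have hBdet : B.det = A.det * A₀.det := Matrix.det_mul _ _
  have hBd : B.det ≠ 0 := by rw [hBdet]; exact mul_ne_zero hA hA₀
  have hcomp : ∀ x, T A b (e.symm x) = T B b₁ x := by
    intro x
    rw [he₀, T_comp]
  have hK1 : T A b '' K' = T B b₁ '' K := by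
    rw [hK', image_image]
    exact image_congr fun x _ => hcomp x
  rw [hK1] at hAs hAm
  set K₁ := T B b₁ '' K with hK₁
  have hK₁c : IsCompact K₁ := hKc.image (T_cont _ _)
  have hK₁cv : Convex ℝ K₁ := T_convex B b₁ hKcv
  -- the new simplex
  obtain ⟨φ, hφ⟩ := T_aff hBd b₁
  have hφT : (φ : V (k + 2) → V (k + 2)) = T B b₁ := funext hφ
  have hmB : 0 < |B.det| := abs_pos.2 hBd
  have hφi : T B b₁ '' (φ.symm '' Del (k + 2)) = Del (k + 2) := by
    rw [← hφT, image_image]
    simp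
  have hφm : MeasurableSet (φ.symm '' Del (k + 2)) :=
    (aff_compact φ.symm del_compact).measurableSet
  have hvolφ : ENNReal.ofReal |B.det| * volume (φ.symm '' Del (k + 2)) =
      volume (Del (k + 2)) := by
    rw [← T_volume hBd b₁ hφm, hφi]
  have hvolK₁ : volume K₁ = ENNReal.ofReal |B.det| * volume K := T_volume hBd b₁ hKm
  have hem : MeasurableSet (e '' Del (k + 2)) := (aff_compact e del_compact).measurableSet
  have hvole : ENNReal.ofReal |A₀.det| * volume (e '' Del (k + 2)) = volume (Del (k + 2)) := by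
    rw [← T_volume hA₀ b₀ hem, ← hT₀, image_image]
    simp
  have hm₀ : 0 < |A₀.det| := abs_pos.2 hA₀
  have hBge : |A₀.det| ≤ |B.det| := by
    rw [hBdet, abs_mul]
    nlinarith
  -- the missing volume
  set R := Del (k + 2) \ K₁ with hR
  have hRm : MeasurableSet R := del_compact.measurableSet.diff hK₁c.measurableSet
  have hRt : volume R ≠ ∞ := (measure_mono sdiff_subset).trans_lt
    (lt_top_iff_ne_top.2 del_vol_ne_top) |>.ne
  have hK₁t : volume K₁ ≠ ∞ := hK₁c.measure_ne_top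
  have hKR : volume K₁ + volume R = volume (Del (k + 2)) := by
    rw [← measure_union disjoint_sdiff_right hRm, union_sdiff_cancel hAs]
  set σ := (volume R).toReal with hσ
  have hσ0 : 0 ≤ σ := ENNReal.toReal_nonneg
  have hvK : (volume K₁).toReal + σ = v := by
    have h := congrArg ENNReal.toReal hKR
    rw [ENNReal.toReal_add hK₁t hRt] at h
    exact h
  have h1 : volume (Del (k + 2)) ≤ ENNReal.ofReal (1 + σ₀ / v) * volume K₁ := by
    calc volume (Del (k + 2)) = ENNReal.ofReal |A₀.det| * volume (e '' Del (k + 2)) := hvole.symm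
      _ ≤ ENNReal.ofReal |A₀.det| * (ENNReal.ofReal (1 + σ₀ / v) * volume K) :=
          mul_le_mul' le_rfl hvol
      _ ≤ ENNReal.ofReal |B.det| * (ENNReal.ofReal (1 + σ₀ / v) * volume K) :=
          mul_le_mul' (ENNReal.ofReal_le_ofReal hBge) le_rfl
      _ = _ := by rw [hvolK₁]; ring
  have h2 : v ≤ (1 + σ₀ / v) * (volume K₁).toReal := by
    have h3 := ENNReal.toReal_mono (ENNReal.mul_ne_top ENNReal.ofReal_ne_top hK₁t) h1
    rw [ENNReal.toReal_mul, ENNReal.toReal_ofReal (by positivity)] at h3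
    exact h3
  have hσ₀' : σ ≤ σ₀ := by
    have h3 : (volume K₁).toReal = v - σ := by linarith
    rw [h3] at h2
    have h4 : σ₀ / v * v = σ₀ := by field_simp
    have h5 : 0 ≤ σ₀ / v * σ := by positivity
    nlinarith
  have hRσ : volume R ≤ ENNReal.ofReal σ₀ := by
    rw [← ENNReal.ofReal_toReal hRt]
    exact ENNReal.ofReal_le_ofReal hσ₀'
  have hcent : ∀ i : Fin (k + 3), pf i (cen (k + 1)) ∈ K₁ := max_cent hAs hK₁cv hK₁c hAm
  have hkey := hmain K₁ hAs hK₁cv hK₁c.isClosed hcent hRσ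
  -- the ratio
  have hratio : 1 - (volume K).toReal / (volume (φ.symm '' Del (k + 2))).toReal = σ / v := by
    have e1 : |B.det| * (volume (φ.symm '' Del (k + 2))).toReal = v := by
      have h := congrArg ENNReal.toReal hvolφ
      rw [ENNReal.toReal_mul, ENNReal.toReal_ofReal hmB.le] at h
      exact h
    have e2 : |B.det| * (volume K).toReal = v - σ := by
      have h := congrArg ENNReal.toReal hvolK₁
      rw [ENNReal.toReal_mul, ENNReal.toReal_ofReal hmB.le] at h
      linarith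
    have e3 : 0 < (volume (φ.symm '' Del (k + 2))).toReal := by
      by_contra hcon
      have h4 : (volume (φ.symm '' Del (k + 2))).toReal = 0 :=
        le_antisymm (not_lt.1 hcon) ENNReal.toReal_nonneg
      rw [h4, mul_zero] at e1
      linarith
    have e4 : (volume K).toReal / (volume (φ.symm '' Del (k + 2))).toReal = (v - σ) / v := by
      rw [div_eq_div_iff e3.ne' hv0.ne', ← e2, ← e1]
      ring
    rw [e4]
    field_simp
    ring
  have hFu : ∀ x : V (k + 2), Fu p K₁ (T B b₁ x) = Fu p K x := fun x => Fu_T hBd b₁ hKm hp x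
  have hineq : ∀ x : V (k + 2), ENNReal.ofReal (1 + c * (σ / v)) *
      Fu p (Del (k + 2)) (gc (k + 2)) ≤ Mp p ((fun w => w - x) '' K) := by
    intro x
    rw [Mp_shift hp hKc hKpos.ne', ← hFu x]
    exact hkey (T B b₁ x)
  refine ⟨φ.symm, ?_, ?_, ?_, ?_⟩
  · intro x hx
    refine ⟨T B b₁ x, hAs ⟨x, hx, rfl⟩, ?_⟩
    rw [← hφ x, φ.symm_apply_apply]
  · have h3 : ENNReal.ofReal |A₀.det| * volume (φ.symm '' Del (k + 2)) ≤
        ENNReal.ofReal |A₀.det| * volume (e '' Del (k + 2)) := by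
      calc ENNReal.ofReal |A₀.det| * volume (φ.symm '' Del (k + 2))
          ≤ ENNReal.ofReal |B.det| * volume (φ.symm '' Del (k + 2)) :=
            mul_le_mul' (ENNReal.ofReal_le_ofReal hBge) le_rfl
        _ = ENNReal.ofReal |A₀.det| * volume (e '' Del (k + 2)) := by rw [hvolφ, hvole]
    have hm0' : ENNReal.ofReal |A₀.det| ≠ 0 := (ENNReal.ofReal_pos.2 hm₀).ne'
    exact (ENNReal.mul_le_mul_iff_right hm0' ENNReal.ofReal_ne_top).1 h3
  · intro x
    rw [hratio]
    exact (mul_le_mul' le_rfl (inf_le_Fu hp)).trans (hineq x)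
  · rintro ⟨x, hx⟩
    have h3 := (hineq x).trans (hx.trans (inf_le_Fu hp))
    rw [Fu_del hp] at h3
    have hF0 : 0 < vol (k + 2) ^ (1 + 1 / p) * Zc (k + 2) p :=
      mul_pos (Real.rpow_pos_of_pos vol_pos _) (Zc_pos hp)
    rw [← ENNReal.ofReal_mul (by positivity), ENNReal.ofReal_le_ofReal_iff hF0.le] at h3
    have hσz : σ = 0 := by
      by_contra hcon
      have h4 : 0 < σ := lt_of_le_of_ne hσ0 (Ne.symm hcon)
      have h5 : 0 < c * (σ / v) := by positivity
      nlinarith
    have hR0 : volume R = 0 := by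
      rw [← ENNReal.ofReal_toReal hRt, ← hσ, hσz, ENNReal.ofReal_zero]
    have hKD : K₁ = Del (k + 2) := del_of_null hAs hK₁cv hK₁c.isClosed hR0
    have h4 : φ.symm '' K₁ = K := by
      rw [hK₁, ← hφT, image_image]
      simp
    rw [← h4, hKD]

end Pool.Agent.H5.SM
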